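import Mathlib

set_option autoImplicit false
set_option linter.constructorNameAsVariable false

/-!
Tree decompositions: a triangle lies in one bag; the path as a tree.
-/

namespace Pool.Agent.H46R3.Exp

open SimpleGraph

variable {V : Type} {T : SimpleGraph V}

theorem walk_in_aux (A : Set V) {x y : A} (w : (T.induce A).Walk x y) :
    ∃ w' : T.Walk x.1 y.1, ∀ z ∈ w'.support, z ∈ A := by
  induction w with
  | @nil u =>
    refine ⟨SimpleGraph.Walk.nil, ?_⟩
    intro z hz
    rw [SimpleGraph.Walk.support_nil, List.mem_singleton] at hz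
    rw [hz]
    exact u.2
  | @cons u v w h p ih =>
    obtain ⟨w', hw'⟩ := ih
    have h' : T.Adj u.1 v.1 := h
    refine ⟨SimpleGraph.Walk.cons h' w', ?_⟩
    intro z hz
    rw [SimpleGraph.Walk.support_cons, List.mem_cons] at hz
    rcases hz with hz | hz
    · rw [hz]; exact u.2
    · exact hw' z hz

theorem walk_in (A : Set V) (hA : (T.induce A).Preconnected) {x y : V} (hx : x ∈ A) (hy : y ∈ A) :
    ∃ w : T.Walk x y, ∀ z ∈ w.support, z ∈ A := by
  obtain ⟨w⟩ := hA ⟨x, hx⟩ ⟨y, hy⟩
  exact walk_in_aux A w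

theorem helly_aux (hT : T.IsAcyclic) (A B C : Set V)
    (hB : (T.induce B).Preconnected) (hC : (T.induce C).Preconnected)
    {y : V} (hyB : y ∈ B) (hyC : y ∈ C) :
    ∀ {u z : V} (p : T.Walk u z), (∀ v ∈ p.support, v ∈ A ∧ (v ∈ B ∨ v ∈ C)) → u ∈ B → z ∈ C →
      ∃ v, v ∈ A ∧ v ∈ B ∧ v ∈ C := by
  intro u z p
  induction p with
  | nil =>
    intro h hu hz
    exact ⟨_, (h _ (by simp)).1, hu, hz⟩
  | @cons u v z huv q ih =>
    intro h hu hz
    have hu' := h u (by simp)
    have hv' := h v (by simp)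
    by_cases hvB : v ∈ B
    · exact ih (fun w hw => h w (by simp [hw])) hvB hz
    · have hvC : v ∈ C := hv'.2.resolve_left hvB
      by_cases huC : u ∈ C
      · exact ⟨u, hu'.1, hu, huC⟩
      · exfalso
        obtain ⟨w1, hw1⟩ := walk_in B hB hu hyB
        obtain ⟨w2, hw2⟩ := walk_in C hC hyC hvC
        have hbr := (isAcyclic_iff_forall_adj_isBridge.1 hT) huv
        rw [isBridge_iff_forall_walk_mem_edges] at hbr
        have h1 := hbr (w1.append w2)
        rw [SimpleGraph.Walk.edges_append, List.mem_append] at h1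
        rcases h1 with h1 | h1
        · exact hvB (hw1 _ (w1.snd_mem_support_of_mem_edges h1))
        · exact huC (hw2 _ (w2.fst_mem_support_of_mem_edges h1))

theorem helly (hT : T.IsAcyclic) (A B C : Set V) (hA : (T.induce A).Preconnected)
    (hB : (T.induce B).Preconnected) (hC : (T.induce C).Preconnected)
    {x y z : V} (hxA : x ∈ A) (hxB : x ∈ B) (hyB : y ∈ B) (hyC : y ∈ C) (hzA : z ∈ A)
    (hzC : z ∈ C) : ∃ v, v ∈ A ∧ v ∈ B ∧ v ∈ C := by
  classical
  obtain ⟨w, hw⟩ := walk_in A hA hxA hzA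
  obtain ⟨w1, hw1⟩ := walk_in B hB hxB hyB
  obtain ⟨w2, hw2⟩ := walk_in C hC hyC hzC
  have huniq : w.toPath = (w1.append w2).toPath :=
    ((isAcyclic_iff_subsingleton_path.1 hT) x z).elim _ _
  refine helly_aux hT A B C hB hC hyB hyC w.bypass ?_ hxB hzC
  intro v hv
  refine ⟨hw v (w.support_bypass_subset_support hv), ?_⟩
  have h1 : v ∈ ((w1.append w2).toPath : T.Walk x z).support := by
    rw [← huniq]
    exact hv
  have h2 := (w1.append w2).support_bypass_subset_support h1
  rw [SimpleGraph.Walk.mem_support_append_iff] at h2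
  rcases h2 with h2 | h2
  · exact Or.inl (hw1 v h2)
  · exact Or.inr (hw2 v h2)

/-- a graph with a triangle has no tree decomposition with bags of size two -/
theorem no_small_bags {k : ℕ} (G : SimpleGraph (Fin k)) (a b c : Fin k) (hab : G.Adj a b)
    (hbc : G.Adj b c) (hac : G.Adj a c) :
    ¬ (∃ (m : ℕ) (T : SimpleGraph (Fin m)) (B : Fin m → Finset (Fin k)),
      T.IsTree ∧ (∀ i, (B i).card ≤ 2) ∧ (∀ v, ∃ i, v ∈ B i) ∧
      (∀ u v, G.Adj u v → ∃ i, u ∈ B i ∧ v ∈ B i) ∧
      (∀ v, (T.induce {i | v ∈ B i}).Connected)) := by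
  rintro ⟨m, T, B, hT, hcard, -, hedge, hconn⟩
  obtain ⟨x, hx1, hx2⟩ := hedge a b hab
  obtain ⟨y, hy1, hy2⟩ := hedge b c hbc
  obtain ⟨z, hz1, hz2⟩ := hedge a c hac
  obtain ⟨v, h1, h2, h3⟩ := helly hT.isAcyclic {i | a ∈ B i} {i | b ∈ B i} {i | c ∈ B i}
    (hconn a).preconnected (hconn b).preconnected (hconn c).preconnected
    hx1 hx2 hy1 hy2 hz1 hz2
  have h4 : ({a, b, c} : Finset (Fin k)) ⊆ B v := by
    intro w hw
    simp only [Finset.mem_insert, Finset.mem_singleton] at hw
    rcases hw with rfl | rfl | rfl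
    · exact h1
    · exact h2
    · exact h3
  have h5 := Finset.card_le_card h4
  have h6 : ({a, b, c} : Finset (Fin k)).card = 3 := by
    rw [Finset.card_eq_three]
    exact ⟨a, b, c, hab.ne, hac.ne, hbc.ne, rfl⟩
  have := hcard v
  omega

theorem path_edge_card (n : ℕ) : Nat.card (SimpleGraph.pathGraph (n + 1)).edgeSet = n := by
  have hinj : Function.Injective (fun i : Fin n => s(i.castSucc, i.succ)) := by
    intro i j h
    simp only [Sym2.eq_iff] at h
    rcases h with h | h
    · exact Fin.castSucc_injective n h.1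
    · exfalso
      have h1 := congrArg Fin.val h.1
      have h2 := congrArg Fin.val h.2
      simp at h1 h2
      omega
  have hr : (SimpleGraph.pathGraph (n + 1)).edgeSet
      = Set.range (fun i : Fin n => s(i.castSucc, i.succ)) := by
    ext e
    induction e with
    | _ u v =>
      rw [SimpleGraph.mem_edgeSet, SimpleGraph.pathGraph_adj]
      constructor
      · rintro (h | h)
        · refine ⟨⟨u.val, by omega⟩, ?_⟩
          simp only [Sym2.eq_iff]
          left
          exact ⟨Fin.ext rfl, Fin.ext (by simpa using h)⟩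
        · refine ⟨⟨v.val, by omega⟩, ?_⟩
          simp only [Sym2.eq_iff]
          right
          exact ⟨Fin.ext rfl, Fin.ext (by simpa using h)⟩
      · rintro ⟨i, hi⟩
        simp only [Sym2.eq_iff] at hi
        rcases hi with h | h
        · left
          rw [← h.1, ← h.2]
          simp
        · right
          rw [← h.1, ← h.2]
          simp
  rw [hr, Nat.card_range_of_injective hinj, Nat.card_eq_fintype_card, Fintype.card_fin]

theorem path_tree (n : ℕ) : (SimpleGraph.pathGraph (n + 1)).IsTree := by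
  rw [SimpleGraph.isTree_iff_connected_and_card]
  refine ⟨SimpleGraph.pathGraph_connected n, ?_⟩
  rw [path_edge_card, Nat.card_eq_fintype_card, Fintype.card_fin]

/-- intervals of a path are connected -/
theorem interval_connected (n : ℕ) (A : Set (Fin n)) (lo hi : ℕ)
    (hA : ∀ i : Fin n, i ∈ A ↔ lo ≤ i.val ∧ i.val ≤ hi) (hlo : lo ≤ hi) (hhi : hi < n) :
    ((SimpleGraph.pathGraph n).induce A).Connected := by
  have key : ∀ d : ℕ, ∀ h : lo + d ≤ hi,
      ((SimpleGraph.pathGraph n).induce A).Reachable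
        ⟨⟨lo, by omega⟩, (hA _).2 ⟨le_refl _, hlo⟩⟩
        ⟨⟨lo + d, by omega⟩, (hA _).2 ⟨by simp, h⟩⟩ := by
    intro d
    induction d with
    | zero => intro h; exact Reachable.refl _
    | succ d ih =>
      intro h
      refine (ih (by omega)).trans (Adj.reachable ?_)
      rw [SimpleGraph.comap_adj, SimpleGraph.pathGraph_adj]
      left
      rfl
  have hne : Nonempty A := ⟨⟨⟨lo, by omega⟩, (hA _).2 ⟨le_refl _, hlo⟩⟩⟩
  rw [SimpleGraph.connected_iff]
  refine ⟨?_, hne⟩
  have key2 : ∀ u : A, ((SimpleGraph.pathGraph n).induce A).Reachable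
        ⟨⟨lo, by omega⟩, (hA _).2 ⟨le_refl _, hlo⟩⟩ u := by
    rintro ⟨u, hu⟩
    have h1 := (hA u).1 hu
    have h2 := key (u.val - lo) (by omega)
    have h3 : (⟨lo + (u.val - lo), by omega⟩ : Fin n) = u := Fin.ext (by simp; omega)
    simpa only [h3] using h2
  intro u v
  exact (key2 u).symm.trans (key2 v)

end Pool.Agent.H46R3.Exp
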