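import Mathlib
import Pool.Agent.H46R3.TreeHelly

set_option autoImplicit false
set_option linter.constructorNameAsVariable false

/-!
The graph `G` with 29 vertices: a triangle `0, 1, 2`, a vertex `3` adjacent to `0`, `1` and to
`5, …, 16`, and a vertex `4` adjacent to `2` and to `17, …, 28`.
-/

namespace Pool.Agent.H46R3.Exp

/-- edges `u v` with `u < v` -/
def E (u v : Fin 29) : Bool :=
  (decide (u.val < v.val) && decide (v.val ≤ 2)) || (decide (u.val ≤ 1) && decide (v.val = 3)) ||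
  (decide (u.val = 2) && decide (v.val = 4)) ||
  (decide (u.val = 3) && decide (5 ≤ v.val) && decide (v.val ≤ 16)) ||
  (decide (u.val = 4) && decide (17 ≤ v.val))

/-- the graph -/
def G : SimpleGraph (Fin 29) where
  Adj u v := E u v = true ∨ E v u = true
  symm := ⟨fun _ _ h => h.symm⟩
  loopless := ⟨by decide⟩

instance : DecidableRel G.Adj := fun u v =>
  inferInstanceAs (Decidable (E u v = true ∨ E v u = true))

/-- first bag with `v` -/
def lo (v : Fin 29) : ℕ :=
  if v.val ≤ 1 then 12 else if v.val = 2 then 13 else if v.val = 3 then 0 else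
    if v.val = 4 then 14 else if v.val ≤ 16 then v.val - 5 else v.val - 2

/-- last bag with `v` -/
def hi (v : Fin 29) : ℕ :=
  if v.val ≤ 1 then 13 else if v.val = 2 then 14 else if v.val = 3 then 12 else
    if v.val = 4 then 26 else if v.val ≤ 16 then v.val - 5 else v.val - 2

/-- bags of a path decomposition -/
def bag (i : Fin 27) : Finset (Fin 29) := Finset.univ.filter (fun v => lo v ≤ i.val ∧ i.val ≤ hi v)

theorem bag_card : ∀ i, (bag i).card ≤ 3 := by decide +kernel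

theorem lo_le_hi : ∀ v, lo v ≤ hi v := by decide +kernel

theorem hi_lt : ∀ v, hi v < 27 := by decide +kernel

theorem edge_bag : ∀ u v, G.Adj u v → ∃ i, u ∈ bag i ∧ v ∈ bag i := by decide +kernel

theorem width_two : ∃ (m : ℕ) (T : SimpleGraph (Fin m)) (B : Fin m → Finset (Fin 29)),
      T.IsTree ∧ (∀ i, (B i).card ≤ 3) ∧ (∀ v, ∃ i, v ∈ B i) ∧
      (∀ u v, G.Adj u v → ∃ i, u ∈ B i ∧ v ∈ B i) ∧
      (∀ v, (T.induce {i | v ∈ B i}).Connected) := by
  refine ⟨27, SimpleGraph.pathGraph 27, bag, path_tree 26, bag_card, ?_, edge_bag, ?_⟩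
  · intro v
    refine ⟨⟨lo v, (lo_le_hi v).trans_lt (hi_lt v)⟩, ?_⟩
    unfold bag
    rw [Finset.mem_filter]
    exact ⟨Finset.mem_univ _, le_refl _, lo_le_hi v⟩
  · intro v
    refine interval_connected 27 {i | v ∈ bag i} (lo v) (hi v) ?_ (lo_le_hi v) (hi_lt v)
    intro i
    show v ∈ bag i ↔ _
    unfold bag
    rw [Finset.mem_filter]
    exact ⟨fun h => h.2, fun h => ⟨Finset.mem_univ _, h⟩⟩

theorem not_width_one : ¬ (∃ (m : ℕ) (T : SimpleGraph (Fin m)) (B : Fin m → Finset (Fin 29)),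
      T.IsTree ∧ (∀ i, (B i).card ≤ 2) ∧ (∀ v, ∃ i, v ∈ B i) ∧
      (∀ u v, G.Adj u v → ∃ i, u ∈ B i ∧ v ∈ B i) ∧
      (∀ v, (T.induce {i | v ∈ B i}).Connected)) :=
  no_small_bags G 0 1 2 (by decide) (by decide) (by decide)

/-- the two hubs -/
def S0 : Finset (Fin 29) := {3, 4}

theorem S0_indep : ∀ u ∈ S0, ∀ v ∈ S0, ¬ G.Adj u v := by decide

theorem rest_edges : ∀ u v, G.Adj u v → u ∉ S0 → v ∉ S0 →
    s(u, v) ∈ ({s(0, 1), s(0, 2), s(1, 2)} : Finset (Sym2 (Fin 29))) := by decide +kernel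

theorem rest_card : {e ∈ G.edgeSet | ∀ v ∈ e, v ∉ S0}.ncard ≤ 3 := by
  have h : {e ∈ G.edgeSet | ∀ v ∈ e, v ∉ S0} ⊆
      (({s(0, 1), s(0, 2), s(1, 2)} : Finset (Sym2 (Fin 29))) : Set (Sym2 (Fin 29))) := by
    intro e he
    induction e with
    | _ u v =>
      obtain ⟨h1, h2⟩ := he
      rw [SimpleGraph.mem_edgeSet] at h1
      exact rest_edges u v h1 (h2 u (by simp)) (h2 v (by simp))
  have h1 := Set.ncard_le_ncard h (Finset.finite_toSet _)
  rw [Set.ncard_coe_finset] at h1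
  refine h1.trans ?_
  decide

theorem sigma_le : sInf {c : ℕ | ∃ S : Finset (Fin 29),
          (∀ u ∈ S, ∀ v ∈ S, ¬ G.Adj u v) ∧
          c = S.card + {e ∈ G.edgeSet | ∀ v ∈ e, v ∉ S}.ncard} ≤ 5 := by
  have h0 : S0.card + {e ∈ G.edgeSet | ∀ v ∈ e, v ∉ S0}.ncard ∈ {c : ℕ | ∃ S : Finset (Fin 29),
          (∀ u ∈ S, ∀ v ∈ S, ¬ G.Adj u v) ∧
          c = S.card + {e ∈ G.edgeSet | ∀ v ∈ e, v ∉ S}.ncard} := ⟨S0, S0_indep, rfl⟩
  refine (Nat.sInf_le h0).trans ?_
  have h1 := rest_card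
  have h2 : S0.card = 2 := by decide
  omega

/-- The triple system: `11` special vertices, the remaining ones split by parity. -/
def sys (n M : ℕ) (h : 12 + 2 * M ≤ n) : Finset (Finset (Fin n)) :=
  (Finset.univ : Finset (Fin 11 × Fin M × Fin M)).image (fun p =>
    {⟨p.1.val, by omega⟩, ⟨12 + 2 * p.2.1.val, by omega⟩, ⟨11 + 2 * p.2.2.val, by omega⟩})

/-- colour of a vertex -/
def col (x : ℕ) : ℕ := if x < 11 then 0 else if x % 2 = 0 then 1 else 2

theorem sys_col (n M : ℕ) (h : 12 + 2 * M ≤ n) (x y z : Fin n) (hm : {x, y, z} ∈ sys n M h)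
    (hxy : x ≠ y) (hxz : x ≠ z) (hyz : y ≠ z) :
    (col x = 0 ∨ col y = 0 ∨ col z = 0) ∧ col x ≠ col y := by
  unfold sys at hm
  rw [Finset.mem_image] at hm
  obtain ⟨⟨s, a, b⟩, -, hp⟩ := hm
  have c1 : col s.val = 0 := by unfold col; rw [if_pos s.2]
  have c2 : col (12 + 2 * a.val) = 1 := by
    unfold col; rw [if_neg (by omega), if_pos (by omega)]
  have c3 : col (11 + 2 * b.val) = 2 := by
    unfold col; rw [if_neg (by omega), if_neg (by omega)]
  have hx : x ∈ ({x, y, z} : Finset (Fin n)) := by simp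
  have hy : y ∈ ({x, y, z} : Finset (Fin n)) := by simp
  have hz : z ∈ ({x, y, z} : Finset (Fin n)) := by simp
  rw [← hp] at hx hy hz
  simp only [Finset.mem_insert, Finset.mem_singleton] at hx hy hz
  have e : ∀ w : Fin n, (w = ⟨s.val, by omega⟩ ∨ w = ⟨12 + 2 * a.val, by omega⟩ ∨
      w = ⟨11 + 2 * b.val, by omega⟩) → (w.val = s.val ∧ col w = 0) ∨
      (w.val = 12 + 2 * a.val ∧ col w = 1) ∨ (w.val = 11 + 2 * b.val ∧ col w = 2) := by
    rintro w (h | h | h)
    · left; rw [h]; exact ⟨rfl, c1⟩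
    · right; left; rw [h]; exact ⟨rfl, c2⟩
    · right; right; rw [h]; exact ⟨rfl, c3⟩
  have ex := e x hx
  have ey := e y hy
  have ez := e z hz
  have hxy' : x.val ≠ y.val := fun h => hxy (Fin.ext h)
  have hxz' : x.val ≠ z.val := fun h => hxz (Fin.ext h)
  have hyz' : y.val ≠ z.val := fun h => hyz (Fin.ext h)
  constructor
  · omega
  · omega

theorem sys_three (n M : ℕ) (h : 12 + 2 * M ≤ n) : ∀ e ∈ sys n M h, e.card = 3 := by
  intro e he
  unfold sys at he
  rw [Finset.mem_image] at he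
  obtain ⟨⟨s, a, b⟩, -, rfl⟩ := he
  rw [Finset.card_eq_three]
  refine ⟨_, _, _, ?_, ?_, ?_, rfl⟩
  · intro h; have := congrArg Fin.val h; simp at this; omega
  · intro h; have := congrArg Fin.val h; simp at this; omega
  · intro h; have := congrArg Fin.val h; simp at this; omega

theorem sys_card (n M : ℕ) (h : 12 + 2 * M ≤ n) : (sys n M h).card = 11 * (M * M) := by
  unfold sys
  rw [Finset.card_image_of_injective, Finset.card_univ]
  · simp
  · rintro ⟨s, a, b⟩ ⟨s', a', b'⟩ hp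
    have hp : ({⟨s.val, by omega⟩, ⟨12 + 2 * a.val, by omega⟩, ⟨11 + 2 * b.val, by omega⟩} :
      Finset (Fin n)) = {⟨s'.val, by omega⟩, ⟨12 + 2 * a'.val, by omega⟩,
        ⟨11 + 2 * b'.val, by omega⟩} := hp
    have h1 : (⟨s.val, by omega⟩ : Fin n) ∈ ({⟨s'.val, by omega⟩, ⟨12 + 2 * a'.val, by omega⟩,
        ⟨11 + 2 * b'.val, by omega⟩} : Finset (Fin n)) := by rw [← hp]; simp
    have h2 : (⟨12 + 2 * a.val, by omega⟩ : Fin n) ∈ ({⟨s'.val, by omega⟩,
      ⟨12 + 2 * a'.val, by omega⟩, ⟨11 + 2 * b'.val, by omega⟩} : Finset (Fin n)) := by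
      rw [← hp]; simp
    have h3 : (⟨11 + 2 * b.val, by omega⟩ : Fin n) ∈ ({⟨s'.val, by omega⟩,
      ⟨12 + 2 * a'.val, by omega⟩, ⟨11 + 2 * b'.val, by omega⟩} : Finset (Fin n)) := by
      rw [← hp]; simp
    simp only [Finset.mem_insert, Finset.mem_singleton, Fin.mk.injEq] at h1 h2 h3
    have e1 : s.val = s'.val := by omega
    have e2 : a.val = a'.val := by omega
    have e3 : b.val = b'.val := by omega
    rw [Prod.mk.injEq, Prod.mk.injEq]
    exact ⟨Fin.ext e1, Fin.ext e2, Fin.ext e3⟩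

/-- a hub with twelve leaves must be special -/
theorem hub (n M : ℕ) (h : 12 + 2 * M ≤ n) (φ : Fin 29 → Fin n) (w : Fin 29 → Fin 29 → Fin n)
    (hφ : Function.Injective φ)
    (h1 : ∀ u v, G.Adj u v →
      (∀ x, w u v ≠ φ x) ∧ ({φ u, φ v, w u v} : Finset (Fin n)) ∈ sys n M h)
    (h2 : ∀ u v u' v', G.Adj u v → G.Adj u' v' → w u v = w u' v' →
                (u = u' ∧ v = v') ∨ (u = v' ∧ v = u'))
    (p : Fin 29) (ℓ : Fin 12 → Fin 29) (hℓ : Function.Injective ℓ) (hadj : ∀ i, G.Adj p (ℓ i)) :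
    col (φ p) = 0 := by
  by_contra hcon
  set g : Fin 12 → Fin n := fun i => if col (φ (ℓ i)) = 0 then φ (ℓ i) else w p (ℓ i) with hg
  have hg0 : ∀ i, col (g i) = 0 := by
    intro i
    obtain ⟨h3, h4⟩ := h1 p (ℓ i) (hadj i)
    have h5 := (sys_col n M h _ _ _ h4 (fun h6 => (hadj i).ne (hφ h6)) (h3 p).symm
      (h3 (ℓ i)).symm).1
    by_cases h6 : col (φ (ℓ i)) = 0
    · simp only [hg, if_pos h6]; exact h6
    · simp only [hg, if_neg h6]
      rcases h5 with h5 | h5 | h5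
      · exact absurd h5 hcon
      · exact absurd h5 h6
      · exact h5
  have hglt : ∀ i, (g i).val < 11 := by
    intro i
    have h3 := hg0 i
    unfold col at h3
    by_contra h4
    rw [if_neg h4] at h3
    split_ifs at h3
  have hginj : Function.Injective g := by
    intro i j hij
    by_cases hi : col (φ (ℓ i)) = 0
    · by_cases hj : col (φ (ℓ j)) = 0
      · simp only [hg, if_pos hi, if_pos hj] at hij
        exact hℓ (hφ hij)
      · simp only [hg, if_pos hi, if_neg hj] at hij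
        exact absurd hij.symm ((h1 p (ℓ j) (hadj j)).1 _)
    · by_cases hj : col (φ (ℓ j)) = 0
      · simp only [hg, if_neg hi, if_pos hj] at hij
        exact absurd hij ((h1 p (ℓ i) (hadj i)).1 _)
      · simp only [hg, if_neg hi, if_neg hj] at hij
        rcases h2 p (ℓ i) p (ℓ j) (hadj i) (hadj j) hij with h5 | h5
        · exact hℓ h5.2
        · exact absurd h5.1 (hadj j).ne
  have h5 := Fintype.card_le_of_injective (fun i : Fin 12 => (⟨(g i).val, hglt i⟩ : Fin 11))
    (fun i j hij => hginj (Fin.ext (by simpa using hij)))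
  simp at h5

theorem adj3 : ∀ i : Fin 12, G.Adj 3 ⟨5 + i.val, by omega⟩ := by decide

theorem adj4 : ∀ i : Fin 12, G.Adj 4 ⟨17 + i.val, by omega⟩ := by decide

theorem sys_free (n M : ℕ) (h : 12 + 2 * M ≤ n) :
    ¬ (∃ (φ : Fin 29 → Fin n) (w : Fin 29 → Fin 29 → Fin n),
              Function.Injective φ ∧
              (∀ u v, G.Adj u v →
                (∀ x, w u v ≠ φ x) ∧ ({φ u, φ v, w u v} : Finset (Fin n)) ∈ sys n M h) ∧
              (∀ u v u' v', G.Adj u v → G.Adj u' v' → w u v = w u' v' →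
                (u = u' ∧ v = v') ∨ (u = v' ∧ v = u'))) := by
  rintro ⟨φ, w, hφ, h1, h2⟩
  have h3 : col (φ 3) = 0 := hub n M h φ w hφ h1 h2 3 (fun i => ⟨5 + i.val, by omega⟩)
    (fun i j hij => by
      have := congrArg Fin.val hij
      simp only at this
      exact Fin.ext (by omega)) adj3
  have h4 : col (φ 4) = 0 := hub n M h φ w hφ h1 h2 4 (fun i => ⟨17 + i.val, by omega⟩)
    (fun i j hij => by
      have := congrArg Fin.val hij
      simp only at this
      exact Fin.ext (by omega)) adj4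
  have key : ∀ u v, G.Adj u v → col (φ u) ≠ col (φ v) := by
    intro u v huv
    obtain ⟨h5, h6⟩ := h1 u v huv
    exact (sys_col n M h _ _ _ h6 (fun h7 => huv.ne (hφ h7)) (h5 u).symm (h5 v).symm).2
  have k01 := key 0 1 (by decide)
  have k02 := key 0 2 (by decide)
  have k12 := key 1 2 (by decide)
  have k03 := key 0 3 (by decide)
  have k13 := key 1 3 (by decide)
  have k24 := key 2 4 (by decide)
  have hc : ∀ x : Fin n, col x < 3 := by
    intro x
    unfold col
    split_ifs <;> norm_num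
  have c0 := hc (φ 0)
  have c1 := hc (φ 1)
  have c2 := hc (φ 2)
  omega

end Pool.Agent.H46R3.Exp
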