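import Mathlib

set_option autoImplicit false

/-!
The structure of a Leibniz algebra near a generic nilpotent one.
-/

namespace Pool.Agent.H46R3.Leib

open Finset

/-- The linear equations satisfied by the bracket and the action. -/
def TT {R : Type} [CommRing R] (f : Fin 4 → Fin 4 → Fin 2 → R) (lam : Fin 4 → Fin 4 → Fin 4 → R)
    (rho : Fin 4 → Fin 2 → Fin 2 → R) (i j k : Fin 4) (a : Fin 2) : R :=
  ∑ l, lam j k l * f i l a + ∑ b, f j k b * rho i a b - ∑ l, lam i j l * f l k a -
    ∑ l, lam i k l * f j l a - ∑ b, f i k b * rho j a b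

theorem struct {A : Type} [AddCommGroup A] [Module ℂ A] (B : A →ₗ[ℂ] A →ₗ[ℂ] A)
    (hL : ∀ u v w, B u (B v w) = B (B u v) w + B v (B u w))
    (e : Fin 4 → A) (s : Fin 2 → A) (x : A →ₗ[ℂ] (Fin 4 → ℂ)) (α : A →ₗ[ℂ] (Fin 2 → ℂ))
    (hdec : ∀ t, t = ∑ l, x t l • e l + ∑ a, α t a • s a)
    (hs : ∀ a w, B (s a) w = 0)
    (hnd : ∀ t, (∀ w, B t w = 0) → x t = 0)
    (hinj : ∀ (lam : Fin 4 → Fin 4 → Fin 4 → ℂ) (rho : Fin 4 → Fin 2 → Fin 2 → ℂ),
      (∀ i j l, lam i j l + lam j i l = 0) →
      (∀ i j k a, TT (fun i j a => α (B (e i) (e j)) a) lam rho i j k a = 0) →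
        (∀ i j l, lam i j l = 0) ∧ (∀ i a b, rho i a b = 0)) :
    ∀ u v w, B u (B v w) = 0 ∧ B (B u v) w = 0 := by
  have hsym : ∀ u v w, B (B u v + B v u) w = 0 := by
    intro u v w
    have h1 : B (B u v) w = B u (B v w) - B v (B u w) := eq_sub_of_add_eq (hL u v w).symm
    have h2 : B (B v u) w = B v (B u w) - B u (B v w) := eq_sub_of_add_eq (hL v u w).symm
    rw [map_add, LinearMap.add_apply, h1, h2]
    abel
  have hann : ∀ u t, (∀ w, B t w = 0) → ∀ w, B (B u t) w = 0 := by
    intro u t ht w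
    have h1 := hL u t w
    rw [ht, ht, map_zero, add_zero] at h1
    exact h1.symm
  -- expansions
  have hexr : ∀ u t, B u t = ∑ l, x t l • B u (e l) + ∑ a, α t a • B u (s a) := by
    intro u t
    conv_lhs => rw [hdec t]
    rw [map_add, map_sum, map_sum]
    simp only [map_smul]
  have hexl : ∀ t w, B t w = ∑ l, x t l • B (e l) w := by
    intro t w
    conv_lhs => rw [hdec t]
    rw [map_add, map_sum, map_sum, LinearMap.add_apply, LinearMap.sum_apply, LinearMap.sum_apply]
    simp only [map_smul, LinearMap.smul_apply, hs, smul_zero, sum_const_zero, add_zero]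
  obtain ⟨hlam, hrho⟩ := hinj (fun i j l => x (B (e i) (e j)) l)
    (fun i a b => α (B (e i) (s b)) a) (by
      intro i j l
      have h1 := hnd _ (hsym (e i) (e j))
      rw [map_add] at h1
      exact congrFun h1 l) (by
      intro i j k a
      have h1 : α (B (e i) (B (e j) (e k))) a =
          α (B (B (e i) (e j)) (e k) + B (e j) (B (e i) (e k))) a :=
        congrArg (fun t => α t a) (hL (e i) (e j) (e k))
      rw [map_add, hexr (e i) (B (e j) (e k)), hexl (B (e i) (e j)) (e k),
        hexr (e j) (B (e i) (e k))] at h1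
      simp only [map_add, map_sum, map_smul, Pi.add_apply, Finset.sum_apply, Pi.smul_apply,
        smul_eq_mul] at h1
      unfold TT
      linear_combination h1)
  have hes : ∀ i b, B (e i) (s b) = 0 := by
    intro i b
    have h1 := hnd _ (hann (e i) (s b) (hs b))
    rw [hdec (B (e i) (s b)), h1]
    simp only [Pi.zero_apply, zero_smul, sum_const_zero, zero_add]
    refine sum_eq_zero (fun a _ => ?_)
    have h2 : α (B (e i) (s b)) a = 0 := hrho i a b
    rw [h2, zero_smul]
  have hus : ∀ u b, B u (s b) = 0 := by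
    intro u b
    rw [hexl u (s b)]
    exact sum_eq_zero (fun i _ => by rw [hes, smul_zero])
  have hee : ∀ i j, B (e i) (e j) = ∑ a, α (B (e i) (e j)) a • s a := by
    intro i j
    conv_lhs => rw [hdec (B (e i) (e j))]
    have : ∑ l, x (B (e i) (e j)) l • e l = 0 :=
      sum_eq_zero (fun l _ => by
        have h2 : x (B (e i) (e j)) l = 0 := hlam i j l
        rw [h2, zero_smul])
    rw [this, zero_add]
  have hprod : ∀ u v, ∃ c : Fin 2 → ℂ, B u v = ∑ a, c a • s a := by
    intro u v
    refine ⟨fun a => ∑ i, ∑ l, x u i * x v l * α (B (e i) (e l)) a, ?_⟩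
    rw [hexl u v]
    have h1 : ∀ i, B (e i) v = ∑ l, x v l • ∑ a, α (B (e i) (e l)) a • s a := by
      intro i
      rw [hexr (e i) v]
      simp only [hes, smul_zero, sum_const_zero, add_zero]
      exact sum_congr rfl (fun l _ => by rw [← hee])
    simp only [h1, smul_sum, sum_smul, smul_smul]
    rw [sum_comm]
    have h2 : ∀ l : Fin 4, ∑ i, ∑ a, (x u i * (x v l * α (B (e i) (e l)) a)) • s a =
        ∑ a, ∑ i, (x u i * x v l * α (B (e i) (e l)) a) • s a := by
      intro l
      rw [sum_comm]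
      exact sum_congr rfl (fun a _ => sum_congr rfl (fun i _ => by rw [mul_assoc]))
    simp only [h2]
    rw [sum_comm]
    refine sum_congr rfl (fun a _ => ?_)
    rw [sum_comm]
  intro u v w
  constructor
  · obtain ⟨c, hc⟩ := hprod v w
    rw [hc, map_sum]
    exact sum_eq_zero (fun a _ => by rw [map_smul, hus, smul_zero])
  · obtain ⟨c, hc⟩ := hprod u v
    rw [hc, map_sum, LinearMap.sum_apply]
    exact sum_eq_zero (fun a _ => by rw [map_smul, LinearMap.smul_apply, hs, smul_zero])

end Pool.Agent.H46R3.Leib
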