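import Mathlib
import Pool.Agent.H46R3.LeibStruct

set_option autoImplicit false
set_option linter.unusedSimpArgs false

/-!
The linear system of the special algebra has only the zero solution.
-/

namespace Pool.Agent.H46R3.Leib

open Finset

/-- structure constants of the special algebra -/
def f0 (i j : Fin 4) (a : Fin 2) : ℂ :=
  if (i, j, a) = (0, 0, 0) ∨ (i, j, a) = (1, 1, 1) ∨ (i, j, a) = (2, 2, 0) ∨ (i, j, a) = (2, 3, 1) ∨
    (i, j, a) = (3, 1, 0) then 1 else 0

theorem f0_000 : f0 0 0 0 = 1 := by simp [f0]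
theorem f0_001 : f0 0 0 1 = 0 := by simp [f0]
theorem f0_010 : f0 0 1 0 = 0 := by simp [f0]
theorem f0_011 : f0 0 1 1 = 0 := by simp [f0]
theorem f0_020 : f0 0 2 0 = 0 := by simp [f0]
theorem f0_021 : f0 0 2 1 = 0 := by simp [f0]
theorem f0_030 : f0 0 3 0 = 0 := by simp [f0]
theorem f0_031 : f0 0 3 1 = 0 := by simp [f0]
theorem f0_100 : f0 1 0 0 = 0 := by simp [f0]
theorem f0_101 : f0 1 0 1 = 0 := by simp [f0]
theorem f0_110 : f0 1 1 0 = 0 := by simp [f0]
theorem f0_111 : f0 1 1 1 = 1 := by simp [f0]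
theorem f0_120 : f0 1 2 0 = 0 := by simp [f0]
theorem f0_121 : f0 1 2 1 = 0 := by simp [f0]
theorem f0_130 : f0 1 3 0 = 0 := by simp [f0]
theorem f0_131 : f0 1 3 1 = 0 := by simp [f0]
theorem f0_200 : f0 2 0 0 = 0 := by simp [f0]
theorem f0_201 : f0 2 0 1 = 0 := by simp [f0]
theorem f0_210 : f0 2 1 0 = 0 := by simp [f0]
theorem f0_211 : f0 2 1 1 = 0 := by simp [f0]
theorem f0_220 : f0 2 2 0 = 1 := by simp [f0]
theorem f0_221 : f0 2 2 1 = 0 := by simp [f0]
theorem f0_230 : f0 2 3 0 = 0 := by simp [f0]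
theorem f0_231 : f0 2 3 1 = 1 := by simp [f0]
theorem f0_300 : f0 3 0 0 = 0 := by simp [f0]
theorem f0_301 : f0 3 0 1 = 0 := by simp [f0]
theorem f0_310 : f0 3 1 0 = 1 := by simp [f0]
theorem f0_311 : f0 3 1 1 = 0 := by simp [f0]
theorem f0_320 : f0 3 2 0 = 0 := by simp [f0]
theorem f0_321 : f0 3 2 1 = 0 := by simp [f0]
theorem f0_330 : f0 3 3 0 = 0 := by simp [f0]
theorem f0_331 : f0 3 3 1 = 0 := by simp [f0]

theorem inj0 (lam : Fin 4 → Fin 4 → Fin 4 → ℂ) (rho : Fin 4 → Fin 2 → Fin 2 → ℂ)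
    (S : ∀ i j l, lam i j l + lam j i l = 0) (E' : ∀ i j k a, TT f0 lam rho i j k a = 0) :
    (∀ i j l, lam i j l = 0) ∧ (∀ i a b, rho i a b = 0) := by
  have E : ∀ i j k a, ((lam j k 0 * f0 i 0 a + lam j k 1 * f0 i 1 a + lam j k 2 * f0 i 2 a +
      lam j k 3 * f0 i 3 a) + (f0 j k 0 * rho i a 0 + f0 j k 1 * rho i a 1) -
      (lam i j 0 * f0 0 k a + lam i j 1 * f0 1 k a + lam i j 2 * f0 2 k a + lam i j 3 * f0 3 k a) -
      (lam i k 0 * f0 j 0 a + lam i k 1 * f0 j 1 a + lam i k 2 * f0 j 2 a + lam i k 3 * f0 j 3 a) -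
      (f0 i k 0 * rho j a 0 + f0 i k 1 * rho j a 1)) = 0 := by
    intro i j k a
    have := E' i j k a
    simp only [TT, Fin.sum_univ_four, Fin.sum_univ_two] at this
    exact this
  clear E'
  have e0101 := E 0 1 0 1
  simp only [f0_000, f0_001, f0_010, f0_011, f0_020, f0_021, f0_030, f0_031, f0_100, f0_101, f0_110, f0_111, f0_120, f0_121, f0_130, f0_131, f0_200, f0_201, f0_210, f0_211, f0_220, f0_221, f0_230, f0_231, f0_300, f0_301, f0_310, f0_311, f0_320, f0_321, f0_330, f0_331, mul_one, mul_zero, one_mul, zero_mul, add_zero, zero_add] at e0101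
  have hr110 : rho 1 1 0 = 0 := by linear_combination (-1 : ℂ) * e0101 + (-1 / 2 : ℂ) * S 0 0 1
  have e0121 := E 0 1 2 1
  simp only [f0_000, f0_001, f0_010, f0_011, f0_020, f0_021, f0_030, f0_031, f0_100, f0_101, f0_110, f0_111, f0_120, f0_121, f0_130, f0_131, f0_200, f0_201, f0_210, f0_211, f0_220, f0_221, f0_230, f0_231, f0_300, f0_301, f0_310, f0_311, f0_320, f0_321, f0_330, f0_331, mul_one, mul_zero, one_mul, zero_mul, add_zero, zero_add] at e0121
  have hl021 : lam 0 2 1 = 0 := by linear_combination (-1 : ℂ) * e0121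
  have e0130 := E 0 1 3 0
  simp only [f0_000, f0_001, f0_010, f0_011, f0_020, f0_021, f0_030, f0_031, f0_100, f0_101, f0_110, f0_111, f0_120, f0_121, f0_130, f0_131, f0_200, f0_201, f0_210, f0_211, f0_220, f0_221, f0_230, f0_231, f0_300, f0_301, f0_310, f0_311, f0_320, f0_321, f0_330, f0_331, mul_one, mul_zero, one_mul, zero_mul, add_zero, zero_add] at e0130
  have hl130 : lam 1 3 0 = 0 := by linear_combination (1 : ℂ) * e0130
  have e0201 := E 0 2 0 1
  simp only [f0_000, f0_001, f0_010, f0_011, f0_020, f0_021, f0_030, f0_031, f0_100, f0_101, f0_110, f0_111, f0_120, f0_121, f0_130, f0_131, f0_200, f0_201, f0_210, f0_211, f0_220, f0_221, f0_230, f0_231, f0_300, f0_301, f0_310, f0_311, f0_320, f0_321, f0_330, f0_331, mul_one, mul_zero, one_mul, zero_mul, add_zero, zero_add] at e0201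
  have hr210 : rho 2 1 0 = 0 := by linear_combination (-1 : ℂ) * e0201 + (-1 / 2 : ℂ) * S 0 0 3
  have e0211 := E 0 2 1 1
  simp only [f0_000, f0_001, f0_010, f0_011, f0_020, f0_021, f0_030, f0_031, f0_100, f0_101, f0_110, f0_111, f0_120, f0_121, f0_130, f0_131, f0_200, f0_201, f0_210, f0_211, f0_220, f0_221, f0_230, f0_231, f0_300, f0_301, f0_310, f0_311, f0_320, f0_321, f0_330, f0_331, mul_one, mul_zero, one_mul, zero_mul, add_zero, zero_add] at e0211
  have hl013 : lam 0 1 3 = 0 := by linear_combination (-1 : ℂ) * e0211 + (-1 : ℂ) * hl021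
  have e0301 := E 0 3 0 1
  simp only [f0_000, f0_001, f0_010, f0_011, f0_020, f0_021, f0_030, f0_031, f0_100, f0_101, f0_110, f0_111, f0_120, f0_121, f0_130, f0_131, f0_200, f0_201, f0_210, f0_211, f0_220, f0_221, f0_230, f0_231, f0_300, f0_301, f0_310, f0_311, f0_320, f0_321, f0_330, f0_331, mul_one, mul_zero, one_mul, zero_mul, add_zero, zero_add] at e0301
  have hr310 : rho 3 1 0 = 0 := by linear_combination (-1 : ℂ) * e0301
  have e0330 := E 0 3 3 0
  simp only [f0_000, f0_001, f0_010, f0_011, f0_020, f0_021, f0_030, f0_031, f0_100, f0_101, f0_110, f0_111, f0_120, f0_121, f0_130, f0_131, f0_200, f0_201, f0_210, f0_211, f0_220, f0_221, f0_230, f0_231, f0_300, f0_301, f0_310, f0_311, f0_320, f0_321, f0_330, f0_331, mul_one, mul_zero, one_mul, zero_mul, add_zero, zero_add] at e0330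
  have hl031 : lam 0 3 1 = 0 := by linear_combination (-1 : ℂ) * e0330 + (1 / 2 : ℂ) * S 3 3 0
  have e0331 := E 0 3 3 1
  simp only [f0_000, f0_001, f0_010, f0_011, f0_020, f0_021, f0_030, f0_031, f0_100, f0_101, f0_110, f0_111, f0_120, f0_121, f0_130, f0_131, f0_200, f0_201, f0_210, f0_211, f0_220, f0_221, f0_230, f0_231, f0_300, f0_301, f0_310, f0_311, f0_320, f0_321, f0_330, f0_331, mul_one, mul_zero, one_mul, zero_mul, add_zero, zero_add] at e0331
  have hl032 : lam 0 3 2 = 0 := by linear_combination (-1 : ℂ) * e0331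
  have e1221 := E 1 2 2 1
  simp only [f0_000, f0_001, f0_010, f0_011, f0_020, f0_021, f0_030, f0_031, f0_100, f0_101, f0_110, f0_111, f0_120, f0_121, f0_130, f0_131, f0_200, f0_201, f0_210, f0_211, f0_220, f0_221, f0_230, f0_231, f0_300, f0_301, f0_310, f0_311, f0_320, f0_321, f0_330, f0_331, mul_one, mul_zero, one_mul, zero_mul, add_zero, zero_add] at e1221
  have hl123 : lam 1 2 3 = 0 := by linear_combination (-1 : ℂ) * e1221 + (1 / 2 : ℂ) * S 2 2 1 + (1 : ℂ) * hr110
  have e1300 := E 1 3 0 0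
  simp only [f0_000, f0_001, f0_010, f0_011, f0_020, f0_021, f0_030, f0_031, f0_100, f0_101, f0_110, f0_111, f0_120, f0_121, f0_130, f0_131, f0_200, f0_201, f0_210, f0_211, f0_220, f0_221, f0_230, f0_231, f0_300, f0_301, f0_310, f0_311, f0_320, f0_321, f0_330, f0_331, mul_one, mul_zero, one_mul, zero_mul, add_zero, zero_add] at e1300
  have hl011 : lam 0 1 1 = 0 := by linear_combination (1 : ℂ) * e1300 + (1 : ℂ) * S 0 1 1 + (1 : ℂ) * hl130
  have e1321 := E 1 3 2 1
  simp only [f0_000, f0_001, f0_010, f0_011, f0_020, f0_021, f0_030, f0_031, f0_100, f0_101, f0_110, f0_111, f0_120, f0_121, f0_130, f0_131, f0_200, f0_201, f0_210, f0_211, f0_220, f0_221, f0_230, f0_231, f0_300, f0_301, f0_310, f0_311, f0_320, f0_321, f0_330, f0_331, mul_one, mul_zero, one_mul, zero_mul, add_zero, zero_add] at e1321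
  have hl231 : lam 2 3 1 = 0 := by linear_combination (-1 : ℂ) * e1321 + (1 : ℂ) * S 2 3 1
  have e1330 := E 1 3 3 0
  simp only [f0_000, f0_001, f0_010, f0_011, f0_020, f0_021, f0_030, f0_031, f0_100, f0_101, f0_110, f0_111, f0_120, f0_121, f0_130, f0_131, f0_200, f0_201, f0_210, f0_211, f0_220, f0_221, f0_230, f0_231, f0_300, f0_301, f0_310, f0_311, f0_320, f0_321, f0_330, f0_331, mul_one, mul_zero, one_mul, zero_mul, add_zero, zero_add] at e1330
  have hl131 : lam 1 3 1 = 0 := by linear_combination (-1 : ℂ) * e1330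
  have e1331 := E 1 3 3 1
  simp only [f0_000, f0_001, f0_010, f0_011, f0_020, f0_021, f0_030, f0_031, f0_100, f0_101, f0_110, f0_111, f0_120, f0_121, f0_130, f0_131, f0_200, f0_201, f0_210, f0_211, f0_220, f0_221, f0_230, f0_231, f0_300, f0_301, f0_310, f0_311, f0_320, f0_321, f0_330, f0_331, mul_one, mul_zero, one_mul, zero_mul, add_zero, zero_add] at e1331
  have hl132 : lam 1 3 2 = 0 := by linear_combination (-1 : ℂ) * e1331 + (1 / 2 : ℂ) * S 3 3 1
  have e2300 := E 2 3 0 0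
  simp only [f0_000, f0_001, f0_010, f0_011, f0_020, f0_021, f0_030, f0_031, f0_100, f0_101, f0_110, f0_111, f0_120, f0_121, f0_130, f0_131, f0_200, f0_201, f0_210, f0_211, f0_220, f0_221, f0_230, f0_231, f0_300, f0_301, f0_310, f0_311, f0_320, f0_321, f0_330, f0_331, mul_one, mul_zero, one_mul, zero_mul, add_zero, zero_add] at e2300
  have hl230 : lam 2 3 0 = 0 := by linear_combination (-1 : ℂ) * e2300 + (1 : ℂ) * S 0 3 2 + (-1 : ℂ) * S 0 2 1 + (-1 : ℂ) * hl032 + (1 : ℂ) * hl021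
  have e2301 := E 2 3 0 1
  simp only [f0_000, f0_001, f0_010, f0_011, f0_020, f0_021, f0_030, f0_031, f0_100, f0_101, f0_110, f0_111, f0_120, f0_121, f0_130, f0_131, f0_200, f0_201, f0_210, f0_211, f0_220, f0_221, f0_230, f0_231, f0_300, f0_301, f0_310, f0_311, f0_320, f0_321, f0_330, f0_331, mul_one, mul_zero, one_mul, zero_mul, add_zero, zero_add] at e2301
  have hl033 : lam 0 3 3 = 0 := by linear_combination (-1 : ℂ) * e2301 + (1 : ℂ) * S 0 3 3
  have e2311 := E 2 3 1 1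
  simp only [f0_000, f0_001, f0_010, f0_011, f0_020, f0_021, f0_030, f0_031, f0_100, f0_101, f0_110, f0_111, f0_120, f0_121, f0_130, f0_131, f0_200, f0_201, f0_210, f0_211, f0_220, f0_221, f0_230, f0_231, f0_300, f0_301, f0_310, f0_311, f0_320, f0_321, f0_330, f0_331, mul_one, mul_zero, one_mul, zero_mul, add_zero, zero_add] at e2311
  have hl133 : lam 1 3 3 = 0 := by linear_combination (-1 : ℂ) * e2311 + (1 : ℂ) * S 1 3 3 + (1 : ℂ) * hr210 + (-1 : ℂ) * hl231
  have e2321 := E 2 3 2 1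
  simp only [f0_000, f0_001, f0_010, f0_011, f0_020, f0_021, f0_030, f0_031, f0_100, f0_101, f0_110, f0_111, f0_120, f0_121, f0_130, f0_131, f0_200, f0_201, f0_210, f0_211, f0_220, f0_221, f0_230, f0_231, f0_300, f0_301, f0_310, f0_311, f0_320, f0_321, f0_330, f0_331, mul_one, mul_zero, one_mul, zero_mul, add_zero, zero_add] at e2321
  have hl233 : lam 2 3 3 = 0 := by linear_combination (-1 : ℂ) * e2321 + (1 : ℂ) * S 2 3 3 + (-1 : ℂ) * hr310
  have e2330 := E 2 3 3 0
  simp only [f0_000, f0_001, f0_010, f0_011, f0_020, f0_021, f0_030, f0_031, f0_100, f0_101, f0_110, f0_111, f0_120, f0_121, f0_130, f0_131, f0_200, f0_201, f0_210, f0_211, f0_220, f0_221, f0_230, f0_231, f0_300, f0_301, f0_310, f0_311, f0_320, f0_321, f0_330, f0_331, mul_one, mul_zero, one_mul, zero_mul, add_zero, zero_add] at e2330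
  have hr301 : rho 3 0 1 = 0 := by linear_combination (-1 : ℂ) * e2330 + (1 / 2 : ℂ) * S 3 3 2 + (-1 : ℂ) * hl231
  have e0110 := E 0 1 1 0
  simp only [f0_000, f0_001, f0_010, f0_011, f0_020, f0_021, f0_030, f0_031, f0_100, f0_101, f0_110, f0_111, f0_120, f0_121, f0_130, f0_131, f0_200, f0_201, f0_210, f0_211, f0_220, f0_221, f0_230, f0_231, f0_300, f0_301, f0_310, f0_311, f0_320, f0_321, f0_330, f0_331, mul_one, mul_zero, one_mul, zero_mul, add_zero, zero_add] at e0110
  have hr001 : rho 0 0 1 = 0 := by linear_combination (1 : ℂ) * e0110 + (-1 / 2 : ℂ) * S 1 1 0 + (1 : ℂ) * hl013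
  have e0111 := E 0 1 1 1
  simp only [f0_000, f0_001, f0_010, f0_011, f0_020, f0_021, f0_030, f0_031, f0_100, f0_101, f0_110, f0_111, f0_120, f0_121, f0_130, f0_131, f0_200, f0_201, f0_210, f0_211, f0_220, f0_221, f0_230, f0_231, f0_300, f0_301, f0_310, f0_311, f0_320, f0_321, f0_330, f0_331, mul_one, mul_zero, one_mul, zero_mul, add_zero, zero_add] at e0111
  have hr011 : rho 0 1 1 = 0 := by linear_combination (1 : ℂ) * e0111 + (2 : ℂ) * hl011
  have e0131 := E 0 1 3 1
  simp only [f0_000, f0_001, f0_010, f0_011, f0_020, f0_021, f0_030, f0_031, f0_100, f0_101, f0_110, f0_111, f0_120, f0_121, f0_130, f0_131, f0_200, f0_201, f0_210, f0_211, f0_220, f0_221, f0_230, f0_231, f0_300, f0_301, f0_310, f0_311, f0_320, f0_321, f0_330, f0_331, mul_one, mul_zero, one_mul, zero_mul, add_zero, zero_add] at e0131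
  have hl012 : lam 0 1 2 = 0 := by linear_combination (-1 : ℂ) * e0131 + (-1 : ℂ) * hl031
  have e0231 := E 0 2 3 1
  simp only [f0_000, f0_001, f0_010, f0_011, f0_020, f0_021, f0_030, f0_031, f0_100, f0_101, f0_110, f0_111, f0_120, f0_121, f0_130, f0_131, f0_200, f0_201, f0_210, f0_211, f0_220, f0_221, f0_230, f0_231, f0_300, f0_301, f0_310, f0_311, f0_320, f0_321, f0_330, f0_331, mul_one, mul_zero, one_mul, zero_mul, add_zero, zero_add] at e0231
  have hl022 : lam 0 2 2 = 0 := by linear_combination (-1 : ℂ) * e0231 + (1 : ℂ) * hr011 + (-1 : ℂ) * hl033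
  have e0310 := E 0 3 1 0
  simp only [f0_000, f0_001, f0_010, f0_011, f0_020, f0_021, f0_030, f0_031, f0_100, f0_101, f0_110, f0_111, f0_120, f0_121, f0_130, f0_131, f0_200, f0_201, f0_210, f0_211, f0_220, f0_221, f0_230, f0_231, f0_300, f0_301, f0_310, f0_311, f0_320, f0_321, f0_330, f0_331, mul_one, mul_zero, one_mul, zero_mul, add_zero, zero_add] at e0310
  have hr000 : rho 0 0 0 = 0 := by linear_combination (1 : ℂ) * e0310 + (-1 : ℂ) * S 1 3 0 + (1 : ℂ) * hl130 + (1 : ℂ) * hl033 + (1 : ℂ) * hl011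
  have e0311 := E 0 3 1 1
  simp only [f0_000, f0_001, f0_010, f0_011, f0_020, f0_021, f0_030, f0_031, f0_100, f0_101, f0_110, f0_111, f0_120, f0_121, f0_130, f0_131, f0_200, f0_201, f0_210, f0_211, f0_220, f0_221, f0_230, f0_231, f0_300, f0_301, f0_310, f0_311, f0_320, f0_321, f0_330, f0_331, mul_one, mul_zero, one_mul, zero_mul, add_zero, zero_add] at e0311
  have hr010 : rho 0 1 0 = 0 := by linear_combination (1 : ℂ) * e0311 + (1 : ℂ) * hl031
  have e1200 := E 1 2 0 0
  simp only [f0_000, f0_001, f0_010, f0_011, f0_020, f0_021, f0_030, f0_031, f0_100, f0_101, f0_110, f0_111, f0_120, f0_121, f0_130, f0_131, f0_200, f0_201, f0_210, f0_211, f0_220, f0_221, f0_230, f0_231, f0_300, f0_301, f0_310, f0_311, f0_320, f0_321, f0_330, f0_331, mul_one, mul_zero, one_mul, zero_mul, add_zero, zero_add] at e1200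
  have hl120 : lam 1 2 0 = 0 := by linear_combination (-1 : ℂ) * e1200 + (-1 : ℂ) * S 0 1 2 + (1 : ℂ) * hl012
  have e1210 := E 1 2 1 0
  simp only [f0_000, f0_001, f0_010, f0_011, f0_020, f0_021, f0_030, f0_031, f0_100, f0_101, f0_110, f0_111, f0_120, f0_121, f0_130, f0_131, f0_200, f0_201, f0_210, f0_211, f0_220, f0_221, f0_230, f0_231, f0_300, f0_301, f0_310, f0_311, f0_320, f0_321, f0_330, f0_331, mul_one, mul_zero, one_mul, zero_mul, add_zero, zero_add] at e1210
  have hr201 : rho 2 0 1 = 0 := by linear_combination (-1 : ℂ) * e1210 + (-1 / 2 : ℂ) * S 1 1 2 + (-1 : ℂ) * hl123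
  have e1230 := E 1 2 3 0
  simp only [f0_000, f0_001, f0_010, f0_011, f0_020, f0_021, f0_030, f0_031, f0_100, f0_101, f0_110, f0_111, f0_120, f0_121, f0_130, f0_131, f0_200, f0_201, f0_210, f0_211, f0_220, f0_221, f0_230, f0_231, f0_300, f0_301, f0_310, f0_311, f0_320, f0_321, f0_330, f0_331, mul_one, mul_zero, one_mul, zero_mul, add_zero, zero_add] at e1230
  have hr101 : rho 1 0 1 = 0 := by linear_combination (1 : ℂ) * e1230 + (1 : ℂ) * hl132
  have e1310 := E 1 3 1 0
  simp only [f0_000, f0_001, f0_010, f0_011, f0_020, f0_021, f0_030, f0_031, f0_100, f0_101, f0_110, f0_111, f0_120, f0_121, f0_130, f0_131, f0_200, f0_201, f0_210, f0_211, f0_220, f0_221, f0_230, f0_231, f0_300, f0_301, f0_310, f0_311, f0_320, f0_321, f0_330, f0_331, mul_one, mul_zero, one_mul, zero_mul, add_zero, zero_add] at e1310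
  have hr100 : rho 1 0 0 = 0 := by linear_combination (1 : ℂ) * e1310 + (1 / 2 : ℂ) * S 1 1 1 + (1 : ℂ) * hl133 + (1 : ℂ) * hr301
  have e1311 := E 1 3 1 1
  simp only [f0_000, f0_001, f0_010, f0_011, f0_020, f0_021, f0_030, f0_031, f0_100, f0_101, f0_110, f0_111, f0_120, f0_121, f0_130, f0_131, f0_200, f0_201, f0_210, f0_211, f0_220, f0_221, f0_230, f0_231, f0_300, f0_301, f0_310, f0_311, f0_320, f0_321, f0_330, f0_331, mul_one, mul_zero, one_mul, zero_mul, add_zero, zero_add] at e1311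
  have hr311 : rho 3 1 1 = 0 := by linear_combination (-1 : ℂ) * e1311 + (1 : ℂ) * S 1 3 1 + (-2 : ℂ) * hl131 + (1 : ℂ) * hr110
  have e1320 := E 1 3 2 0
  simp only [f0_000, f0_001, f0_010, f0_011, f0_020, f0_021, f0_030, f0_031, f0_100, f0_101, f0_110, f0_111, f0_120, f0_121, f0_130, f0_131, f0_200, f0_201, f0_210, f0_211, f0_220, f0_221, f0_230, f0_231, f0_300, f0_301, f0_310, f0_311, f0_320, f0_321, f0_330, f0_331, mul_one, mul_zero, one_mul, zero_mul, add_zero, zero_add] at e1320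
  have hl121 : lam 1 2 1 = 0 := by linear_combination (-1 : ℂ) * e1320 + (-1 : ℂ) * hl132
  have e2310 := E 2 3 1 0
  simp only [f0_000, f0_001, f0_010, f0_011, f0_020, f0_021, f0_030, f0_031, f0_100, f0_101, f0_110, f0_111, f0_120, f0_121, f0_130, f0_131, f0_200, f0_201, f0_210, f0_211, f0_220, f0_221, f0_230, f0_231, f0_300, f0_301, f0_310, f0_311, f0_320, f0_321, f0_330, f0_331, mul_one, mul_zero, one_mul, zero_mul, add_zero, zero_add] at e2310
  have hr200 : rho 2 0 0 = 0 := by linear_combination (1 : ℂ) * e2310 + (-1 : ℂ) * S 1 3 2 + (1 : ℂ) * S 1 2 1 + (1 : ℂ) * hl132 + (1 : ℂ) * hl233 + (-1 : ℂ) * hl121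
  have e2331 := E 2 3 3 1
  simp only [f0_000, f0_001, f0_010, f0_011, f0_020, f0_021, f0_030, f0_031, f0_100, f0_101, f0_110, f0_111, f0_120, f0_121, f0_130, f0_131, f0_200, f0_201, f0_210, f0_211, f0_220, f0_221, f0_230, f0_231, f0_300, f0_301, f0_310, f0_311, f0_320, f0_321, f0_330, f0_331, mul_one, mul_zero, one_mul, zero_mul, add_zero, zero_add] at e2331
  have hl232 : lam 2 3 2 = 0 := by linear_combination (-1 : ℂ) * e2331 + (1 / 2 : ℂ) * S 3 3 3 + (-1 : ℂ) * hr311
  have e0100 := E 0 1 0 0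
  simp only [f0_000, f0_001, f0_010, f0_011, f0_020, f0_021, f0_030, f0_031, f0_100, f0_101, f0_110, f0_111, f0_120, f0_121, f0_130, f0_131, f0_200, f0_201, f0_210, f0_211, f0_220, f0_221, f0_230, f0_231, f0_300, f0_301, f0_310, f0_311, f0_320, f0_321, f0_330, f0_331, mul_one, mul_zero, one_mul, zero_mul, add_zero, zero_add] at e0100
  have hl010 : lam 0 1 0 = 0 := by linear_combination (-1 / 2 : ℂ) * e0100 + (1 / 2 : ℂ) * S 0 1 0 + (-1 / 2 : ℂ) * hr100
  have e0200 := E 0 2 0 0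
  simp only [f0_000, f0_001, f0_010, f0_011, f0_020, f0_021, f0_030, f0_031, f0_100, f0_101, f0_110, f0_111, f0_120, f0_121, f0_130, f0_131, f0_200, f0_201, f0_210, f0_211, f0_220, f0_221, f0_230, f0_231, f0_300, f0_301, f0_310, f0_311, f0_320, f0_321, f0_330, f0_331, mul_one, mul_zero, one_mul, zero_mul, add_zero, zero_add] at e0200
  have hl020 : lam 0 2 0 = 0 := by linear_combination (-1 / 2 : ℂ) * e0200 + (1 / 2 : ℂ) * S 0 2 0 + (-1 / 4 : ℂ) * S 0 0 2 + (-1 / 2 : ℂ) * hr200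
  have e0210 := E 0 2 1 0
  simp only [f0_000, f0_001, f0_010, f0_011, f0_020, f0_021, f0_030, f0_031, f0_100, f0_101, f0_110, f0_111, f0_120, f0_121, f0_130, f0_131, f0_200, f0_201, f0_210, f0_211, f0_220, f0_221, f0_230, f0_231, f0_300, f0_301, f0_310, f0_311, f0_320, f0_321, f0_330, f0_331, mul_one, mul_zero, one_mul, zero_mul, add_zero, zero_add] at e0210
  have hl023 : lam 0 2 3 = 0 := by linear_combination (-1 : ℂ) * e0210 + (1 : ℂ) * S 1 2 0 + (-1 : ℂ) * hl120 + (-1 : ℂ) * hl012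
  have e1211 := E 1 2 1 1
  simp only [f0_000, f0_001, f0_010, f0_011, f0_020, f0_021, f0_030, f0_031, f0_100, f0_101, f0_110, f0_111, f0_120, f0_121, f0_130, f0_131, f0_200, f0_201, f0_210, f0_211, f0_220, f0_221, f0_230, f0_231, f0_300, f0_301, f0_310, f0_311, f0_320, f0_321, f0_330, f0_331, mul_one, mul_zero, one_mul, zero_mul, add_zero, zero_add] at e1211
  have hr211 : rho 2 1 1 = 0 := by linear_combination (-1 : ℂ) * e1211 + (1 : ℂ) * S 1 2 1 + (-1 / 2 : ℂ) * S 1 1 3 + (-2 : ℂ) * hl121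
  have e1220 := E 1 2 2 0
  simp only [f0_000, f0_001, f0_010, f0_011, f0_020, f0_021, f0_030, f0_031, f0_100, f0_101, f0_110, f0_111, f0_120, f0_121, f0_130, f0_131, f0_200, f0_201, f0_210, f0_211, f0_220, f0_221, f0_230, f0_231, f0_300, f0_301, f0_310, f0_311, f0_320, f0_321, f0_330, f0_331, mul_one, mul_zero, one_mul, zero_mul, add_zero, zero_add] at e1220
  have hl122 : lam 1 2 2 = 0 := by linear_combination (-1 / 2 : ℂ) * e1220 + (1 / 2 : ℂ) * hr100
  have e1231 := E 1 2 3 1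
  simp only [f0_000, f0_001, f0_010, f0_011, f0_020, f0_021, f0_030, f0_031, f0_100, f0_101, f0_110, f0_111, f0_120, f0_121, f0_130, f0_131, f0_200, f0_201, f0_210, f0_211, f0_220, f0_221, f0_230, f0_231, f0_300, f0_301, f0_310, f0_311, f0_320, f0_321, f0_330, f0_331, mul_one, mul_zero, one_mul, zero_mul, add_zero, zero_add] at e1231
  have hr111 : rho 1 1 1 = 0 := by linear_combination (1 : ℂ) * e1231 + (-1 : ℂ) * hl231 + (1 : ℂ) * hl122 + (1 : ℂ) * hl133
  have e2320 := E 2 3 2 0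
  simp only [f0_000, f0_001, f0_010, f0_011, f0_020, f0_021, f0_030, f0_031, f0_100, f0_101, f0_110, f0_111, f0_120, f0_121, f0_130, f0_131, f0_200, f0_201, f0_210, f0_211, f0_220, f0_221, f0_230, f0_231, f0_300, f0_301, f0_310, f0_311, f0_320, f0_321, f0_330, f0_331, mul_one, mul_zero, one_mul, zero_mul, add_zero, zero_add] at e2320
  have hr300 : rho 3 0 0 = 0 := by linear_combination (-1 : ℂ) * e2320 + (1 : ℂ) * S 2 3 2 + (-1 / 2 : ℂ) * S 2 2 1 + (-2 : ℂ) * hl232
  have e0300 := E 0 3 0 0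
  simp only [f0_000, f0_001, f0_010, f0_011, f0_020, f0_021, f0_030, f0_031, f0_100, f0_101, f0_110, f0_111, f0_120, f0_121, f0_130, f0_131, f0_200, f0_201, f0_210, f0_211, f0_220, f0_221, f0_230, f0_231, f0_300, f0_301, f0_310, f0_311, f0_320, f0_321, f0_330, f0_331, mul_one, mul_zero, one_mul, zero_mul, add_zero, zero_add] at e0300
  have hl030 : lam 0 3 0 = 0 := by linear_combination (-1 / 2 : ℂ) * e0300 + (1 / 2 : ℂ) * S 0 3 0 + (-1 / 4 : ℂ) * S 0 0 1 + (-1 / 2 : ℂ) * hr300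
  have hlt : ∀ i j l, i < j → lam i j l = 0 := by
    intro i j l hij
    fin_cases i <;> fin_cases j <;> first | exact absurd hij (by decide) | (fin_cases l <;> assumption)
  constructor
  · intro i j l
    rcases lt_trichotomy i j with h | h | h
    · exact hlt i j l h
    · subst h
      linear_combination (1 / 2 : ℂ) * S i i l
    · linear_combination S i j l - hlt j i l h
  · intro i a b
    fin_cases i <;> fin_cases a <;> fin_cases b <;> assumption

end Pool.Agent.H46R3.Leib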