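import Mathlib

set_option autoImplicit false

/-!
Openness of injectivity and irreducible closed sets in affine space.
-/

namespace Pool.Agent.H46R3.Leib

open Finset

/-- Injectivity of a linear map depending polynomially on parameters is an open condition. -/
theorem open_inj {σ I J : Type} [Fintype I] [Fintype J] [DecidableEq I] [DecidableEq J]
    (T : (σ → ℂ) → (J → ℂ) →ₗ[ℂ] (I → ℂ))
    (Gen : I → J → MvPolynomial σ ℂ)
    (hT : ∀ c i j, MvPolynomial.eval c (Gen i j) = T c (Pi.single j 1) i)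
    (c0 : σ → ℂ) (h0 : ∀ v, T c0 v = 0 → v = 0) :
    ∃ P : MvPolynomial σ ℂ, MvPolynomial.eval c0 P ≠ 0 ∧
      ∀ c, MvPolynomial.eval c P ≠ 0 → ∀ v, T c v = 0 → v = 0 := by
  classical
  obtain ⟨G, hG⟩ := LinearMap.exists_leftInverse_of_injective (T c0)
    (LinearMap.ker_eq_bot'.2 h0)
  let Gm : Matrix J I ℂ := LinearMap.toMatrix' G
  let Mc : (σ → ℂ) → Matrix I J ℂ := fun c => LinearMap.toMatrix' (T c)
  have hMc : ∀ c i j, Mc c i j = MvPolynomial.eval c (Gen i j) := by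
    intro c i j
    rw [hT]
    show LinearMap.toMatrix' (T c) i j = _
    rw [LinearMap.toMatrix'_apply]
  let A1 : Matrix J I (MvPolynomial σ ℂ) := Gm.map (MvPolynomial.C)
  let A2 : Matrix I J (MvPolynomial σ ℂ) := Matrix.of Gen
  let Mx : Matrix J J (MvPolynomial σ ℂ) := A1 * A2
  have hMx : ∀ c, (Mx.map (MvPolynomial.eval c)) = Gm * Mc c := by
    intro c
    have e1 : A1.map (MvPolynomial.eval c) = Gm := by
      ext i j
      simp [A1]
    have e2 : A2.map (MvPolynomial.eval c) = Mc c := by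
      ext i j
      rw [Matrix.map_apply, hMc]
      rfl
    rw [← e1, ← e2]
    exact Matrix.map_mul
  have hdet : ∀ c, MvPolynomial.eval c Mx.det = (Gm * Mc c).det := by
    intro c
    rw [RingHom.map_det, ← hMx]
    rfl
  refine ⟨Mx.det, ?_, fun c hc v hv => ?_⟩
  · rw [hdet]
    have : Gm * Mc c0 = 1 := by
      show LinearMap.toMatrix' G * LinearMap.toMatrix' (T c0) = 1
      rw [← LinearMap.toMatrix'_comp, hG, LinearMap.toMatrix'_id]
    rw [this, Matrix.det_one]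
    exact one_ne_zero
  · rw [hdet] at hc
    refine Matrix.eq_zero_of_mulVec_eq_zero hc ?_
    rw [← Matrix.mulVec_mulVec]
    have : (Mc c).mulVec v = T c v := by
      show (LinearMap.toMatrix' (T c)).mulVec v = T c v
      rw [← Matrix.toLin'_apply, Matrix.toLin'_toMatrix']
    rw [this, hv, Matrix.mulVec_zero]

/-- zero loci -/
def Cl {σ : Type} (Z : Set (σ → ℂ)) : Prop :=
  ∃ S : Set (MvPolynomial σ ℂ), Z = {c | ∀ p ∈ S, MvPolynomial.eval c p = 0}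

/-- irreducible closed sets -/
def Irr {σ : Type} (Z : Set (σ → ℂ)) : Prop :=
  Cl Z ∧ Z.Nonempty ∧ ∀ A B : Set (σ → ℂ), Cl A → Cl B → Z ⊆ A ∪ B → (Z ⊆ A ∨ Z ⊆ B)

/-- the closure of a set -/
def clos {σ : Type} (U : Set (σ → ℂ)) : Set (σ → ℂ) :=
  {c | ∀ p : MvPolynomial σ ℂ, (∀ d ∈ U, MvPolynomial.eval d p = 0) → MvPolynomial.eval c p = 0}

theorem clos_cl {σ : Type} (U : Set (σ → ℂ)) : Cl (clos U) :=
  ⟨{p | ∀ d ∈ U, MvPolynomial.eval d p = 0}, rfl⟩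

theorem subset_clos {σ : Type} (U : Set (σ → ℂ)) : U ⊆ clos U := fun c hc _ hp => hp c hc

theorem clos_min {σ : Type} {U A : Set (σ → ℂ)} (hA : Cl A) (h : U ⊆ A) : clos U ⊆ A := by
  obtain ⟨S, rfl⟩ := hA
  intro c hc p hp
  exact hc p (fun d hd => h hd p hp)

theorem single_irr {σ : Type} (c0 : σ → ℂ) : Irr ({c0} : Set (σ → ℂ)) := by
  refine ⟨⟨Set.range (fun i => MvPolynomial.X i - MvPolynomial.C (c0 i)), ?_⟩, ⟨c0, rfl⟩, ?_⟩
  · ext c
    constructor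
    · rintro rfl p ⟨i, rfl⟩
      simp
    · intro h
      show c = c0
      funext i
      have := h _ ⟨i, rfl⟩
      simpa [sub_eq_zero] using this
  · intro A B _ _ h
    rcases h rfl with h | h
    · left; rintro _ rfl; exact h
    · right; rintro _ rfl; exact h

/-- Every point of a closed set lies in an irreducible component. -/
theorem exists_component {σ : Type} (Lb : Set (σ → ℂ)) (hL : Cl Lb) (c0 : σ → ℂ) (h0 : c0 ∈ Lb) :
    ∃ Z : Set (σ → ℂ), Irr Z ∧ Z ⊆ Lb ∧ c0 ∈ Z ∧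
      ∀ Z' : Set (σ → ℂ), Irr Z' → Z ⊆ Z' → Z' ⊆ Lb → Z' = Z := by
  have hzorn : ∀ 𝒞 ⊆ {Z : Set (σ → ℂ) | Irr Z ∧ Z ⊆ Lb}, IsChain (· ⊆ ·) 𝒞 → 𝒞.Nonempty →
      ∃ ub ∈ {Z : Set (σ → ℂ) | Irr Z ∧ Z ⊆ Lb}, ∀ s ∈ 𝒞, s ⊆ ub := by
    intro 𝒞 h𝒞 hch hne
    refine ⟨clos (⋃₀ 𝒞), ⟨⟨clos_cl _, ?_, ?_⟩, ?_⟩, ?_⟩
    · obtain ⟨Z, hZ⟩ := hne
      obtain ⟨c, hc⟩ := (h𝒞 hZ).1.2.1
      exact ⟨c, subset_clos _ ⟨Z, hZ, hc⟩⟩
    · intro A B hA hB hAB
      by_cases hall : ∀ Z ∈ 𝒞, Z ⊆ A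
      · left
        refine clos_min hA ?_
        rintro c ⟨Z, hZ, hc⟩
        exact hall Z hZ hc
      · right
        push Not at hall
        obtain ⟨Z0, hZ0, hZ0A⟩ := hall
        refine clos_min hB ?_
        rintro c ⟨Z, hZ, hc⟩
        have hsub : ∀ Y ∈ 𝒞, Y ⊆ A ∪ B := fun Y hY =>
          (Set.subset_sUnion_of_mem hY).trans ((subset_clos _).trans hAB)
        have hZ0B : Z0 ⊆ B := by
          rcases (h𝒞 hZ0).1.2.2 A B hA hB (hsub Z0 hZ0) with h | h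
          · exact absurd h hZ0A
          · exact h
        rcases hch.total hZ hZ0 with h | h
        · exact hZ0B (h hc)
        · rcases (h𝒞 hZ).1.2.2 A B hA hB (hsub Z hZ) with h' | h'
          · exact absurd (h.trans h') hZ0A
          · exact h' hc
    · exact clos_min hL (Set.sUnion_subset (fun Z hZ => (h𝒞 hZ).2))
    · intro Z hZ
      exact (Set.subset_sUnion_of_mem hZ).trans (subset_clos _)
  obtain ⟨Z, hcZ, hZ⟩ := zorn_subset_nonempty {Z : Set (σ → ℂ) | Irr Z ∧ Z ⊆ Lb} hzorn {c0}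
    ⟨single_irr c0, Set.singleton_subset_iff.2 h0⟩
  refine ⟨Z, hZ.prop.1, hZ.prop.2, hcZ rfl, fun Z' h1 h2 h3 => ?_⟩
  exact Set.Subset.antisymm (hZ.le_of_ge ⟨h1, h3⟩ h2) h2

end Pool.Agent.H46R3.Leib
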