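import Mathlib
import Pool.Agent.H46R3.LeibOpen
import Pool.Agent.H46R3.LeibInj

set_option autoImplicit false

/-!
Six-dimensional Leibniz algebras near a special nilpotent one are nilpotent.
-/

namespace Pool.Agent.H46R3.Leib

open Finset

/-- indices of structure constants -/
abbrev Ix : Type := Fin 6 × Fin 6 × Fin 6

/-- the product -/
def mu {R : Type} [CommRing R] (c : Ix → R) (u v : Fin 6 → R) : Fin 6 → R :=
  fun k => ∑ i : Fin 6, ∑ j : Fin 6, u i * v j * c (i, j, k)

theorem mu_map {R S : Type} [CommRing R] [CommRing S] (φ : R →+* S) (c : Ix → R)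
    (u v : Fin 6 → R) (k : Fin 6) :
    φ (mu c u v k) = mu (fun p => φ (c p)) (fun i => φ (u i)) (fun i => φ (v i)) k := by
  unfold mu
  rw [map_sum]
  refine sum_congr rfl (fun i _ => ?_)
  rw [map_sum]
  refine sum_congr rfl (fun j _ => ?_)
  rw [map_mul, map_mul]

/-- the product as a bilinear map -/
noncomputable def muL (c : Ix → ℂ) : (Fin 6 → ℂ) →ₗ[ℂ] (Fin 6 → ℂ) →ₗ[ℂ] (Fin 6 → ℂ) :=
  LinearMap.mk₂ ℂ (mu c)
    (by
      intro u u' v
      funext k
      simp only [mu, Pi.add_apply, add_mul, sum_add_distrib])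
    (by
      intro a u v
      funext k
      simp only [mu, Pi.smul_apply, smul_eq_mul, mul_sum, mul_assoc])
    (by
      intro u v v'
      funext k
      simp only [mu, Pi.add_apply, mul_add, add_mul, sum_add_distrib])
    (by
      intro a u v
      funext k
      simp only [mu, Pi.smul_apply, smul_eq_mul, mul_sum]
      refine sum_congr rfl (fun i _ => sum_congr rfl (fun j _ => ?_))
      ring)

theorem muL_apply (c : Ix → ℂ) (u v : Fin 6 → ℂ) : muL c u v = mu c u v := rfl

theorem mu_single {R : Type} [CommRing R] (c : Ix → R) (i j k : Fin 6) :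
    mu c (Pi.single i 1) (Pi.single j 1) k = c (i, j, k) := by
  unfold mu
  rw [sum_eq_single i, sum_eq_single j]
  · simp
  · intro b _ hb
    rw [Pi.single_eq_of_ne hb]
    simp
  · intro h; exact absurd (mem_univ _) h
  · intro b _ hb
    rw [Pi.single_eq_of_ne hb]
    simp
  · intro h; exact absurd (mem_univ _) h

/-- the first four indices -/
def io (l : Fin 4) : Fin 6 := Fin.castLE (by norm_num) l

/-- the left Leibniz identity -/
def IsLeib (c : Ix → ℂ) : Prop :=
  ∀ u v w : Fin 6 → ℂ, mu c u (mu c v w) = mu c (mu c u v) w + mu c v (mu c u w)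

/-- all threefold products vanish -/
def Nil2 (c : Ix → ℂ) : Prop :=
  ∀ u v w : Fin 6 → ℂ, mu c u (mu c v w) = 0 ∧ mu c (mu c u v) w = 0

/-- the determinant of the two squares -/
def dd {R : Type} [CommRing R] (c : Ix → R) : R :=
  c (0, 0, 4) * c (1, 1, 5) - c (0, 0, 5) * c (1, 1, 4)

/-- scaled coordinates with respect to the two squares -/
def sc {R : Type} [CommRing R] (c : Ix → R) (t : Fin 6 → R) : Fin 2 → R :=
  ![t 4 * c (1, 1, 5) - t 5 * c (1, 1, 4), c (0, 0, 4) * t 5 - c (0, 0, 5) * t 4]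

/-- the two squares -/
def sq (c : Ix → ℂ) : Fin 2 → Fin 6 → ℂ := ![fun k => c (0, 0, k), fun k => c (1, 1, k)]

noncomputable def al (c : Ix → ℂ) : (Fin 6 → ℂ) →ₗ[ℂ] (Fin 2 → ℂ) where
  toFun t a := sc c t a / dd c
  map_add' t t' := by
    funext a
    fin_cases a
    · simp [sc]; ring
    · simp [sc]; ring
  map_smul' r t := by
    funext a
    fin_cases a
    · simp [sc]; ring
    · simp [sc]; ring

noncomputable def xx (c : Ix → ℂ) : (Fin 6 → ℂ) →ₗ[ℂ] (Fin 4 → ℂ) where
  toFun t l := t (io l) - ∑ a, al c t a * sq c a (io l)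
  map_add' t t' := by
    funext l
    simp only [map_add, Pi.add_apply, add_mul, sum_add_distrib]
    ring
  map_smul' r t := by
    funext l
    simp only [map_smul, Pi.smul_apply, smul_eq_mul, RingHom.id_apply, mul_sub, mul_sum, mul_assoc]

/-- the basis vectors -/
def ev (l : Fin 4) : Fin 6 → ℂ := Pi.single (io l) 1

theorem decomp (c : Ix → ℂ) (hd : dd c ≠ 0) (t : Fin 6 → ℂ) :
    t = ∑ l, xx c t l • ev l + ∑ a, al c t a • sq c a := by
  have h4 : sc c t 0 / dd c * c (0, 0, 4) + sc c t 1 / dd c * c (1, 1, 4) = t 4 := by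
    have : sc c t 0 * c (0, 0, 4) + sc c t 1 * c (1, 1, 4) = t 4 * dd c := by
      simp [sc, dd]; ring
    field_simp
    linear_combination this
  have h5 : sc c t 0 / dd c * c (0, 0, 5) + sc c t 1 / dd c * c (1, 1, 5) = t 5 := by
    have : sc c t 0 * c (0, 0, 5) + sc c t 1 * c (1, 1, 5) = t 5 * dd c := by
      simp [sc, dd]; ring
    field_simp
    linear_combination this
  funext k
  have hx : ∀ l, xx c t l = t (io l) - (al c t 0 * c (0, 0, io l) + al c t 1 * c (1, 1, io l)) := by
    intro l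
    show t (io l) - ∑ a, al c t a * sq c a (io l) = _
    rw [Fin.sum_univ_two]
    rfl
  have hev : ∀ l : Fin 4, ev l k = if k = io l then 1 else 0 := by
    intro l
    unfold ev
    rw [Pi.single_apply]
  rw [Pi.add_apply, Finset.sum_apply, Finset.sum_apply, Fin.sum_univ_two, Fin.sum_univ_four]
  simp only [Pi.smul_apply, smul_eq_mul, hev, hx]
  have hs0 : sq c 0 k = c (0, 0, k) := rfl
  have hs1 : sq c 1 k = c (1, 1, k) := rfl
  rw [hs0, hs1]
  have ha0 : al c t 0 = sc c t 0 / dd c := rfl
  have ha1 : al c t 1 = sc c t 1 / dd c := rfl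
  have i0 : io 0 = 0 := rfl
  have i1 : io 1 = 1 := rfl
  have i2 : io 2 = 2 := rfl
  have i3 : io 3 = 3 := rfl
  rw [i0, i1, i2, i3, ha0, ha1]
  fin_cases k
  · simp
  · simp
  · simp
  · simp
  · simpa using h4.symm
  · simpa using h5.symm

end Pool.Agent.H46R3.Leib
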