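import Mathlib
import Pool.Agent.H46R3.LeibMain

set_option autoImplicit false

/-!
The open conditions and the irreducible component.
-/

namespace Pool.Agent.H46R3.Leib

open Finset

/-- unknowns of the linear system -/
abbrev JJ : Type := (Fin 4 × Fin 4 × Fin 4) ⊕ (Fin 4 × Fin 2 × Fin 2)

/-- equations of the linear system -/
abbrev II : Type := (Fin 4 × Fin 4 × Fin 4 × Fin 2) ⊕ (Fin 4 × Fin 4 × Fin 4)

/-- numerators of the structure constants -/
def FF {R : Type} [CommRing R] (c : Ix → R) (i j : Fin 4) (a : Fin 2) : R :=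
  sc c (fun k => c (io i, io j, k)) a

theorem sc_map {R S : Type} [CommRing R] [CommRing S] (φ : R →+* S) (c : Ix → R)
    (t : Fin 6 → R) (a : Fin 2) :
    φ (sc c t a) = sc (fun p => φ (c p)) (fun k => φ (t k)) a := by
  fin_cases a <;> simp [sc]

theorem FF_map {R S : Type} [CommRing R] [CommRing S] (φ : R →+* S) (c : Ix → R) (i j : Fin 4)
    (a : Fin 2) : φ (FF c i j a) = FF (fun p => φ (c p)) i j a := sc_map φ c _ a

theorem TT_map {R S : Type} [CommRing R] [CommRing S] (φ : R →+* S)
    (f : Fin 4 → Fin 4 → Fin 2 → R) (lam : Fin 4 → Fin 4 → Fin 4 → R)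
    (rho : Fin 4 → Fin 2 → Fin 2 → R) (i j k : Fin 4) (a : Fin 2) :
    φ (TT f lam rho i j k a) = TT (fun i j a => φ (f i j a)) (fun i j l => φ (lam i j l))
      (fun i a b => φ (rho i a b)) i j k a := by
  simp only [TT, map_sub, map_add, map_sum, map_mul]

theorem TT_smul {R : Type} [CommRing R] (r : R)
    (f : Fin 4 → Fin 4 → Fin 2 → R) (lam : Fin 4 → Fin 4 → Fin 4 → R)
    (rho : Fin 4 → Fin 2 → Fin 2 → R) (i j k : Fin 4) (a : Fin 2) :
    TT (fun i j a => r * f i j a) lam rho i j k a = r * TT f lam rho i j k a := by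
  simp only [TT, Fin.sum_univ_four, Fin.sum_univ_two]
  ring

/-- the linear system -/
def gen3 {R : Type} [CommRing R] (c : Ix → R) (v : JJ → R) : II → R :=
  Sum.elim (fun p => TT (FF c) (fun i j l => v (Sum.inl (i, j, l)))
    (fun i a b => v (Sum.inr (i, a, b))) p.1 p.2.1 p.2.2.1 p.2.2.2)
    (fun p => v (Sum.inl (p.1, p.2.1, p.2.2)) + v (Sum.inl (p.2.1, p.1, p.2.2)))

theorem gen3_map {R S : Type} [CommRing R] [CommRing S] (φ : R →+* S) (c : Ix → R) (v : JJ → R)
    (p : II) : φ (gen3 c v p) = gen3 (fun p => φ (c p)) (fun q => φ (v q)) p := by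
  rcases p with p | p
  · have h1 : (fun i j a => φ (FF c i j a)) = FF (fun p => φ (c p)) := by
      funext i j a
      exact FF_map φ c i j a
    have h2 := TT_map φ (FF c) (fun i j l => v (Sum.inl (i, j, l)))
      (fun i a b => v (Sum.inr (i, a, b))) p.1 p.2.1 p.2.2.1 p.2.2.2
    rw [h1] at h2
    exact h2
  · show φ (_ + _) = _ + _
    rw [map_add]

noncomputable def T3 (c : Ix → ℂ) : (JJ → ℂ) →ₗ[ℂ] (II → ℂ) where
  toFun v := gen3 c v
  map_add' v v' := by
    funext p
    rcases p with p | p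
    · simp only [gen3, Sum.elim_inl, Pi.add_apply, TT, Fin.sum_univ_four, Fin.sum_univ_two]
      ring
    · simp only [gen3, Sum.elim_inr, Pi.add_apply]
      ring
  map_smul' r v := by
    funext p
    rcases p with p | p
    · simp only [gen3, Sum.elim_inl, Pi.smul_apply, smul_eq_mul, TT, Fin.sum_univ_four,
        Fin.sum_univ_two, RingHom.id_apply]
      ring
    · simp only [gen3, Sum.elim_inr, Pi.smul_apply, smul_eq_mul, RingHom.id_apply]
      ring

noncomputable def T1 (c : Ix → ℂ) : (Fin 4 → ℂ) →ₗ[ℂ] (Fin 6 × Fin 6 → ℂ) where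
  toFun v p := ∑ l, v l * c (io l, p.1, p.2)
  map_add' v v' := by
    funext p
    simp only [Pi.add_apply, add_mul, sum_add_distrib]
  map_smul' r v := by
    funext p
    simp only [Pi.smul_apply, smul_eq_mul, mul_assoc, mul_sum, RingHom.id_apply]

theorem near (c : Ix → ℂ) (hL : IsLeib c) (hd : dd c ≠ 0) (h1 : ∀ v, T1 c v = 0 → v = 0)
    (h3 : ∀ v, T3 c v = 0 → v = 0) : Nil2 c := by
  have hsqr : ∀ u w, mu c (mu c u u) w = 0 := by
    intro u w
    have := hL u u w
    exact (left_eq_add.1 (this.trans (add_comm _ _)))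
  have hsq : ∀ a, sq c a = mu c (Pi.single (![(0 : Fin 6), 1] a) 1) (Pi.single (![(0 : Fin 6), 1] a) 1) := by
    intro a
    funext k
    rw [mu_single]
    fin_cases a <;> rfl
  have hs : ∀ a w, muL c (sq c a) w = 0 := by
    intro a w
    rw [muL_apply, hsq]
    exact hsqr _ _
  have hnd : ∀ t, (∀ w, muL c t w = 0) → xx c t = 0 := by
    intro t ht
    apply h1
    have hsum : ∑ l, xx c t l • ev l = t - ∑ a, al c t a • sq c a :=
      eq_sub_of_add_eq (decomp c hd t).symm
    have hz : ∀ w, muL c (∑ l, xx c t l • ev l) w = 0 := by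
      intro w
      rw [hsum, map_sub, LinearMap.sub_apply, ht, map_sum, LinearMap.sum_apply]
      simp only [map_smul, LinearMap.smul_apply, hs, smul_zero, sum_const_zero, sub_zero]
    funext p
    have := congrFun (hz (Pi.single p.1 1)) p.2
    rw [map_sum, LinearMap.sum_apply, Finset.sum_apply] at this
    simp only [map_smul, LinearMap.smul_apply, Pi.smul_apply, smul_eq_mul, muL_apply, ev,
      mu_single] at this
    exact this
  refine struct (muL c) hL ev (sq c) (xx c) (al c) (decomp c hd) hs hnd ?_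
  intro lam rho S E
  have hv := h3 (Sum.elim (fun p => lam p.1 p.2.1 p.2.2) (fun p => rho p.1 p.2.1 p.2.2)) (by
    funext p
    rcases p with p | p
    · show TT (FF c) lam rho p.1 p.2.1 p.2.2.1 p.2.2.2 = 0
      have hF : FF c = fun i j a => dd c * (al c (muL c (ev i) (ev j)) a) := by
        funext i j a
        have h4 : muL c (ev i) (ev j) = fun k => c (io i, io j, k) := by
          funext k
          rw [muL_apply, ev, ev, mu_single]
        rw [h4]
        show sc c _ a = dd c * (sc c _ a / dd c)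
        field_simp
      rw [hF, TT_smul, E, mul_zero]
    · exact S p.1 p.2.1 p.2.2)
  constructor
  · intro i j l
    exact congrFun hv (Sum.inl (i, j, l))
  · intro i a b
    exact congrFun hv (Sum.inr (i, a, b))

/-- the special algebra -/
noncomputable def c0 : Ix → ℂ := fun p =>
  if p = (0, 0, 4) ∨ p = (1, 1, 5) ∨ p = (2, 2, 4) ∨ p = (2, 3, 5) ∨ p = (3, 1, 4) then 1 else 0

theorem dd_c0 : dd c0 = 1 := by
  simp [dd, c0]

theorem FF_c0 : FF c0 = f0 := by
  funext i j a
  fin_cases i <;> fin_cases j <;> fin_cases a <;> simp [FF, sc, c0, f0, io]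

theorem T1_c0 : ∀ v, T1 c0 v = 0 → v = 0 := by
  intro v hv
  have h0 := congrFun hv (0, 4)
  have h1 := congrFun hv (1, 5)
  have h2 := congrFun hv (2, 4)
  have h3 := congrFun hv (1, 4)
  simp [T1, Fin.sum_univ_four, c0, io] at h0 h1 h2 h3
  funext l
  fin_cases l
  · exact h0
  · exact h1
  · exact h2
  · exact h3

theorem T3_c0 : ∀ v, T3 c0 v = 0 → v = 0 := by
  intro v hv
  obtain ⟨h1, h2⟩ := inj0 (fun i j l => v (Sum.inl (i, j, l))) (fun i a b => v (Sum.inr (i, a, b)))
    (fun i j l => congrFun hv (Sum.inr (i, j, l))) (by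
      intro i j k a
      have := congrFun hv (Sum.inl (i, j, k, a))
      rw [← FF_c0]
      exact this)
  funext q
  rcases q with q | q
  · exact h1 q.1 q.2.1 q.2.2
  · exact h2 q.1 q.2.1 q.2.2

theorem Nil2_c0 : Nil2 c0 := by
  have hlow : ∀ i j k : Fin 6, (k.val < 4 ∨ 4 ≤ i.val ∨ 4 ≤ j.val) → c0 (i, j, k) = 0 := by
    intro i j k h
    unfold c0
    rw [if_neg]
    rintro (h' | h' | h' | h' | h') <;>
    · rw [Prod.mk.injEq, Prod.mk.injEq] at h'
      obtain ⟨rfl, rfl, rfl⟩ := h'
      revert h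
      decide
  have hmu : ∀ u v, ∀ k : Fin 6, k.val < 4 → mu c0 u v k = 0 := by
    intro u v k hk
    unfold mu
    exact sum_eq_zero (fun i _ => sum_eq_zero (fun j _ => by
      rw [hlow i j k (Or.inl hk), mul_zero]))
  intro u v w
  constructor
  · funext k
    show ∑ i, ∑ j, u i * mu c0 v w j * c0 (i, j, k) = 0
    refine sum_eq_zero (fun i _ => sum_eq_zero (fun j _ => ?_))
    rcases Nat.lt_or_ge j.val 4 with h | h
    · rw [hmu v w j h, mul_zero, zero_mul]
    · rw [hlow i j k (Or.inr (Or.inr h)), mul_zero]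
  · funext k
    show ∑ i, ∑ j, mu c0 u v i * w j * c0 (i, j, k) = 0
    refine sum_eq_zero (fun i _ => sum_eq_zero (fun j _ => ?_))
    rcases Nat.lt_or_ge i.val 4 with h | h
    · rw [hmu u v i h, zero_mul, zero_mul]
    · rw [hlow i j k (Or.inr (Or.inl h)), mul_zero]

theorem Leib_c0 : IsLeib c0 := by
  intro u v w
  rw [(Nil2_c0 u v w).1, (Nil2_c0 u v w).2, (Nil2_c0 v u w).1, add_zero]

/-- evaluation of products with constant arguments -/
theorem eval_mu (c : Ix → ℂ) (u v : Fin 6 → MvPolynomial Ix ℂ) (k : Fin 6) :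
    MvPolynomial.eval c (mu (fun p => MvPolynomial.X p) u v k) =
      mu c (fun i => MvPolynomial.eval c (u i)) (fun i => MvPolynomial.eval c (v i)) k := by
  rw [mu_map (MvPolynomial.eval c)]
  congr 1
  · simp

theorem Leib_cl : Cl {c : Ix → ℂ | IsLeib c} := by
  refine ⟨{p | ∃ (u v w : Fin 6 → ℂ) (k : Fin 6), p =
    mu (fun p => MvPolynomial.X p) (fun i => MvPolynomial.C (u i))
      (mu (fun p => MvPolynomial.X p) (fun i => MvPolynomial.C (v i)) (fun i => MvPolynomial.C (w i))) k
    - (mu (fun p => MvPolynomial.X p) (mu (fun p => MvPolynomial.X p) (fun i => MvPolynomial.C (u i))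
      (fun i => MvPolynomial.C (v i))) (fun i => MvPolynomial.C (w i)) k +
      mu (fun p => MvPolynomial.X p) (fun i => MvPolynomial.C (v i))
      (mu (fun p => MvPolynomial.X p) (fun i => MvPolynomial.C (u i)) (fun i => MvPolynomial.C (w i))) k)}, ?_⟩
  ext c
  constructor
  · rintro h p ⟨u, v, w, k, rfl⟩
    rw [map_sub, map_add, eval_mu, eval_mu, eval_mu]
    simp only [eval_mu, MvPolynomial.eval_C]
    have := congrFun (h u v w) k
    rw [Pi.add_apply] at this
    exact sub_eq_zero.2 this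
  · intro h u v w
    funext k
    have := h _ ⟨u, v, w, k, rfl⟩
    rw [map_sub, map_add, eval_mu, eval_mu, eval_mu] at this
    simp only [eval_mu, MvPolynomial.eval_C] at this
    rw [Pi.add_apply]
    exact sub_eq_zero.1 this

theorem Nil2_cl : Cl {c : Ix → ℂ | Nil2 c} := by
  refine ⟨{p | ∃ (u v w : Fin 6 → ℂ) (k : Fin 6), p =
    mu (fun p => MvPolynomial.X p) (fun i => MvPolynomial.C (u i))
      (mu (fun p => MvPolynomial.X p) (fun i => MvPolynomial.C (v i)) (fun i => MvPolynomial.C (w i))) k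
    ∨ p = mu (fun p => MvPolynomial.X p) (mu (fun p => MvPolynomial.X p) (fun i => MvPolynomial.C (u i))
      (fun i => MvPolynomial.C (v i))) (fun i => MvPolynomial.C (w i)) k}, ?_⟩
  ext c
  constructor
  · rintro h p ⟨u, v, w, k, rfl | rfl⟩
    · rw [eval_mu]
      simp only [eval_mu, MvPolynomial.eval_C]
      exact congrFun (h u v w).1 k
    · rw [eval_mu]
      simp only [eval_mu, MvPolynomial.eval_C]
      exact congrFun (h u v w).2 k
  · intro h u v w
    constructor
    · funext k
      have := h _ ⟨u, v, w, k, Or.inl rfl⟩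
      rw [eval_mu] at this
      simp only [eval_mu, MvPolynomial.eval_C] at this
      exact this
    · funext k
      have := h _ ⟨u, v, w, k, Or.inr rfl⟩
      rw [eval_mu] at this
      simp only [eval_mu, MvPolynomial.eval_C] at this
      exact this

/-- There is an irreducible component all of whose points satisfy `Nil2`. -/
theorem component : ∃ Z : Set (Ix → ℂ), Irr Z ∧ (∀ c ∈ Z, IsLeib c) ∧
    (∀ Z' : Set (Ix → ℂ), Irr Z' → Z ⊆ Z' → (∀ c ∈ Z', IsLeib c) → Z' = Z) ∧
    ∀ c ∈ Z, Nil2 c := by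
  classical
  obtain ⟨P1, hP1, hP1'⟩ := open_inj T1
    (fun p l => (MvPolynomial.X (io l, p.1, p.2) : MvPolynomial Ix ℂ)) (by
      intro c p l
      show _ = ∑ l', (Pi.single l (1 : ℂ) : Fin 4 → ℂ) l' * c (io l', p.1, p.2)
      rw [MvPolynomial.eval_X, sum_eq_single l]
      · simp
      · intro b _ hb
        rw [Pi.single_eq_of_ne hb, zero_mul]
      · intro h; exact absurd (mem_univ _) h) c0 T1_c0
  obtain ⟨P3, hP3, hP3'⟩ := open_inj T3
    (fun p j => gen3 (fun q => (MvPolynomial.X q : MvPolynomial Ix ℂ)) (Pi.single j 1) p) (by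
      intro c p j
      rw [gen3_map (MvPolynomial.eval c)]
      show gen3 _ _ p = gen3 c (Pi.single j 1) p
      congr 1
      · simp
      · funext q
        rw [Pi.single_apply, Pi.single_apply]
        split_ifs <;> simp) c0 T3_c0
  obtain ⟨Z, hZ, hZL, h0, hmax⟩ := exists_component {c : Ix → ℂ | IsLeib c} Leib_cl c0 Leib_c0
  refine ⟨Z, hZ, hZL, fun Z' h1 h2 h3 => hmax Z' h1 h2 h3, ?_⟩
  have hP : ∃ P : MvPolynomial Ix ℂ, MvPolynomial.eval c0 P ≠ 0 ∧
      ∀ c, MvPolynomial.eval c P ≠ 0 → IsLeib c → Nil2 c := by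
    refine ⟨dd (fun q => MvPolynomial.X q) * (P1 * P3), ?_, ?_⟩
    · rw [map_mul, map_mul]
      refine mul_ne_zero ?_ (mul_ne_zero hP1 hP3)
      have : MvPolynomial.eval c0 (dd (fun q => (MvPolynomial.X q : MvPolynomial Ix ℂ))) = dd c0 := by
        simp [dd]
      rw [this, dd_c0]
      exact one_ne_zero
    · intro c hc hL
      rw [map_mul, map_mul] at hc
      have h1 : MvPolynomial.eval c (dd (fun q => (MvPolynomial.X q : MvPolynomial Ix ℂ))) = dd c := by
        simp [dd]
      rw [h1] at hc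
      exact near c hL (left_ne_zero_of_mul hc)
        (hP1' c (left_ne_zero_of_mul (right_ne_zero_of_mul hc)))
        (hP3' c (right_ne_zero_of_mul (right_ne_zero_of_mul hc)))
  obtain ⟨P, hP0, hPn⟩ := hP
  rcases hZ.2.2 {c | Nil2 c} {c | ∀ p ∈ ({P} : Set (MvPolynomial Ix ℂ)), MvPolynomial.eval c p = 0}
    Nil2_cl ⟨_, rfl⟩ (by
      intro c hc
      by_cases h : MvPolynomial.eval c P = 0
      · right
        rintro p rfl
        exact h
      · left
        exact hPn c h (hZL hc)) with h | h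
  · exact fun c hc => h hc
  · exact absurd (h h0 P rfl) hP0

end Pool.Agent.H46R3.Leib
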