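import Mathlib

set_option autoImplicit false

/-!
Character sums used for the lower bound.
-/

namespace Pool.Agent.H46R3.Part

open Finset

variable {q : ℕ} [Fact q.Prime]

/-- the quadratic character -/
noncomputable abbrev ch (q : ℕ) [Fact q.Prime] (x : ZMod q) : ℤ := quadraticChar (ZMod q) x

/-- indicator of zero -/
def dl (q : ℕ) (x : ZMod q) : ℤ := if x = 0 then 1 else 0

/-- the quadratic character with value `1` at `0` -/
noncomputable def g (q : ℕ) [Fact q.Prime] (x : ZMod q) : ℤ := if x = 0 then 1 else ch q x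

theorem g_eq (x : ZMod q) : g q x = ch q x + dl q x := by
  unfold g dl
  split_ifs with h
  · rw [h]; simp [ch]
  · rw [add_zero]

theorem g_sq (x : ZMod q) : g q x = 1 ∨ g q x = -1 := by
  unfold g
  split_ifs with h
  · left; rfl
  · exact quadraticChar_dichotomy h

theorem ringChar_ne (hq : q % 4 = 3) : ringChar (ZMod q) ≠ 2 := by
  rw [ZMod.ringChar_zmod_n]
  omega

theorem ch_neg (hq : q % 4 = 3) (x : ZMod q) : ch q (-x) = - ch q x := by
  have h : ch q (-1) = -1 := by
    unfold ch
    rw [quadraticChar_neg_one (ringChar_ne hq), ZMod.card]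
    exact ZMod.χ₄_nat_three_mod_four hq
  have : -x = (-1) * x := by ring
  rw [this]
  unfold ch at h ⊢
  rw [map_mul, h]
  ring

theorem sum_ch (hq : q % 4 = 3) : ∑ x, ch q x = 0 := quadraticChar_sum_zero (ringChar_ne hq)

theorem sum_shift {α : Type} [AddCommMonoid α] (f : ZMod q → α) (s : ZMod q) :
    ∑ x, f (x + s) = ∑ x, f x :=
  Equiv.sum_comp (Equiv.addRight s) f

theorem sum_dl_mul (f : ZMod q → ℤ) (s : ZMod q) : ∑ x, dl q (x + s) * f x = f (-s) := by
  rw [sum_eq_single (-s)]
  · simp [dl]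
  · intro b _ hb
    have : b + s ≠ 0 := fun h => hb (eq_neg_of_add_eq_zero_left h)
    simp [dl, this]
  · intro h; exact absurd (mem_univ _) h

theorem sum_dl_mul0 (f : ZMod q → ℤ) : ∑ x, dl q x * f x = f 0 := by
  have := sum_dl_mul f 0
  simpa using this

theorem dl_sub_mul (f : ZMod q → ℤ) (s : ZMod q) : ∑ x, dl q (s - x) * f x = f s := by
  rw [sum_eq_single s]
  · simp [dl]
  · intro b _ hb
    have : s - b ≠ 0 := fun h => hb (sub_eq_zero.1 h).symm
    simp [dl, this]
  · intro h; exact absurd (mem_univ _) h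

/-- autocorrelation of the quadratic character -/
theorem sum_ch_ch (hq : q % 4 = 3) (s : ZMod q) :
    ∑ x, ch q x * ch q (x + s) = q * dl q s - 1 := by
  by_cases hs : s = 0
  · subst hs
    simp only [add_zero, dl, if_true, mul_one]
    have : ∀ x : ZMod q, ch q x * ch q x = 1 - dl q x := by
      intro x
      unfold dl
      by_cases hx : x = 0
      · rw [hx]; simp [ch]
      · rw [if_neg hx, sub_zero, ← pow_two]
        exact quadraticChar_sq_one hx
    simp_rw [this]
    rw [sum_sub_distrib, sum_const, card_univ, ZMod.card]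
    have h2 := sum_dl_mul0 (q := q) (fun _ => 1)
    simp only [mul_one] at h2
    rw [h2]
    simp
  · have hne : quadraticChar (ZMod q) ≠ 1 := quadraticChar_ne_one (ringChar_ne hq)
    have h := jacobiSum_nontrivial_inv hne
    have hinv : (quadraticChar (ZMod q))⁻¹ = quadraticChar (ZMod q) :=
      MulChar.IsQuadratic.inv (quadraticChar_isQuadratic (F := ZMod q))
    rw [hinv] at h
    unfold jacobiSum at h
    have h1 : ∑ x : ZMod q, quadraticChar (ZMod q) x * quadraticChar (ZMod q) (1 - x) =
        ∑ x : ZMod q, quadraticChar (ZMod q) (-s⁻¹ * x) * quadraticChar (ZMod q) (1 - (-s⁻¹ * x)) := by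
      have hu : (-s⁻¹ : ZMod q) ≠ 0 := neg_ne_zero.2 (inv_ne_zero hs)
      exact (Equiv.sum_comp (Equiv.mulLeft₀ (-s⁻¹) hu)
        (fun x => quadraticChar (ZMod q) x * quadraticChar (ZMod q) (1 - x))).symm
    rw [h1] at h
    have h2 : ∀ x : ZMod q, quadraticChar (ZMod q) (-s⁻¹ * x) *
        quadraticChar (ZMod q) (1 - (-s⁻¹ * x)) =
        quadraticChar (ZMod q) (-1) * (ch q x * ch q (x + s)) := by
      intro x
      have e1 : (1 - (-s⁻¹ * x) : ZMod q) = s⁻¹ * (x + s) := by
        field_simp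
        ring
      have e2 : (-s⁻¹ * x : ZMod q) = (-1) * (s⁻¹ * x) := by ring
      rw [e1, e2, map_mul, map_mul, map_mul]
      have e3 : quadraticChar (ZMod q) s⁻¹ * quadraticChar (ZMod q) s⁻¹ = 1 := by
        rw [← pow_two]
        exact quadraticChar_sq_one (inv_ne_zero hs)
      unfold ch
      linear_combination (quadraticChar (ZMod q) (-1) * quadraticChar (ZMod q) x * quadraticChar (ZMod q) (x + s)) * e3
    simp_rw [h2] at h
    rw [← mul_sum] at h
    have h3 : quadraticChar (ZMod q) (-1) = -1 := by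
      have := ch_neg hq (1 : ZMod q)
      unfold ch at this
      rw [this]
      simp
    rw [h3] at h
    unfold dl
    rw [if_neg hs]
    linarith

/-- the convolution -/
noncomputable def K (q : ℕ) [Fact q.Prime] (s : ZMod q) : ℤ := 1 + 2 * ch q s - (q - 1) * dl q s

/-- the correlation -/
def L (q : ℕ) (s : ZMod q) : ℤ := (q + 1) * dl q s - 1

theorem dl_neg (s : ZMod q) : dl q (-s) = dl q s := by
  unfold dl
  simp

theorem conv_g (hq : q % 4 = 3) (s : ZMod q) : ∑ x, g q x * g q (s - x) = K q s := by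
  have h : ∀ x : ZMod q, g q x * g q (s - x) =
      - (ch q x * ch q (x + -s)) + dl q x * ch q (s - x) + dl q (s - x) * ch q x +
        dl q x * dl q (s - x) := by
    intro x
    rw [g_eq, g_eq]
    have : s - x = - (x + -s) := by ring
    have h2 : ch q (s - x) = - ch q (x + -s) := by rw [this, ch_neg hq]
    rw [h2]
    ring
  simp_rw [h]
  rw [sum_add_distrib, sum_add_distrib, sum_add_distrib, sum_neg_distrib, sum_ch_ch hq,
    sum_dl_mul0 (fun x => ch q (s - x)), dl_sub_mul, sum_dl_mul0 (fun x => dl q (s - x)), dl_neg]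
  simp only [sub_zero]
  unfold K
  ring

theorem corr_g (hq : q % 4 = 3) (s : ZMod q) : ∑ x, g q x * g q (x + s) = L q s := by
  have h : ∀ x : ZMod q, g q x * g q (x + s) =
      (ch q x * ch q (x + s)) + dl q x * ch q (x + s) + dl q (x + s) * ch q x +
        dl q x * dl q (x + s) := by
    intro x
    rw [g_eq, g_eq]
    ring
  simp_rw [h]
  rw [sum_add_distrib, sum_add_distrib, sum_add_distrib, sum_ch_ch hq,
    sum_dl_mul0 (fun x => ch q (x + s)), sum_dl_mul, sum_dl_mul0 (fun x => dl q (x + s)),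
    ch_neg hq]
  simp only [zero_add]
  unfold L
  ring

theorem dl_mul_dl {s s' : ZMod q} (h : s ≠ s') (x : ZMod q) : dl q (x + s) * dl q (x + s') = 0 := by
  unfold dl
  split_ifs with h1 h2
  · exact absurd (add_left_cancel (h1.trans h2.symm)) h
  · simp
  · simp
  · simp

theorem sum_KK (hq : q % 4 = 3) {a b : ZMod q} (h : a ≠ b) :
    ∑ x, K q (x + a) * K q (x + b) = - q - 2 := by
  have h1 : ∀ x : ZMod q, K q (x + a) * K q (x + b) =
      1 + 2 * ch q (x + a) + 2 * ch q (x + b) + 4 * (ch q (x + a) * ch q (x + b))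
      - (q - 1) * (dl q (x + a) * (1 + 2 * ch q (x + b)))
      - (q - 1) * (dl q (x + b) * (1 + 2 * ch q (x + a))) := by
    intro x
    have := dl_mul_dl h x
    unfold K
    linear_combination ((q - 1) ^ 2 : ℤ) * this
  simp_rw [h1]
  rw [sum_sub_distrib, sum_sub_distrib, sum_add_distrib, sum_add_distrib, sum_add_distrib,
    ← mul_sum, ← mul_sum, ← mul_sum, ← mul_sum, ← mul_sum,
    sum_dl_mul (fun x => 1 + 2 * ch q (x + b)), sum_dl_mul (fun x => 1 + 2 * ch q (x + a)),
    sum_shift (fun x => ch q x) a, sum_shift (fun x => ch q x) b, sum_ch hq]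
  have h2 : ∑ x, ch q (x + a) * ch q (x + b) = -1 := by
    have h3 : ∀ x, ch q (x + a) * ch q (x + b) = (fun y => ch q y * ch q (y + (b - a))) (x + a) := by
      intro x
      simp only
      congr 2
      ring
    simp_rw [h3]
    rw [sum_shift (fun y => ch q y * ch q (y + (b - a))) a, sum_ch_ch hq]
    unfold dl
    rw [if_neg (sub_ne_zero.2 h.symm)]
    simp
  rw [h2]
  have h4 : ch q (-b + a) = - ch q (-a + b) := by
    rw [← ch_neg hq]
    congr 1
    ring
  rw [h4]
  simp
  ring

theorem sum_KL (hq : q % 4 = 3) {a b : ZMod q} (h : a ≠ b) :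
    - q - 2 ≤ ∑ x, K q (x + a) * L q (x + b) := by
  have h1 : ∀ x : ZMod q, K q (x + a) * L q (x + b) =
      (q + 1) * (dl q (x + b) * K q (x + a)) - K q (x + a) := by
    intro x
    unfold L
    ring
  simp_rw [h1]
  rw [sum_sub_distrib, ← mul_sum, sum_dl_mul (fun x => K q (x + a)),
    sum_shift (fun x => K q x) a]
  have h2 : ∑ x, K q x = 1 := by
    unfold K
    rw [sum_sub_distrib, sum_add_distrib, ← mul_sum, ← mul_sum, sum_ch hq]
    have h2 := sum_dl_mul0 (q := q) (fun _ => 1)
    simp only [mul_one] at h2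
    rw [h2, sum_const, card_univ, ZMod.card]
    simp
  rw [h2]
  have h3 : (-b + a : ZMod q) ≠ 0 := by
    intro h0
    apply h
    have := eq_neg_of_add_eq_zero_left h0
    exact (neg_injective this).symm
  have h4 : K q (-b + a) = 1 + 2 * ch q (-b + a) := by
    unfold K dl
    rw [if_neg h3]
    ring
  rw [h4]
  rcases quadraticChar_dichotomy h3 with h5 | h5
  · have : ch q (-b + a) = 1 := h5
    rw [this]
    nlinarith [(Nat.cast_nonneg q : (0 : ℤ) ≤ q)]
  · have : ch q (-b + a) = -1 := h5
    rw [this]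
    nlinarith [(Nat.cast_nonneg q : (0 : ℤ) ≤ q)]

theorem sum_LL {a b : ZMod q} (h : a ≠ b) :
    ∑ x, L q (x + a) * L q (x + b) = - q - 2 := by
  have h1 : ∀ x : ZMod q, L q (x + a) * L q (x + b) =
      1 - (q + 1) * (dl q (x + a) * 1) - (q + 1) * (dl q (x + b) * 1) := by
    intro x
    have := dl_mul_dl h x
    unfold L
    linear_combination ((q + 1) ^ 2 : ℤ) * this
  simp_rw [h1]
  rw [sum_sub_distrib, sum_sub_distrib, ← mul_sum, ← mul_sum, sum_dl_mul (fun _ => 1),
    sum_dl_mul (fun _ => 1), sum_const, card_univ, ZMod.card]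
  simp
  ring

end Pool.Agent.H46R3.Part
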