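import Mathlib

set_option autoImplicit false

/-!
# Partite Turán densities: definitions

`Vtx t n` is the vertex set of a `t`-partite hypergraph whose `i`-th part has `n i` vertices.
-/

namespace Pool.Agent.H46R3.Part

/-- Vertices of a `t`-partite hypergraph: the `i`-th part is `Fin (n i)`. -/
abbrev Vtx (t : ℕ) (n : Fin t → ℕ) : Type := Σ i : Fin t, Fin (n i)

/-- `G` is the edge set of a `t`-partite `r`-graph with nonempty parts of sizes `n i`: every edge has
`r` elements and meets every part in at most one vertex. -/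
def IsPartite (r t : ℕ) (n : Fin t → ℕ) (G : Finset (Finset (Vtx t n))) : Prop :=
  (∀ i, 1 ≤ n i) ∧ ∀ e ∈ G, e.card = r ∧ ∀ i, (e.filter (fun v => v.1 = i)).card ≤ 1

/-- The density of `G` on the set `I` of parts: the number of edges with exactly one vertex in each
part `i ∈ I`, divided by the product of the sizes of these parts. -/
noncomputable def dens (t : ℕ) (n : Fin t → ℕ) (G : Finset (Finset (Vtx t n)))
    (I : Finset (Fin t)) : ℝ :=
  ((G.filter (fun e => ∀ i ∈ I, (e.filter (fun v => v.1 = i)).card = 1)).card : ℝ) /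
    ∏ i ∈ I, (n i : ℝ)

/-- `G` contains a (not necessarily induced) copy of the hypergraph with vertex set `Fin h` and
edge set `E`. -/
def Contains {h t : ℕ} (E : Finset (Finset (Fin h))) (n : Fin t → ℕ)
    (G : Finset (Finset (Vtx t n))) : Prop :=
  ∃ f : Fin h → Vtx t n, Function.Injective f ∧ ∀ e ∈ E, e.image f ∈ G

/-- `dT M r t E`: the infimum of all `α ∈ [0, 1]` such that every `t`-partite `r`-graph with nonempty
parts of size at least `M` and all densities at least `α` contains a copy of `E`. For `M = 0` (or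
`M = 1`) this is `d_t`. -/
noncomputable def dT (M r t : ℕ) {h : ℕ} (E : Finset (Finset (Fin h))) : ℝ :=
  sInf {α : ℝ | 0 ≤ α ∧ α ≤ 1 ∧ ∀ (n : Fin t → ℕ) (G : Finset (Finset (Vtx t n))),
    IsPartite r t n G → (∀ i, M ≤ n i) →
      (∀ I : Finset (Fin t), I.card = r → α ≤ dens t n G I) → Contains E n G}

/-- The `4`-graph with three edges on five vertices. -/
def E3 : Finset (Finset (Fin 5)) := {{0, 1, 2, 3}, {0, 1, 2, 4}, {0, 1, 3, 4}}

end Pool.Agent.H46R3.Part
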