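import Mathlib
import Pool.Agent.H46R3.PartChar

set_option autoImplicit false

/-!
The fourfold character sums counting the edges.
-/

namespace Pool.Agent.H46R3.Part

open Finset

variable {q : ℕ} [Fact q.Prime]

/-- four times the indicator that the Pfaffian of a skew sign matrix is `3` or `-3` -/
def wt (t12 t13 t14 t23 t24 t34 : ℤ) : ℤ :=
  1 - (t12 * t34) * (t13 * t24) + (t12 * t34) * (t14 * t23) - (t13 * t24) * (t14 * t23)

theorem conv_shift (hq : q % 4 = 3) (a d u v : ZMod q) :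
    ∑ b, g q (b - a + u) * g q (d - b + v) = K q (d - a + (u + v)) := by
  rw [← conv_g hq, ← sum_shift (fun y => g q y * g q (d - a + (u + v) - y)) (u - a)]
  refine sum_congr rfl (fun b _ => ?_)
  congr 2 <;> ring

theorem corr_shift (hq : q % 4 = 3) (a c u v : ZMod q) :
    ∑ d, g q (d - c + u) * g q (d - a + v) = L q (c - a + (v - u)) := by
  rw [← corr_g hq, ← sum_shift (fun y => g q y * g q (y + (c - a + (v - u)))) (u - c)]
  refine sum_congr rfl (fun b _ => ?_)
  congr 2 <;> ring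

theorem S12 (hq : q % 4 = 3) (c1 c2 c5 c6 : ZMod q) (h1 : c1 + c5 ≠ c2 + c6) :
    ∑ a, ∑ b, ∑ c, ∑ d, (g q (b - a + c1) * g q (d - c + c6)) *
      (g q (c - a + c2) * g q (d - b + c5)) = q * (- q - 2) := by
  have h : ∀ a : ZMod q, ∑ b, ∑ c, ∑ d, (g q (b - a + c1) * g q (d - c + c6)) *
      (g q (c - a + c2) * g q (d - b + c5)) = - q - 2 := by
    intro a
    calc _ = ∑ b, ∑ d, ∑ c, (g q (b - a + c1) * g q (d - b + c5)) *
          (g q (c - a + c2) * g q (d - c + c6)) := by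
          refine sum_congr rfl (fun b _ => ?_)
          rw [sum_comm]
          refine sum_congr rfl (fun d _ => sum_congr rfl (fun c _ => ?_))
          ring
      _ = ∑ d, ∑ b, ∑ c, (g q (b - a + c1) * g q (d - b + c5)) *
          (g q (c - a + c2) * g q (d - c + c6)) := sum_comm
      _ = ∑ d, K q (d - a + (c1 + c5)) * K q (d - a + (c2 + c6)) := by
          refine sum_congr rfl (fun d _ => ?_)
          rw [← conv_shift hq, ← conv_shift hq, sum_mul_sum]
      _ = ∑ d, K q (d + (c1 + c5)) * K q (d + (c2 + c6)) := by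
          rw [← sum_shift (fun d => K q (d + (c1 + c5)) * K q (d + (c2 + c6))) (-a)]
          refine sum_congr rfl (fun d _ => ?_)
          simp only [sub_eq_add_neg]
      _ = - q - 2 := sum_KK hq h1
  simp_rw [h]
  rw [sum_const, card_univ, ZMod.card]
  simp

theorem S13 (hq : q % 4 = 3) (c1 c3 c4 c6 : ZMod q) (h1 : c1 + c4 ≠ c3 - c6) :
    q * (- q - 2) ≤ ∑ a, ∑ b, ∑ c, ∑ d, (g q (b - a + c1) * g q (d - c + c6)) *
      (g q (d - a + c3) * g q (c - b + c4)) := by
  have h : ∀ a : ZMod q, - q - 2 ≤ ∑ b, ∑ c, ∑ d, (g q (b - a + c1) * g q (d - c + c6)) *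
      (g q (d - a + c3) * g q (c - b + c4)) := by
    intro a
    calc - (q : ℤ) - 2 ≤ ∑ c, K q (c + (c1 + c4)) * L q (c + (c3 - c6)) := sum_KL hq h1
      _ = ∑ c, K q (c - a + (c1 + c4)) * L q (c - a + (c3 - c6)) := by
          rw [← sum_shift (fun d => K q (d + (c1 + c4)) * L q (d + (c3 - c6))) (-a)]
          refine sum_congr rfl (fun d _ => ?_)
          simp only [sub_eq_add_neg]
      _ = ∑ c, ∑ b, ∑ d, (g q (b - a + c1) * g q (c - b + c4)) *
          (g q (d - c + c6) * g q (d - a + c3)) := by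
          refine sum_congr rfl (fun d _ => ?_)
          rw [← conv_shift hq, ← corr_shift hq, sum_mul_sum]
      _ = ∑ b, ∑ c, ∑ d, (g q (b - a + c1) * g q (c - b + c4)) *
          (g q (d - c + c6) * g q (d - a + c3)) := sum_comm
      _ = _ := by
          refine sum_congr rfl (fun b _ => sum_congr rfl (fun c _ => sum_congr rfl (fun d _ => ?_)))
          ring
  calc (q : ℤ) * (- q - 2) = ∑ a : ZMod q, (- (q : ℤ) - 2) := by
        rw [sum_const, card_univ, ZMod.card]
        simp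
    _ ≤ _ := sum_le_sum (fun a _ => h a)

theorem S23 (hq : q % 4 = 3) (c2 c3 c4 c5 : ZMod q) (h1 : c2 - c4 ≠ c3 - c5) :
    ∑ a, ∑ b, ∑ c, ∑ d, (g q (c - a + c2) * g q (d - b + c5)) *
      (g q (d - a + c3) * g q (c - b + c4)) = q * (- q - 2) := by
  have h : ∀ a : ZMod q, ∑ b, ∑ c, ∑ d, (g q (c - a + c2) * g q (d - b + c5)) *
      (g q (d - a + c3) * g q (c - b + c4)) = - q - 2 := by
    intro a
    calc _ = ∑ b, ∑ c, ∑ d, (g q (c - b + c4) * g q (c - a + c2)) *
          (g q (d - b + c5) * g q (d - a + c3)) := by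
          refine sum_congr rfl (fun b _ => sum_congr rfl (fun c _ => sum_congr rfl (fun d _ => ?_)))
          ring
      _ = ∑ b, L q (b - a + (c2 - c4)) * L q (b - a + (c3 - c5)) := by
          refine sum_congr rfl (fun d _ => ?_)
          rw [← corr_shift hq, ← corr_shift hq, sum_mul_sum]
      _ = ∑ d, L q (d + (c2 - c4)) * L q (d + (c3 - c5)) := by
          rw [← sum_shift (fun d => L q (d + (c2 - c4)) * L q (d + (c3 - c5))) (-a)]
          refine sum_congr rfl (fun d _ => ?_)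
          simp only [sub_eq_add_neg]
      _ = - q - 2 := sum_LL h1
  simp_rw [h]
  rw [sum_const, card_univ, ZMod.card]
  simp

theorem four_sum (hq : q % 4 = 3) (c1 c2 c3 c4 c5 c6 : ZMod q)
    (h1 : c1 + c5 ≠ c2 + c6) (h2 : c1 + c4 ≠ c3 - c6) (h3 : c2 - c4 ≠ c3 - c5) :
    (q : ℤ) ^ 4 + q ^ 2 ≤ ∑ a, ∑ b, ∑ c, ∑ d, wt (g q (b - a + c1)) (g q (c - a + c2))
      (g q (d - a + c3)) (g q (c - b + c4)) (g q (d - b + c5)) (g q (d - c + c6)) := by
  have e : ∑ a : ZMod q, ∑ b : ZMod q, ∑ c : ZMod q, ∑ d : ZMod q,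
      wt (g q (b - a + c1)) (g q (c - a + c2))
      (g q (d - a + c3)) (g q (c - b + c4)) (g q (d - b + c5)) (g q (d - c + c6)) =
      (q : ℤ) ^ 4 - (∑ a, ∑ b, ∑ c, ∑ d, (g q (b - a + c1) * g q (d - c + c6)) *
      (g q (c - a + c2) * g q (d - b + c5))) +
      (∑ a, ∑ b, ∑ c, ∑ d, (g q (b - a + c1) * g q (d - c + c6)) *
      (g q (d - a + c3) * g q (c - b + c4))) -
      (∑ a, ∑ b, ∑ c, ∑ d, (g q (c - a + c2) * g q (d - b + c5)) *
      (g q (d - a + c3) * g q (c - b + c4))) := by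
    have e1 : (q : ℤ) ^ 4 = ∑ a : ZMod q, ∑ b : ZMod q, ∑ c : ZMod q, ∑ d : ZMod q, 1 := by
      simp only [sum_const, card_univ, ZMod.card, nsmul_eq_mul, mul_one]
      ring
    rw [e1]
    simp only [wt, sum_add_distrib, sum_sub_distrib]
  rw [e, S12 hq c1 c2 c5 c6 h1, S23 hq c2 c3 c4 c5 h3]
  have := S13 hq c1 c3 c4 c6 h2
  nlinarith [(Nat.cast_nonneg q : (0 : ℤ) ≤ q)]

end Pool.Agent.H46R3.Part
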