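import Mathlib
import Pool.Agent.H46R3.PartDefs

set_option autoImplicit false
set_option linter.constructorNameAsVariable false

/-!
The upper bound: averaging over transversals.
-/

namespace Pool.Agent.H46R3.Part

open Finset

/-- three edges in five vertices -/
theorem three_contains {V : Type} [DecidableEq V] (𝒢 : Finset (Finset V))
    (h4 : ∀ e ∈ 𝒢, e.card = 4) (e e' e'' : Finset V) (he : e ∈ 𝒢) (he' : e' ∈ 𝒢)
    (he'' : e'' ∈ 𝒢) (h1 : e ≠ e') (h2 : e ≠ e'') (h3 : e' ≠ e'')
    (hc : (e ∪ e' ∪ e'').card ≤ 5) :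
    ∃ f : Fin 5 → V, Function.Injective f ∧ ∀ E ∈ E3, E.image f ∈ 𝒢 := by
  set S := e ∪ e' ∪ e'' with hS
  have hSe : e ⊆ S := subset_union_left.trans subset_union_left
  have hSe' : e' ⊆ S := subset_union_right.trans subset_union_left
  have hSe'' : e'' ⊆ S := subset_union_right
  have hcard : S.card = 5 := by
    by_contra hne
    have h5 : S.card ≤ 4 := by omega
    have e1 : e = S := eq_of_subset_of_card_le hSe (by rw [h4 e he]; exact h5)
    have e2 : e' = S := eq_of_subset_of_card_le hSe' (by rw [h4 e' he']; exact h5)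
    exact h1 (e1.trans e2.symm)
  have hone : ∀ u ∈ 𝒢, u ⊆ S → ∃ v, v ∈ S ∧ u = S.erase v := by
    intro u hu huS
    have h6 : (S \ u).card = 1 := by
      rw [card_sdiff_of_subset huS, hcard, h4 u hu]
    obtain ⟨v, hv⟩ := card_eq_one.1 h6
    have hvm : v ∈ S \ u := by rw [hv]; exact mem_singleton_self v
    rw [mem_sdiff] at hvm
    refine ⟨v, hvm.1, ?_⟩
    refine eq_of_subset_of_card_le ?_ ?_
    · intro w hw
      rw [mem_erase]
      exact ⟨fun h => hvm.2 (h ▸ hw), huS hw⟩
    · rw [card_erase_of_mem hvm.1, hcard, h4 u hu]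
  obtain ⟨v, hv, hev⟩ := hone e he hSe
  obtain ⟨x, hx, hex⟩ := hone e' he' hSe'
  obtain ⟨y, hy, hey⟩ := hone e'' he'' hSe''
  have hvx : v ≠ x := by rintro rfl; exact h1 (hev.trans hex.symm)
  have hvy : v ≠ y := by rintro rfl; exact h2 (hev.trans hey.symm)
  have hxy : x ≠ y := by rintro rfl; exact h3 (hex.trans hey.symm)
  have hrest : (((S.erase v).erase x).erase y).card = 2 := by
    rw [card_erase_of_mem, card_erase_of_mem, card_erase_of_mem hv, hcard]
    · rw [mem_erase]; exact ⟨hvx.symm, hx⟩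
    · rw [mem_erase, mem_erase]; exact ⟨hxy.symm, hvy.symm, hy⟩
  obtain ⟨a, b, hab, hrab⟩ := card_eq_two.1 hrest
  have ha : a ∈ ((S.erase v).erase x).erase y := by rw [hrab]; simp
  have hb : b ∈ ((S.erase v).erase x).erase y := by rw [hrab]; simp
  rw [mem_erase, mem_erase, mem_erase] at ha hb
  have hSeq : S = {a, b, y, x, v} := by
    have h7 : S = insert v (insert x (insert y (((S.erase v).erase x).erase y))) := by
      rw [insert_erase, insert_erase, insert_erase hv]
      · rw [mem_erase]; exact ⟨hvx.symm, hx⟩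
      · rw [mem_erase, mem_erase]; exact ⟨hxy.symm, hvy.symm, hy⟩
    rw [h7, hrab]
    ext w
    simp only [mem_insert, mem_singleton]
    tauto
  have k1 : ({a, b, y, x} : Finset V) = e := by
    rw [hev, hSeq]
    ext w
    simp only [mem_insert, mem_singleton, mem_erase]
    constructor
    · rintro (h | h | h | h)
      · exact ⟨h ▸ ha.2.2.1, Or.inl h⟩
      · exact ⟨h ▸ hb.2.2.1, Or.inr (Or.inl h)⟩
      · exact ⟨h ▸ hvy.symm, Or.inr (Or.inr (Or.inl h))⟩
      · exact ⟨h ▸ hvx.symm, Or.inr (Or.inr (Or.inr (Or.inl h)))⟩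
    · rintro ⟨h0, h | h | h | h | h⟩
      · exact Or.inl h
      · exact Or.inr (Or.inl h)
      · exact Or.inr (Or.inr (Or.inl h))
      · exact Or.inr (Or.inr (Or.inr h))
      · exact absurd h h0
  have k2 : ({a, b, y, v} : Finset V) = e' := by
    rw [hex, hSeq]
    ext w
    simp only [mem_insert, mem_singleton, mem_erase]
    constructor
    · rintro (h | h | h | h)
      · exact ⟨h ▸ ha.2.1, Or.inl h⟩
      · exact ⟨h ▸ hb.2.1, Or.inr (Or.inl h)⟩
      · exact ⟨h ▸ hxy.symm, Or.inr (Or.inr (Or.inl h))⟩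
      · exact ⟨h ▸ hvx, Or.inr (Or.inr (Or.inr (Or.inr h)))⟩
    · rintro ⟨h0, h | h | h | h | h⟩
      · exact Or.inl h
      · exact Or.inr (Or.inl h)
      · exact Or.inr (Or.inr (Or.inl h))
      · exact absurd h h0
      · exact Or.inr (Or.inr (Or.inr h))
  have k3 : ({a, b, x, v} : Finset V) = e'' := by
    rw [hey, hSeq]
    ext w
    simp only [mem_insert, mem_singleton, mem_erase]
    constructor
    · rintro (h | h | h | h)
      · exact ⟨h ▸ ha.1, Or.inl h⟩
      · exact ⟨h ▸ hb.1, Or.inr (Or.inl h)⟩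
      · exact ⟨h ▸ hxy, Or.inr (Or.inr (Or.inr (Or.inl h)))⟩
      · exact ⟨h ▸ hvy, Or.inr (Or.inr (Or.inr (Or.inr h)))⟩
    · rintro ⟨h0, h | h | h | h | h⟩
      · exact Or.inl h
      · exact Or.inr (Or.inl h)
      · exact absurd h h0
      · exact Or.inr (Or.inr (Or.inl h))
      · exact Or.inr (Or.inr (Or.inr h))
  refine ⟨![a, b, y, x, v], ?_, ?_⟩
  · have n1 : a ≠ b := hab
    have n2 := ha.1
    have n3 := ha.2.1
    have n4 := ha.2.2.1
    have n5 := hb.1
    have n6 := hb.2.1
    have n7 := hb.2.2.1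
    have hn : ([a, b, y, x, v] : List V).Nodup := by
      simp only [List.nodup_cons, List.mem_cons, List.not_mem_nil, or_false, not_or,
        not_false_eq_true, List.nodup_nil, and_true]
      exact ⟨⟨n1, n2, n3, n4⟩, ⟨n5, n6, n7⟩, ⟨hxy.symm, hvy.symm⟩, hvx.symm⟩
    intro i j hij
    have hn' := List.nodup_iff_injective_get.1 hn
    have key : ∀ i : Fin 5, (![a, b, y, x, v] : Fin 5 → V) i = ([a, b, y, x, v] : List V).get i := by
      intro i
      fin_cases i <;> rfl
    rw [key, key] at hij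
    exact hn' hij
  · intro E hE
    simp only [E3, mem_insert, mem_singleton] at hE
    rcases hE with rfl | rfl | rfl
    · have : image ![a, b, y, x, v] ({0, 1, 2, 3} : Finset (Fin 5)) = {a, b, y, x} := by
        simp [image_insert]
      rw [this, k1]; exact he
    · have : image ![a, b, y, x, v] ({0, 1, 2, 4} : Finset (Fin 5)) = {a, b, y, v} := by
        simp [image_insert]
      rw [this, k2]; exact he'
    · have : image ![a, b, y, x, v] ({0, 1, 3, 4} : Finset (Fin 5)) = {a, b, x, v} := by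
        simp [image_insert]
      rw [this, k3]; exact he''

/-- the number of edges of a `4`-graph on `t` vertices without three edges in five vertices -/
theorem turan_bound (t : ℕ) (𝒢 : Finset (Finset (Fin t))) (h4 : ∀ e ∈ 𝒢, e.card = 4)
    (hfree : ¬ ∃ f : Fin 5 → Fin t, Function.Injective f ∧ ∀ E ∈ E3, E.image f ∈ 𝒢) :
    16 * 𝒢.card ≤ t * t.choose 3 := by
  classical
  set P := powersetCard 3 (univ : Finset (Fin t)) with hP
  set d : Finset (Fin t) → ℕ := fun T => (𝒢.filter (fun e => T ⊆ e)).card with hd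
  have s1 : ∑ T ∈ P, d T = 4 * 𝒢.card := by
    simp only [hd]
    simp_rw [card_filter]
    rw [sum_comm]
    have : ∀ e ∈ 𝒢, ∑ T ∈ P, (if T ⊆ e then 1 else 0) = 4 := by
      intro e he
      rw [← card_filter]
      have : P.filter (fun T => T ⊆ e) = powersetCard 3 e := by
        ext T
        simp only [hP, mem_filter, mem_powersetCard, subset_univ, true_and]
        tauto
      rw [this, card_powersetCard, h4 e he]
      rfl
    rw [sum_congr rfl this, sum_const, smul_eq_mul, mul_comm]
  have s2 : ∑ T ∈ P, d T ^ 2 = ∑ e ∈ 𝒢, ∑ e' ∈ 𝒢, (e ∩ e').card.choose 3 := by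
    have : ∀ T ∈ P, d T ^ 2 = ∑ e ∈ 𝒢, ∑ e' ∈ 𝒢, (if T ⊆ e ∩ e' then 1 else 0) := by
      intro T _
      simp only [hd]
      rw [pow_two, card_filter, sum_mul_sum]
      refine sum_congr rfl (fun e _ => sum_congr rfl (fun e' _ => ?_))
      by_cases h1 : T ⊆ e
      · by_cases h2 : T ⊆ e'
        · rw [if_pos h1, if_pos h2, if_pos (subset_inter h1 h2), one_mul]
        · have h3 : ¬ T ⊆ e ∩ e' := fun h => h2 (h.trans inter_subset_right)
          rw [if_pos h1, if_neg h2, if_neg h3, mul_zero]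
      · have h3 : ¬ T ⊆ e ∩ e' := fun h => h1 (h.trans inter_subset_left)
        rw [if_neg h1, if_neg h3, zero_mul]
    rw [sum_congr rfl this, sum_comm]
    refine sum_congr rfl (fun e _ => ?_)
    rw [sum_comm]
    refine sum_congr rfl (fun e' _ => ?_)
    rw [← card_filter]
    have : P.filter (fun T => T ⊆ e ∩ e') = powersetCard 3 (e ∩ e') := by
      ext T
      simp only [hP, mem_filter, mem_powersetCard, subset_univ, true_and]
      tauto
    rw [this, card_powersetCard]
  have s3 : ∀ e ∈ 𝒢, ∑ e' ∈ 𝒢, (e ∩ e').card.choose 3 ≤ t := by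
    intro e he
    have hle : ∀ e' ∈ 𝒢, (e ∩ e').card.choose 3 ≤
        (if e' = e then 4 else 0) + (if (e ∩ e').card = 3 then 1 else 0) := by
      intro e' he'
      by_cases h : e' = e
      · rw [if_pos h, h, inter_self, h4 e he]
        decide
      · rw [if_neg h]
        have h5 : (e ∩ e').card ≤ 3 := by
          by_contra h6
          have h7 : (e ∩ e').card ≤ e'.card := card_le_card inter_subset_right
          have h8 := h4 e' he'
          have h9 : e ∩ e' = e' := eq_of_subset_of_card_le inter_subset_right (by omega)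
          have h10 : e ∩ e' = e := eq_of_subset_of_card_le inter_subset_left
            (by have := h4 e he; omega)
          exact h (h9.symm.trans h10)
        by_cases h6 : (e ∩ e').card = 3
        · rw [if_pos h6, h6]; decide
        · rw [if_neg h6, Nat.choose_eq_zero_of_lt (by omega)]
    refine (sum_le_sum hle).trans ?_
    rw [sum_add_distrib, sum_ite_eq' 𝒢 e, if_pos he, ← card_filter]
    have hN : (𝒢.filter (fun e' => (e ∩ e').card = 3)).card ≤ t - 4 := by
      have h5 : (eᶜ : Finset (Fin t)).card = t - 4 := by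
        rw [card_compl, Fintype.card_fin, h4 e he]
      rw [← h5]
      have h6 : (𝒢.filter (fun e' => (e ∩ e').card = 3)).card =
          ((𝒢.filter (fun e' => (e ∩ e').card = 3)).image (fun e' => e ∪ e')).card := by
        rw [card_image_of_injOn]
        intro e' he' e'' he'' heq
        rw [mem_coe, mem_filter] at he' he''
        by_contra hne
        apply hfree
        have hun : e ∪ e' ∪ e'' = e ∪ e' := by
          rw [union_eq_left]
          intro w hw
          have : w ∈ e ∪ e'' := mem_union_right _ hw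
          have heq' : e ∪ e' = e ∪ e'' := heq
          rw [heq']; exact this
        have hc : (e ∪ e').card = 5 := by
          have := card_union_add_card_inter e e'
          rw [h4 e he, h4 e' he'.1, he'.2] at this
          omega
        refine three_contains 𝒢 h4 e e' e'' he he'.1 he''.1 ?_ ?_ hne (by rw [hun, hc])
        · rintro rfl
          have := he'.2
          rw [inter_self, h4 e he] at this
          omega
        · rintro rfl
          have := he''.2
          rw [inter_self, h4 e he] at this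
          omega
      rw [h6]
      refine (card_le_card (t := eᶜ.image (fun v => insert v e)) ?_).trans card_image_le
      intro S hS
      rw [mem_image] at hS ⊢
      obtain ⟨e', he', rfl⟩ := hS
      rw [mem_filter] at he'
      have h7 : (e' \ e).card = 1 := by
        have := card_sdiff_add_card_inter e' e
        rw [h4 e' he'.1, inter_comm, he'.2] at this
        omega
      obtain ⟨v, hv⟩ := card_eq_one.1 h7
      have hvm : v ∈ e' \ e := by rw [hv]; exact mem_singleton_self v
      rw [mem_sdiff] at hvm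
      refine ⟨v, by rw [mem_compl]; exact hvm.2, ?_⟩
      have : e ∪ e' = e ∪ (e' \ e) := by rw [union_sdiff_self_eq_union]
      rw [this, hv, union_comm]
      rfl
    have ht : 4 ≤ t := by
      have := card_le_univ e
      rw [h4 e he, Fintype.card_fin] at this
      exact this
    omega
  have s4 : ∑ T ∈ P, d T ^ 2 ≤ 𝒢.card * t := by
    rw [s2]
    calc _ ≤ ∑ e ∈ 𝒢, t := sum_le_sum s3
      _ = _ := by rw [sum_const, smul_eq_mul]
  have s5 : (∑ T ∈ P, d T) ^ 2 ≤ P.card * ∑ T ∈ P, d T ^ 2 := sq_sum_le_card_mul_sum_sq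
  have hPc : P.card = t.choose 3 := by
    rw [hP, card_powersetCard, card_univ, Fintype.card_fin]
  rw [s1, hPc] at s5
  have s6 : (4 * 𝒢.card) ^ 2 ≤ t.choose 3 * (𝒢.card * t) :=
    s5.trans (Nat.mul_le_mul_left _ s4)
  rcases Nat.eq_zero_or_pos 𝒢.card with h0 | h0
  · rw [h0]; simp
  · have : 𝒢.card * (16 * 𝒢.card) ≤ 𝒢.card * (t * t.choose 3) := by nlinarith
    exact Nat.le_of_mul_le_mul_left this h0

/-- the transversals through an edge -/
theorem card_transversals {t : ℕ} (n : Fin t → ℕ) (e : Finset (Vtx t n)) (I : Finset (Fin t))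
    (he : e.card = 4) (hI : I.card = 4)
    (hone : ∀ i ∈ I, (e.filter (fun v => v.1 = i)).card = 1) :
    ∏ i ∈ Iᶜ, n i ≤
      ((univ : Finset (∀ i, Fin (n i))).filter
        (fun x => I.image (fun i => (⟨i, x i⟩ : Vtx t n)) = e)).card := by
  classical
  have hsub : Fintype.piFinset (fun i => if i ∈ I then
      (univ : Finset (Fin (n i))).filter (fun a => (⟨i, a⟩ : Vtx t n) ∈ e) else univ) ⊆
      (univ : Finset (∀ i, Fin (n i))).filter
        (fun x => I.image (fun i => (⟨i, x i⟩ : Vtx t n)) = e) := by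
    intro x hx
    rw [Fintype.mem_piFinset] at hx
    rw [mem_filter]
    refine ⟨mem_univ _, ?_⟩
    refine eq_of_subset_of_card_le ?_ ?_
    · intro v hv
      rw [mem_image] at hv
      obtain ⟨i, hi, rfl⟩ := hv
      have := hx i
      rw [if_pos hi, mem_filter] at this
      exact this.2
    · rw [he, card_image_of_injective, hI]
      intro i j hij
      exact congrArg Sigma.fst hij
  refine le_trans (le_of_eq ?_) (card_le_card hsub)
  rw [Fintype.card_piFinset]
  rw [← prod_mul_prod_compl I (fun i => (if i ∈ I then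
      (univ : Finset (Fin (n i))).filter (fun a => (⟨i, a⟩ : Vtx t n) ∈ e) else univ).card)]
  have h1 : ∏ i ∈ I, (if i ∈ I then
      (univ : Finset (Fin (n i))).filter (fun a => (⟨i, a⟩ : Vtx t n) ∈ e) else univ).card = 1 := by
    refine prod_eq_one (fun i hi => ?_)
    rw [if_pos hi, ← hone i hi]
    refine card_bij (fun a _ => (⟨i, a⟩ : Vtx t n)) ?_ ?_ ?_
    · intro a ha
      rw [mem_filter] at ha ⊢
      exact ⟨ha.2, rfl⟩
    · intro a _ b _ hab
      exact eq_of_heq (Sigma.mk.inj hab).2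
    · rintro ⟨j, a⟩ hv
      rw [mem_filter] at hv
      obtain ⟨hv1, hv2⟩ := hv
      simp only at hv2
      subst hv2
      exact ⟨a, by rw [mem_filter]; exact ⟨mem_univ _, hv1⟩, rfl⟩
  rw [h1, one_mul]
  refine prod_congr rfl (fun i hi => ?_)
  rw [if_neg (by rw [mem_compl] at hi; exact hi), card_univ, Fintype.card_fin]

/-- averaging -/
theorem averaging {t : ℕ} (n : Fin t → ℕ) (G : Finset (Finset (Vtx t n)))
    (hG : IsPartite 4 t n G) (α : ℝ) 
    (hd : ∀ I : Finset (Fin t), I.card = 4 → α ≤ dens t n G I) (hfree : ¬ Contains E3 n G) :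
    16 * (α * (t.choose 4)) ≤ t * t.choose 3 := by
  classical
  obtain ⟨hpos, hG⟩ := hG
  set X := (univ : Finset (∀ i, Fin (n i))) with hX
  set P := powersetCard 4 (univ : Finset (Fin t)) with hP
  have hXc : X.card = ∏ i, n i := by
    rw [hX, card_univ, Fintype.card_pi]
    simp
  have hprod : (0 : ℝ) < ∏ i, (n i : ℝ) := by
    refine prod_pos (fun i _ => ?_)
    have := hpos i
    exact_mod_cast this
  -- for each transversal
  have h1 : ∀ x ∈ X, 16 * (P.filter (fun I => I.image (fun i => (⟨i, x i⟩ : Vtx t n)) ∈ G)).card ≤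
      t * t.choose 3 := by
    intro x _
    refine turan_bound t _ ?_ ?_
    · intro e he
      rw [mem_filter, hP, mem_powersetCard] at he
      exact he.1.2
    · rintro ⟨f, hf, hfe⟩
      apply hfree
      refine ⟨fun j => ⟨f j, x (f j)⟩, ?_, ?_⟩
      · intro i j hij
        exact hf (congrArg Sigma.fst hij)
      · intro E hE
        have := hfe E hE
        rw [mem_filter, image_image] at this
        exact this.2
  -- for each four parts
  have h2 : ∀ I ∈ P, α * ∏ i, (n i : ℝ) ≤
      ((X.filter (fun x => I.image (fun i => (⟨i, x i⟩ : Vtx t n)) ∈ G)).card : ℝ) := by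
    intro I hI
    rw [hP, mem_powersetCard] at hI
    have h3 := hd I hI.2
    set GI := G.filter (fun e => ∀ i ∈ I, (e.filter (fun v => v.1 = i)).card = 1) with hGI
    have h4 : GI.card * ∏ i ∈ Iᶜ, n i ≤
        (X.filter (fun x => I.image (fun i => (⟨i, x i⟩ : Vtx t n)) ∈ G)).card := by
      have h5 : (X.filter (fun x => I.image (fun i => (⟨i, x i⟩ : Vtx t n)) ∈ G)).card =
          ∑ e ∈ G, ((X.filter (fun x => I.image (fun i => (⟨i, x i⟩ : Vtx t n)) ∈ G)).filter
            (fun x => I.image (fun i => (⟨i, x i⟩ : Vtx t n)) = e)).card := by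
        refine card_eq_sum_card_fiberwise ?_
        intro x hx
        rw [mem_coe, mem_filter] at hx
        exact hx.2
      rw [h5]
      calc GI.card * ∏ i ∈ Iᶜ, n i = ∑ e ∈ GI, ∏ i ∈ Iᶜ, n i := by
            rw [sum_const, smul_eq_mul]
        _ ≤ ∑ e ∈ GI, ((X.filter (fun x => I.image (fun i => (⟨i, x i⟩ : Vtx t n)) ∈ G)).filter
            (fun x => I.image (fun i => (⟨i, x i⟩ : Vtx t n)) = e)).card := by
            refine sum_le_sum (fun e he => ?_)
            rw [hGI, mem_filter] at he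
            refine (card_transversals n e I (hG e he.1).1 hI.2 he.2).trans ?_
            refine card_le_card ?_
            intro x hx
            rw [mem_filter] at hx
            rw [mem_filter, mem_filter]
            refine ⟨⟨hx.1, ?_⟩, hx.2⟩
            rw [hx.2]
            exact he.1
        _ ≤ _ := by
            refine sum_le_sum_of_subset (filter_subset _ _)
    have h6 : (0 : ℝ) < ∏ i ∈ I, (n i : ℝ) := by
      refine prod_pos (fun i _ => ?_)
      have := hpos i
      exact_mod_cast this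
    rw [dens, le_div_iff₀ h6] at h3
    have h7 : (∏ i, (n i : ℝ)) = (∏ i ∈ I, (n i : ℝ)) * ∏ i ∈ Iᶜ, (n i : ℝ) :=
      (prod_mul_prod_compl I _).symm
    have h8 : (0 : ℝ) ≤ ∏ i ∈ Iᶜ, (n i : ℝ) := prod_nonneg (fun i _ => Nat.cast_nonneg _)
    calc α * ∏ i, (n i : ℝ) = (α * ∏ i ∈ I, (n i : ℝ)) * ∏ i ∈ Iᶜ, (n i : ℝ) := by
          rw [h7]; ring
      _ ≤ (GI.card : ℝ) * ∏ i ∈ Iᶜ, (n i : ℝ) := mul_le_mul_of_nonneg_right h3 h8
      _ ≤ _ := by exact_mod_cast h4
  have h3 : ∑ x ∈ X, (P.filter (fun I => I.image (fun i => (⟨i, x i⟩ : Vtx t n)) ∈ G)).card =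
      ∑ I ∈ P, (X.filter (fun x => I.image (fun i => (⟨i, x i⟩ : Vtx t n)) ∈ G)).card := by
    simp_rw [card_filter]
    rw [sum_comm]
  have h4 : (16 : ℝ) * ∑ I ∈ P, (α * ∏ i, (n i : ℝ)) ≤ (∏ i, (n i : ℝ)) * (t * t.choose 3) := by
    calc (16 : ℝ) * ∑ I ∈ P, (α * ∏ i, (n i : ℝ)) ≤
        16 * ∑ I ∈ P, ((X.filter (fun x => I.image (fun i => (⟨i, x i⟩ : Vtx t n)) ∈ G)).card : ℝ) := by
          refine mul_le_mul_of_nonneg_left (sum_le_sum h2) (by norm_num)
      _ = 16 * ∑ x ∈ X, ((P.filter (fun I => I.image (fun i => (⟨i, x i⟩ : Vtx t n)) ∈ G)).card : ℝ) := by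
          have h3' := congrArg (Nat.cast : ℕ → ℝ) h3
          rw [Nat.cast_sum, Nat.cast_sum] at h3'
          rw [h3']
      _ = ∑ x ∈ X, (16 * (P.filter (fun I => I.image (fun i => (⟨i, x i⟩ : Vtx t n)) ∈ G)).card : ℝ) := by
          rw [mul_sum]
      _ ≤ ∑ x ∈ X, ((t : ℝ) * t.choose 3) := by
          refine sum_le_sum (fun x hx => ?_)
          exact_mod_cast h1 x hx
      _ = _ := by
          rw [sum_const, nsmul_eq_mul, hXc, Nat.cast_prod]
  rw [sum_const, nsmul_eq_mul, hP, card_powersetCard, card_univ, Fintype.card_fin] at h4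
  have h5 : (∏ i, (n i : ℝ)) * (16 * (α * (t.choose 4))) ≤
      (∏ i, (n i : ℝ)) * (t * t.choose 3) := by
    calc _ = (16 : ℝ) * ((t.choose 4 : ℝ) * (α * ∏ i, (n i : ℝ))) := by ring
      _ ≤ _ := h4
  exact le_of_mul_le_mul_left h5 hprod

/-- the upper bound for the density of a free hypergraph -/
theorem free_density {t : ℕ} (ht : 4 ≤ t) (n : Fin t → ℕ) (G : Finset (Finset (Vtx t n)))
    (hG : IsPartite 4 t n G) (α : ℝ)
    (hd : ∀ I : Finset (Fin t), I.card = 4 → α ≤ dens t n G I) (hfree : ¬ Contains E3 n G) :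
    α * (4 * (t - 3)) ≤ t := by
  have h := averaging n G hG α hd hfree
  have h1 : t.choose 4 * 4 = t.choose 3 * (t - 3) := Nat.choose_succ_right_eq t 3
  have h2 : (t.choose 4 : ℝ) * 4 = t.choose 3 * ((t : ℝ) - 3) := by
    have := congrArg (Nat.cast : ℕ → ℝ) h1
    rw [Nat.cast_mul, Nat.cast_mul, Nat.cast_sub (by omega)] at this
    exact_mod_cast this
  have h3 : (0 : ℝ) < t.choose 3 := by
    have := Nat.choose_pos (n := t) (k := 3) (by omega)
    exact_mod_cast this
  have h4 : (t.choose 3 : ℝ) * (α * (4 * (t - 3))) ≤ (t.choose 3 : ℝ) * t := by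
    calc (t.choose 3 : ℝ) * (α * (4 * (t - 3))) = 4 * α * (t.choose 3 * ((t : ℝ) - 3)) := by ring
      _ = 16 * (α * (t.choose 4)) := by rw [← h2]; ring
      _ ≤ t * t.choose 3 := h
      _ = _ := by ring
  exact le_of_mul_le_mul_left h4 h3

/-- every `α` above `t / (4 (t - 3))` is in the set defining `dT` -/
theorem mem_set (M t : ℕ) (ht : 4 ≤ t) (α : ℝ) (h0 : 0 ≤ α) (h1 : α ≤ 1)
    (h : (t : ℝ) < α * (4 * (t - 3))) :
    α ∈ {α : ℝ | 0 ≤ α ∧ α ≤ 1 ∧ ∀ (n : Fin t → ℕ) (G : Finset (Finset (Vtx t n))),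
    IsPartite 4 t n G → (∀ i, M ≤ n i) →
      (∀ I : Finset (Fin t), I.card = 4 → α ≤ dens t n G I) → Contains E3 n G} := by
  refine ⟨h0, h1, ?_⟩
  intro n G hG _ hd
  by_contra hc
  have := free_density ht n G hG α hd hc
  linarith

theorem dT_bddBelow (M r t : ℕ) {h : ℕ} (E : Finset (Finset (Fin h))) :
    BddBelow {α : ℝ | 0 ≤ α ∧ α ≤ 1 ∧ ∀ (n : Fin t → ℕ) (G : Finset (Finset (Vtx t n))),
    IsPartite r t n G → (∀ i, M ≤ n i) →
      (∀ I : Finset (Fin t), I.card = r → α ≤ dens t n G I) → Contains E n G} :=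
  ⟨0, fun _ h => h.1⟩

theorem dT_le (M t : ℕ) (ht : 4 ≤ t) (α : ℝ) (h0 : 0 ≤ α) (h1 : α ≤ 1)
    (h : (t : ℝ) < α * (4 * (t - 3))) : dT M 4 t E3 ≤ α :=
  csInf_le (dT_bddBelow M 4 t E3) (mem_set M t ht α h0 h1 h)

end Pool.Agent.H46R3.Part
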