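import Mathlib
import Pool.Agent.H46R3.PartSum
import Pool.Agent.H46R3.PartUp

set_option autoImplicit false
set_option linter.constructorNameAsVariable false

/-!
The lower bound: a partite hypergraph without three edges in five vertices, all of whose densities
are larger than one quarter.
-/

namespace Pool.Agent.H46R3.Part

open Finset

/-- the residue of a vertex -/
noncomputable def resEquiv (q M : ℕ) [Fact q.Prime] : Fin (q * (M + 1)) ≃ ZMod q × Fin (M + 1) :=
  Fintype.equivOfCardEq (by simp [ZMod.card])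

noncomputable def rho (q M : ℕ) [Fact q.Prime] (a : Fin (q * (M + 1))) : ZMod q :=
  (resEquiv q M a).1

theorem sum_rho (q M : ℕ) [Fact q.Prime] (f : ZMod q → ℤ) :
    ∑ a, f (rho q M a) = (M + 1) * ∑ x, f x := by
  have h := Equiv.sum_comp (resEquiv q M) (fun p => f p.1)
  unfold rho
  rw [h, Fintype.sum_prod_type]
  simp only [sum_const, card_univ, Fintype.card_fin, nsmul_eq_mul]
  rw [← mul_sum]
  push_cast
  ring

/-- the vertex set -/
abbrev VV (q M t : ℕ) : Type := Vtx t (fun _ => q * (M + 1))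

/-- sign of an ordered pair of vertices -/
noncomputable def tau (q M t : ℕ) [Fact q.Prime] (v w : VV q M t) : ℤ :=
  if v.1 < w.1 then g q (rho q M w.2 - rho q M v.2 + ((v.1.val * w.1.val : ℕ) : ZMod q))
  else if w.1 < v.1 then - g q (rho q M v.2 - rho q M w.2 + ((w.1.val * v.1.val : ℕ) : ZMod q))
  else 0

theorem tau_skew (q M t : ℕ) [Fact q.Prime] (v w : VV q M t) :
    tau q M t w v = - tau q M t v w := by
  unfold tau
  rcases lt_trichotomy v.1 w.1 with h | h | h
  · rw [if_neg (not_lt.2 h.le), if_pos h, if_pos h]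
  · rw [h]; simp
  · rw [if_pos h, if_neg (not_lt.2 h.le), if_pos h, neg_neg]

theorem tau_sign (q M t : ℕ) [Fact q.Prime] (v w : VV q M t) (hvw : v.1 ≠ w.1) :
    tau q M t v w = 1 ∨ tau q M t v w = -1 := by
  unfold tau
  rcases lt_trichotomy v.1 w.1 with h | h | h
  · rw [if_pos h]; exact g_sq _
  · exact absurd h hvw
  · rw [if_neg (not_lt.2 h.le), if_pos h]
    rcases g_sq (rho q M v.2 - rho q M w.2 + ((w.1.val * v.1.val : ℕ) : ZMod q)) with h1 | h1
    · right; rw [h1]
    · left; rw [h1]; rfl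

/-- the Pfaffian condition -/
def PfC {V : Type} (T : V → V → ℤ) (w x y z : V) : Prop :=
  (T w x * T y z - T w y * T x z + T w z * T x y) ^ 2 = 9

theorem perm_pf (T : Fin 4 → Fin 4 → ℤ) (hT : ∀ i j, T j i = - T i j) (h : PfC T 0 1 2 3)
    (p q r s : Fin 4) (h1 : p ≠ q) (h2 : p ≠ r) (h3 : p ≠ s) (h4 : q ≠ r) (h5 : q ≠ s)
    (h6 : r ≠ s) : PfC T p q r s := by
  have e10 := hT 0 1
  have e20 := hT 0 2
  have e30 := hT 0 3
  have e21 := hT 1 2
  have e31 := hT 1 3
  have e32 := hT 2 3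
  unfold PfC at h ⊢
  rw [← h]
  fin_cases p <;> fin_cases q <;> (first | exact absurd rfl h1 | skip)
  all_goals (fin_cases r <;> (first | exact absurd rfl h2 | exact absurd rfl h4 | skip))
  all_goals (fin_cases s <;> (first | exact absurd rfl h3 | exact absurd rfl h5 | exact absurd rfl h6 | skip))
  all_goals
    simp only [Fin.zero_eta, Fin.mk_one, Fin.reduceFinMk, e10, e20, e30, e21, e31, e32]
    try ring

theorem pf9 {a b c d e f : ℤ} (ha : a = 1 ∨ a = -1) (hb : b = 1 ∨ b = -1) (hc : c = 1 ∨ c = -1)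
    (hd : d = 1 ∨ d = -1) (he : e = 1 ∨ e = -1) (hf : f = 1 ∨ f = -1)
    (h : (a * f - b * e + c * d) ^ 2 = 9) : b * e * (c * d) = -1 := by
  rcases ha with rfl | rfl <;> rcases hb with rfl | rfl <;> rcases hc with rfl | rfl <;>
    rcases hd with rfl | rfl <;> rcases he with rfl | rfl <;> rcases hf with rfl | rfl <;>
    revert h <;> norm_num

theorem wt_eq {a b c d e f : ℤ} (ha : a = 1 ∨ a = -1) (hb : b = 1 ∨ b = -1) (hc : c = 1 ∨ c = -1)
    (hd : d = 1 ∨ d = -1) (he : e = 1 ∨ e = -1) (hf : f = 1 ∨ f = -1) :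
    wt a b c d e f = if (a * f - b * e + c * d) ^ 2 = 9 then 4 else 0 := by
  rcases ha with rfl | rfl <;> rcases hb with rfl | rfl <;> rcases hc with rfl | rfl <;>
    rcases hd with rfl | rfl <;> rcases he with rfl | rfl <;> rcases hf with rfl | rfl <;>
    norm_num [wt]

/-- the edges -/
noncomputable def GG (q M t : ℕ) [Fact q.Prime] : Finset (Finset (VV q M t)) := by
  classical
  exact univ.filter (fun e => e.card = 4 ∧ (∀ i, (e.filter (fun v => v.1 = i)).card ≤ 1) ∧
    ∀ w ∈ e, ∀ x ∈ e, ∀ y ∈ e, ∀ z ∈ e, w ≠ x → w ≠ y → w ≠ z → x ≠ y → x ≠ z → y ≠ z →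
      PfC (tau q M t) w x y z)

theorem mem_GG (q M t : ℕ) [Fact q.Prime] (e : Finset (VV q M t)) : e ∈ GG q M t ↔
    e.card = 4 ∧ (∀ i, (e.filter (fun v => v.1 = i)).card ≤ 1) ∧
    ∀ w ∈ e, ∀ x ∈ e, ∀ y ∈ e, ∀ z ∈ e, w ≠ x → w ≠ y → w ≠ z → x ≠ y → x ≠ z → y ≠ z →
      PfC (tau q M t) w x y z := by
  classical
  unfold GG
  rw [mem_filter]
  simp only [mem_univ, true_and]

theorem GG_partite (q M t : ℕ) [Fact q.Prime] :
    IsPartite 4 t (fun _ => q * (M + 1)) (GG q M t) := by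
  refine ⟨fun _ => Nat.mul_pos (Fact.out (p := q.Prime)).pos (Nat.succ_pos M), ?_⟩
  intro e he
  rw [mem_GG] at he
  exact ⟨he.1, he.2.1⟩

theorem GG_free (q M t : ℕ) [Fact q.Prime] : ¬ Contains E3 (fun _ => q * (M + 1)) (GG q M t) := by
  rintro ⟨f, hf, hE⟩
  have k1 := (mem_GG q M t _).1 (hE {0, 1, 2, 3} (by decide))
  have k2 := (mem_GG q M t _).1 (hE {0, 1, 2, 4} (by decide))
  have k3 := (mem_GG q M t _).1 (hE {0, 1, 3, 4} (by decide))
  have parts : ∀ (E : Finset (Fin 5)), (∀ i, ((E.image f).filter (fun v => v.1 = i)).card ≤ 1) →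
      ∀ a ∈ E, ∀ b ∈ E, a ≠ b → (f a).1 ≠ (f b).1 := by
    intro E h a ha b hb hab heq
    have := card_le_one.1 (h (f a).1) (f a) (by rw [mem_filter]; exact ⟨mem_image_of_mem f ha, rfl⟩)
      (f b) (by rw [mem_filter]; exact ⟨mem_image_of_mem f hb, heq.symm⟩)
    exact hab (hf this)
  have p1 := parts _ k1.2.1
  have p2 := parts _ k2.2.1
  have p3 := parts _ k3.2.1
  set T := tau q M t with hT
  have s01 : T (f 0) (f 1) = 1 ∨ T (f 0) (f 1) = -1 :=
    tau_sign q M t _ _ (p1 0 (by decide) 1 (by decide) (by decide))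
  have s02 : T (f 0) (f 2) = 1 ∨ T (f 0) (f 2) = -1 :=
    tau_sign q M t _ _ (p1 0 (by decide) 2 (by decide) (by decide))
  have s03 : T (f 0) (f 3) = 1 ∨ T (f 0) (f 3) = -1 :=
    tau_sign q M t _ _ (p1 0 (by decide) 3 (by decide) (by decide))
  have s04 : T (f 0) (f 4) = 1 ∨ T (f 0) (f 4) = -1 :=
    tau_sign q M t _ _ (p2 0 (by decide) 4 (by decide) (by decide))
  have s12 : T (f 1) (f 2) = 1 ∨ T (f 1) (f 2) = -1 :=
    tau_sign q M t _ _ (p1 1 (by decide) 2 (by decide) (by decide))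
  have s13 : T (f 1) (f 3) = 1 ∨ T (f 1) (f 3) = -1 :=
    tau_sign q M t _ _ (p1 1 (by decide) 3 (by decide) (by decide))
  have s14 : T (f 1) (f 4) = 1 ∨ T (f 1) (f 4) = -1 :=
    tau_sign q M t _ _ (p2 1 (by decide) 4 (by decide) (by decide))
  have s23 : T (f 2) (f 3) = 1 ∨ T (f 2) (f 3) = -1 :=
    tau_sign q M t _ _ (p1 2 (by decide) 3 (by decide) (by decide))
  have s24 : T (f 2) (f 4) = 1 ∨ T (f 2) (f 4) = -1 :=
    tau_sign q M t _ _ (p2 2 (by decide) 4 (by decide) (by decide))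
  have s34 : T (f 3) (f 4) = 1 ∨ T (f 3) (f 4) = -1 :=
    tau_sign q M t _ _ (p3 3 (by decide) 4 (by decide) (by decide))
  have inj : ∀ a b : Fin 5, a ≠ b → f a ≠ f b := fun a b h h' => h (hf h')
  have c1 : PfC T (f 0) (f 1) (f 2) (f 3) :=
    k1.2.2 _ (mem_image_of_mem f (by decide)) _ (mem_image_of_mem f (by decide))
      _ (mem_image_of_mem f (by decide)) _ (mem_image_of_mem f (by decide))
      (inj _ _ (by decide)) (inj _ _ (by decide)) (inj _ _ (by decide)) (inj _ _ (by decide))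
      (inj _ _ (by decide)) (inj _ _ (by decide))
  have c2 : PfC T (f 0) (f 1) (f 2) (f 4) :=
    k2.2.2 _ (mem_image_of_mem f (by decide)) _ (mem_image_of_mem f (by decide))
      _ (mem_image_of_mem f (by decide)) _ (mem_image_of_mem f (by decide))
      (inj _ _ (by decide)) (inj _ _ (by decide)) (inj _ _ (by decide)) (inj _ _ (by decide))
      (inj _ _ (by decide)) (inj _ _ (by decide))
  have c3 : PfC T (f 0) (f 1) (f 3) (f 4) :=
    k3.2.2 _ (mem_image_of_mem f (by decide)) _ (mem_image_of_mem f (by decide))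
      _ (mem_image_of_mem f (by decide)) _ (mem_image_of_mem f (by decide))
      (inj _ _ (by decide)) (inj _ _ (by decide)) (inj _ _ (by decide)) (inj _ _ (by decide))
      (inj _ _ (by decide)) (inj _ _ (by decide))
  have d1 := pf9 s01 s02 s03 s12 s13 s23 c1
  have d2 := pf9 s01 s02 s04 s12 s14 s24 c2
  have d3 := pf9 s01 s03 s04 s13 s14 s34 c3
  have e : (T (f 0) (f 2) * T (f 1) (f 3) * T (f 0) (f 3) * T (f 1) (f 2) * T (f 1) (f 4) *
      T (f 0) (f 4)) ^ 2 = -1 := by
    calc _ = (T (f 0) (f 2) * T (f 1) (f 3) * (T (f 0) (f 3) * T (f 1) (f 2))) *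
          (T (f 0) (f 2) * T (f 1) (f 4) * (T (f 0) (f 4) * T (f 1) (f 2))) *
          (T (f 0) (f 3) * T (f 1) (f 4) * (T (f 0) (f 4) * T (f 1) (f 3))) := by ring
      _ = -1 := by rw [d1, d2, d3]; norm_num
  nlinarith [sq_nonneg (T (f 0) (f 2) * T (f 1) (f 3) * T (f 0) (f 3) * T (f 1) (f 2) *
    T (f 1) (f 4) * T (f 0) (f 4))]

/-- counting the edges with given parts -/
theorem GG_count (q M t : ℕ) [Fact q.Prime] (hq : q % 4 = 3) (hqt : 3 * t ^ 2 < q)
    (I : Finset (Fin t)) (hI : I.card = 4) :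
    ((M : ℤ) + 1) ^ 4 * (q ^ 4 + q ^ 2) ≤ 4 * ((GG q M t).filter
      (fun e => ∀ i ∈ I, (e.filter (fun v => v.1 = i)).card = 1)).card := by
  classical
  set ι := I.orderEmbOfFin hI with hι
  have hI' : univ.image ι = I := image_orderEmbOfFin_univ I hI
  set N := q * (M + 1) with hN
  -- vertices
  let φ : (Fin N × Fin N × Fin N × Fin N) → Fin 4 → VV q M t :=
    fun p j => ⟨ι j, (![p.1, p.2.1, p.2.2.1, p.2.2.2] : Fin 4 → Fin N) j⟩
  have hφ1 : ∀ p j, (φ p j).1 = ι j := fun p j => rfl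
  have hφinj : ∀ p, Function.Injective (φ p) := by
    intro p i j hij
    have : ι i = ι j := congrArg Sigma.fst hij
    exact ι.injective this
  set S := (univ : Finset (Fin N × Fin N × Fin N × Fin N)).filter
    (fun p => PfC (tau q M t) (φ p 0) (φ p 1) (φ p 2) (φ p 3)) with hS
  have hcard : S.card ≤ ((GG q M t).filter
      (fun e => ∀ i ∈ I, (e.filter (fun v => v.1 = i)).card = 1)).card := by
    refine card_le_card_of_injOn (fun p => univ.image (φ p)) ?_ ?_
    · intro p hp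
      rw [mem_coe, hS, mem_filter] at hp
      rw [mem_coe, mem_filter, mem_GG]
      have hfil : ∀ i, ((univ.image (φ p)).filter (fun v => v.1 = ι i)) = {φ p i} := by
        intro i
        ext v
        rw [mem_filter, mem_image, mem_singleton]
        constructor
        · rintro ⟨⟨j, _, rfl⟩, hj⟩
          have : ι j = ι i := hj
          rw [ι.injective this]
        · rintro rfl
          exact ⟨⟨i, mem_univ _, rfl⟩, rfl⟩
      refine ⟨⟨?_, ?_, ?_⟩, ?_⟩
      · rw [card_image_of_injective _ (hφinj p)]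
        rfl
      · intro i
        by_cases hi : i ∈ I
        · rw [← hI', mem_image] at hi
          obtain ⟨j, _, rfl⟩ := hi
          rw [hfil]
          simp
        · have : ((univ.image (φ p)).filter (fun v => v.1 = i)) = ∅ := by
            rw [filter_eq_empty_iff]
            intro v hv hvi
            rw [mem_image] at hv
            obtain ⟨j, _, rfl⟩ := hv
            apply hi
            rw [← hI', mem_image]
            exact ⟨j, mem_univ _, hvi⟩
          rw [this]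
          simp
      · intro w hw x hx y hy z hz h1 h2 h3 h4 h5 h6
        rw [mem_image] at hw hx hy hz
        obtain ⟨a, _, rfl⟩ := hw
        obtain ⟨b, _, rfl⟩ := hx
        obtain ⟨c, _, rfl⟩ := hy
        obtain ⟨d, _, rfl⟩ := hz
        have := perm_pf (fun i j => tau q M t (φ p i) (φ p j)) (fun i j => tau_skew q M t _ _)
          hp.2 a b c d (fun h => h1 (congrArg _ h)) (fun h => h2 (congrArg _ h))
          (fun h => h3 (congrArg _ h)) (fun h => h4 (congrArg _ h))
          (fun h => h5 (congrArg _ h)) (fun h => h6 (congrArg _ h))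
        exact this
      · intro i hi
        rw [← hI', mem_image] at hi
        obtain ⟨j, _, rfl⟩ := hi
        rw [hfil]
        simp
    · intro p _ p' _ hpp
      have hpp' : univ.image (φ p) = univ.image (φ p') := hpp
      have h1 : ∀ j, φ p j = φ p' j := by
        intro j
        have h2 : φ p j ∈ univ.image (φ p') := by
          rw [← hpp']; exact mem_image_of_mem _ (mem_univ _)
        rw [mem_image] at h2
        obtain ⟨j', _, hj'⟩ := h2
        have h3 : ι j' = ι j := congrArg Sigma.fst hj'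
        have h4 : j' = j := ι.injective h3
        rw [h4] at hj'
        exact hj'.symm
      have h2 : ∀ j, (![p.1, p.2.1, p.2.2.1, p.2.2.2] : Fin 4 → Fin N) j =
          (![p'.1, p'.2.1, p'.2.2.1, p'.2.2.2] : Fin 4 → Fin N) j := by
        intro j
        exact eq_of_heq (Sigma.mk.inj (h1 j)).2
      have a0 := h2 0
      have a1 := h2 1
      have a2 := h2 2
      have a3 := h2 3
      obtain ⟨x0, x1, x2, x3⟩ := p
      obtain ⟨y0, y1, y2, y3⟩ := p'
      simp only [Matrix.cons_val_zero, Matrix.cons_val_one, Matrix.cons_val] at a0 a1 a2 a3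
      rw [a0, a1, a2, a3]
  have hlt : ∀ i j : Fin 4, i < j → ι i < ι j := fun i j h => ι.strictMono h
  -- the sum of the weights
  have hsum : (4 : ℤ) * S.card = ∑ a : Fin N, ∑ b : Fin N, ∑ c : Fin N, ∑ d : Fin N,
      wt (g q (rho q M b - rho q M a + (((ι 0).val * (ι 1).val : ℕ) : ZMod q)))
        (g q (rho q M c - rho q M a + (((ι 0).val * (ι 2).val : ℕ) : ZMod q)))
        (g q (rho q M d - rho q M a + (((ι 0).val * (ι 3).val : ℕ) : ZMod q)))
        (g q (rho q M c - rho q M b + (((ι 1).val * (ι 2).val : ℕ) : ZMod q)))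
        (g q (rho q M d - rho q M b + (((ι 1).val * (ι 3).val : ℕ) : ZMod q)))
        (g q (rho q M d - rho q M c + (((ι 2).val * (ι 3).val : ℕ) : ZMod q))) := by
    rw [hS, card_filter, Nat.cast_sum]
    simp only [Nat.cast_ite, Nat.cast_one, Nat.cast_zero]
    rw [mul_sum, Fintype.sum_prod_type]
    refine sum_congr rfl (fun a _ => ?_)
    rw [Fintype.sum_prod_type]
    refine sum_congr rfl (fun b _ => ?_)
    rw [Fintype.sum_prod_type]
    refine sum_congr rfl (fun c _ => sum_congr rfl (fun d _ => ?_))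
    rw [wt_eq (g_sq _) (g_sq _) (g_sq _) (g_sq _) (g_sq _) (g_sq _)]
    have t01 : tau q M t (φ (a, b, c, d) 0) (φ (a, b, c, d) 1) =
        g q (rho q M b - rho q M a + (((ι 0).val * (ι 1).val : ℕ) : ZMod q)) := by
      unfold tau
      rw [if_pos (hlt 0 1 (by decide))]
      rfl
    have t02 : tau q M t (φ (a, b, c, d) 0) (φ (a, b, c, d) 2) =
        g q (rho q M c - rho q M a + (((ι 0).val * (ι 2).val : ℕ) : ZMod q)) := by
      unfold tau
      rw [if_pos (hlt 0 2 (by decide))]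
      rfl
    have t03 : tau q M t (φ (a, b, c, d) 0) (φ (a, b, c, d) 3) =
        g q (rho q M d - rho q M a + (((ι 0).val * (ι 3).val : ℕ) : ZMod q)) := by
      unfold tau
      rw [if_pos (hlt 0 3 (by decide))]
      rfl
    have t12 : tau q M t (φ (a, b, c, d) 1) (φ (a, b, c, d) 2) =
        g q (rho q M c - rho q M b + (((ι 1).val * (ι 2).val : ℕ) : ZMod q)) := by
      unfold tau
      rw [if_pos (hlt 1 2 (by decide))]
      rfl
    have t13 : tau q M t (φ (a, b, c, d) 1) (φ (a, b, c, d) 3) =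
        g q (rho q M d - rho q M b + (((ι 1).val * (ι 3).val : ℕ) : ZMod q)) := by
      unfold tau
      rw [if_pos (hlt 1 3 (by decide))]
      rfl
    have t23 : tau q M t (φ (a, b, c, d) 2) (φ (a, b, c, d) 3) =
        g q (rho q M d - rho q M c + (((ι 2).val * (ι 3).val : ℕ) : ZMod q)) := by
      unfold tau
      rw [if_pos (hlt 2 3 (by decide))]
      rfl
    unfold PfC
    rw [t01, t02, t03, t12, t13, t23]
    split_ifs <;> norm_num
  have hred : ∑ a : Fin N, ∑ b : Fin N, ∑ c : Fin N, ∑ d : Fin N,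
      wt (g q (rho q M b - rho q M a + (((ι 0).val * (ι 1).val : ℕ) : ZMod q)))
        (g q (rho q M c - rho q M a + (((ι 0).val * (ι 2).val : ℕ) : ZMod q)))
        (g q (rho q M d - rho q M a + (((ι 0).val * (ι 3).val : ℕ) : ZMod q)))
        (g q (rho q M c - rho q M b + (((ι 1).val * (ι 2).val : ℕ) : ZMod q)))
        (g q (rho q M d - rho q M b + (((ι 1).val * (ι 3).val : ℕ) : ZMod q)))
        (g q (rho q M d - rho q M c + (((ι 2).val * (ι 3).val : ℕ) : ZMod q))) =
      ((M : ℤ) + 1) ^ 4 * ∑ a : ZMod q, ∑ b : ZMod q, ∑ c : ZMod q, ∑ d : ZMod q,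
      wt (g q (b - a + (((ι 0).val * (ι 1).val : ℕ) : ZMod q)))
        (g q (c - a + (((ι 0).val * (ι 2).val : ℕ) : ZMod q)))
        (g q (d - a + (((ι 0).val * (ι 3).val : ℕ) : ZMod q)))
        (g q (c - b + (((ι 1).val * (ι 2).val : ℕ) : ZMod q)))
        (g q (d - b + (((ι 1).val * (ι 3).val : ℕ) : ZMod q)))
        (g q (d - c + (((ι 2).val * (ι 3).val : ℕ) : ZMod q))) := by
    generalize (((ι 0).val * (ι 1).val : ℕ) : ZMod q) = u1
    generalize (((ι 0).val * (ι 2).val : ℕ) : ZMod q) = u2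
    generalize (((ι 0).val * (ι 3).val : ℕ) : ZMod q) = u3
    generalize (((ι 1).val * (ι 2).val : ℕ) : ZMod q) = u4
    generalize (((ι 1).val * (ι 3).val : ℕ) : ZMod q) = u5
    generalize (((ι 2).val * (ι 3).val : ℕ) : ZMod q) = u6
    set F : ZMod q → ZMod q → ZMod q → ZMod q → ℤ := fun a b c d =>
      wt (g q (b - a + u1)) (g q (c - a + u2)) (g q (d - a + u3)) (g q (c - b + u4))
        (g q (d - b + u5)) (g q (d - c + u6)) with hF
    calc _ = ∑ a : Fin N, ∑ b : Fin N, ∑ c : Fin N, ∑ d : Fin N,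
          F (rho q M a) (rho q M b) (rho q M c) (rho q M d) := rfl
      _ = ∑ a : Fin N, ∑ b : Fin N, ∑ c : Fin N,
          ((M : ℤ) + 1) * ∑ d, F (rho q M a) (rho q M b) (rho q M c) d := by
          refine sum_congr rfl (fun a _ => sum_congr rfl (fun b _ => sum_congr rfl (fun c _ => ?_)))
          exact sum_rho q M (fun d => F (rho q M a) (rho q M b) (rho q M c) d)
      _ = ∑ a : Fin N, ∑ b : Fin N, ((M : ℤ) + 1) *
          (((M : ℤ) + 1) * ∑ c, ∑ d, F (rho q M a) (rho q M b) c d) := by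
          refine sum_congr rfl (fun a _ => sum_congr rfl (fun b _ => ?_))
          rw [← mul_sum]
          congr 1
          exact sum_rho q M (fun c => ∑ d, F (rho q M a) (rho q M b) c d)
      _ = ∑ a : Fin N, ((M : ℤ) + 1) * (((M : ℤ) + 1) *
          (((M : ℤ) + 1) * ∑ b, ∑ c, ∑ d, F (rho q M a) b c d)) := by
          refine sum_congr rfl (fun a _ => ?_)
          rw [← mul_sum, ← mul_sum]
          congr 2
          exact sum_rho q M (fun b => ∑ c, ∑ d, F (rho q M a) b c d)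
      _ = ((M : ℤ) + 1) * (((M : ℤ) + 1) * (((M : ℤ) + 1) *
          (((M : ℤ) + 1) * ∑ a, ∑ b, ∑ c, ∑ d, F a b c d))) := by
          rw [← mul_sum, ← mul_sum, ← mul_sum]
          congr 3
          exact sum_rho q M (fun a => ∑ b, ∑ c, ∑ d, F a b c d)
      _ = _ := by ring
  -- the six shifts
  have b0 := (ι 0).isLt
  have b1 := (ι 1).isLt
  have b2 := (ι 2).isLt
  have b3 := (ι 3).isLt
  have l01 : (ι 0).val < (ι 1).val := hlt 0 1 (by decide)
  have l12 : (ι 1).val < (ι 2).val := hlt 1 2 (by decide)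
  have l23 : (ι 2).val < (ι 3).val := hlt 2 3 (by decide)
  have hcast : ∀ x y : ℕ, x < y → y < q → (x : ZMod q) ≠ (y : ZMod q) := by
    intro x y hxy hy h
    rw [ZMod.natCast_eq_natCast_iff', Nat.mod_eq_of_lt (hxy.trans hy), Nat.mod_eq_of_lt hy] at h
    omega
  generalize hi : (ι 0).val = i at *
  generalize hj : (ι 1).val = j at *
  generalize hk : (ι 2).val = k at *
  generalize hl : (ι 3).val = l at *
  have key := four_sum hq ((i * j : ℕ) : ZMod q) ((i * k : ℕ) : ZMod q) ((i * l : ℕ) : ZMod q)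
    ((j * k : ℕ) : ZMod q) ((j * l : ℕ) : ZMod q) ((k * l : ℕ) : ZMod q) ?_ ?_ ?_
  · calc ((M : ℤ) + 1) ^ 4 * (q ^ 4 + q ^ 2) ≤ _ := mul_le_mul_of_nonneg_left key (by positivity)
      _ = 4 * (S.card : ℤ) := by rw [hsum, hred]
      _ ≤ _ := by exact_mod_cast Nat.mul_le_mul_left 4 hcard
  · rw [← Nat.cast_add, ← Nat.cast_add]
    have m1 : i * k ≤ t * t := Nat.mul_le_mul b0.le b2.le
    have m2 : k * l ≤ t * t := Nat.mul_le_mul b2.le b3.le
    have m3 : j * (i + l) < k * (i + l) := Nat.mul_lt_mul_of_pos_right l12 (by omega)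
    refine hcast _ _ ?_ ?_
    · linarith
    · rw [pow_two] at hqt
      linarith
  · intro h
    rw [eq_sub_iff_add_eq, ← Nat.cast_add, ← Nat.cast_add] at h
    have m1 : i * j ≤ t * t := Nat.mul_le_mul b0.le b1.le
    have m2 : j * k ≤ t * t := Nat.mul_le_mul b1.le b2.le
    have m3 : k * l ≤ t * t := Nat.mul_le_mul b2.le b3.le
    have m4 : i * l < k * l := Nat.mul_lt_mul_of_pos_right (l01.trans l12) (by omega)
    refine hcast _ _ ?_ ?_ h.symm
    · omega
    · rw [pow_two] at hqt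
      linarith
  · intro h
    rw [sub_eq_iff_eq_add, sub_add_eq_add_sub, eq_sub_iff_add_eq, ← Nat.cast_add, ← Nat.cast_add] at h
    have m1 : i * k ≤ t * t := Nat.mul_le_mul b0.le b2.le
    have m2 : j * l ≤ t * t := Nat.mul_le_mul b1.le b3.le
    have m3 : i * l + j * k < i * k + j * l := by
      obtain ⟨u, hu⟩ := Nat.exists_eq_add_of_lt l01
      obtain ⟨v, hv⟩ := Nat.exists_eq_add_of_lt l23
      rw [hu, hv]
      have : 0 < (u + 1) * (v + 1) := by positivity
      linarith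
    refine hcast _ _ m3 ?_ h.symm
    rw [pow_two] at hqt
    linarith

/-- all densities are at least `1/4 + 1/(4 q^2)` -/
theorem GG_dens (q M t : ℕ) [Fact q.Prime] (hq : q % 4 = 3) (hqt : 3 * t ^ 2 < q)
    (I : Finset (Fin t)) (hI : I.card = 4) :
    (1 / 4 + 1 / (4 * (q : ℝ) ^ 2)) ≤ dens t (fun _ => q * (M + 1)) (GG q M t) I := by
  have h := GG_count q M t hq hqt I hI
  have hq0 : (0 : ℝ) < q := by exact_mod_cast (Fact.out (p := q.Prime)).pos
  unfold dens
  have hprod : ∏ i ∈ I, (((fun _ => q * (M + 1) : Fin t → ℕ) i : ℕ) : ℝ) =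
      ((q : ℝ) * (M + 1)) ^ 4 := by
    rw [prod_const, hI]
    push_cast
    ring
  rw [hprod, le_div_iff₀ (by positivity)]
  have h2 : ((M : ℝ) + 1) ^ 4 * (q ^ 4 + q ^ 2) ≤ 4 * (((GG q M t).filter
      (fun e => ∀ i ∈ I, (e.filter (fun v => v.1 = i)).card = 1)).card : ℝ) := by
    exact_mod_cast h
  have h3 : (1 / 4 + 1 / (4 * (q : ℝ) ^ 2)) * ((q : ℝ) * (M + 1)) ^ 4 =
      (((M : ℝ) + 1) ^ 4 * (q ^ 4 + q ^ 2)) / 4 := by
    field_simp
  rw [h3]
  linarith

/-- the lower bound for every number of parts -/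
theorem low (t : ℕ) (ht : 5 ≤ t) : ∃ δ : ℝ, 0 < δ ∧ ∀ M, 1 / 4 + δ ≤ dT M 4 t E3 := by
  obtain ⟨q, hq1, hq2, hq3⟩ := Nat.forall_exists_prime_gt_and_modEq (3 * t ^ 2) (q := 4) (a := 3)
    (by norm_num) (by norm_num)
  haveI : Fact q.Prime := ⟨hq2⟩
  have hq : q % 4 = 3 := hq3
  refine ⟨1 / (4 * (q : ℝ) ^ 2), by have := hq2.pos; positivity, ?_⟩
  intro M
  refine le_csInf ?_ ?_
  · refine ⟨1, mem_set M t (by omega) 1 (by norm_num) le_rfl ?_⟩
    have : (5 : ℝ) ≤ t := by exact_mod_cast ht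
    linarith
  · rintro α ⟨h0, h1, h2⟩
    by_contra hlt
    rw [not_le] at hlt
    refine GG_free q M t (h2 _ (GG q M t) (GG_partite q M t) ?_ ?_)
    · intro i
      have : 1 ≤ q := hq2.pos
      show M ≤ q * (M + 1)
      nlinarith
    · intro I hI
      exact hlt.le.trans (GG_dens q M t hq hq1 I hI)

/-- the sequence of partite densities does not stabilise -/
theorem main (t₀ : ℕ) (ht : 5 ≤ t₀) : ∃ t, t₀ < t ∧ ∃ ε : ℝ, 0 < ε ∧
    ∀ M, dT M 4 t E3 + ε ≤ dT M 4 t₀ E3 := by
  obtain ⟨δ, hδ, hlow⟩ := low t₀ ht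
  obtain ⟨k, hk⟩ := exists_nat_gt (2 / δ)
  refine ⟨t₀ + k + 3, by omega, δ / 2, by positivity, ?_⟩
  intro M
  have h1 : dT M 4 (t₀ + k + 3) E3 ≤ min (1 / 4 + δ / 2) 1 := by
    refine dT_le M _ (by omega) _ ?_ (min_le_right _ _) ?_
    · refine le_min (by positivity) (by norm_num)
    · have ht' : (5 : ℝ) ≤ t₀ := by exact_mod_cast ht
      have hk' : 2 < k * δ := by rwa [div_lt_iff₀ hδ] at hk
      push_cast
      rcases min_choice (1 / 4 + δ / 2) 1 with h | h
      · rw [h]
        nlinarith [Nat.cast_nonneg (α := ℝ) k]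
      · rw [h]
        nlinarith [Nat.cast_nonneg (α := ℝ) k]
  have h2 := hlow M
  have h3 := h1.trans (min_le_left _ _)
  linarith

end Pool.Agent.H46R3.Part
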