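import Mathlib

set_option autoImplicit false

/-!
Finite data for the projective plane of order 5: points, linear functionals, and the words
`g h / v` attached to lines.
-/

namespace Pool.Agent.H46R3.Ryser

/-- first coordinate of the `i`-th point of the projective plane over the field with 5 elements -/
def xn (i : ℕ) : ℕ := if i < 25 then 1 else 0
/-- second coordinate -/
def yn (i : ℕ) : ℕ := if i < 25 then i / 5 else if i < 30 then 1 else 0
/-- third coordinate -/
def zn (i : ℕ) : ℕ := if i < 25 then i % 5 else if i < 30 then i - 25 else 1

/-- value of the functional `(a, b, c)` at the `i`-th point -/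
def fn (a b c i : ℕ) : ℕ := (a * xn i + b * yn i + c * zn i) % 5

/-- value of the `k`-th normalized functional at the `i`-th point -/
def ln (k i : ℕ) : ℕ := fn (xn k) (yn k) (zn k) i

/-- the word attached to the `k`-th line; the symbol `5` is used on the line -/
def wn (k i : ℕ) : ℕ :=
  if ln k i = 0 then 5 else
    ((if k < 25 then yn i * zn i else if k < 30 then xn i * zn i else xn i * yn i)
      * (ln k i) ^ 3) % 5

/-- counting by recursion -/
def cnt (P : ℕ → Bool) : ℕ → ℕ
  | 0 => 0
  | n + 1 => cnt P n + (if P n then 1 else 0)

/-- checking by recursion -/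
def allb (P : ℕ → Bool) : ℕ → Bool
  | 0 => true
  | n + 1 => P n && allb P n

/-- search by recursion -/
def anyb (P : ℕ → Bool) : ℕ → Bool
  | 0 => false
  | n + 1 => P n || anyb P n

theorem allb_spec (P : ℕ → Bool) (n : ℕ) (h : allb P n = true) : ∀ i < n, P i = true := by
  induction n with
  | zero => intro i hi; omega
  | succ n ih =>
    intro i hi
    simp only [allb, Bool.and_eq_true] at h
    rcases Nat.lt_succ_iff_lt_or_eq.1 hi with h1 | h1
    · exact ih h.2 i h1
    · rw [h1]; exact h.1

theorem anyb_spec (P : ℕ → Bool) (n : ℕ) (h : anyb P n = true) : ∃ i < n, P i = true := by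
  induction n with
  | zero => simp [anyb] at h
  | succ n ih =>
    simp only [anyb, Bool.or_eq_true] at h
    rcases h with h | h
    · exact ⟨n, by omega, h⟩
    · obtain ⟨i, hi, hi'⟩ := ih h
      exact ⟨i, by omega, hi'⟩

theorem cnt_eq (P : ℕ → Bool) (n : ℕ) :
    (Finset.univ.filter (fun i : Fin n => P i.val = true)).card = cnt P n := by
  have h1 : (Finset.univ.filter (fun i : Fin n => P i.val = true)).card =
      ((Finset.range n).filter (fun i => P i = true)).card := by
    refine Finset.card_bij (fun i _ => i.val) ?_ ?_ ?_
    · intro i hi
      simp only [Finset.mem_filter, Finset.mem_univ, true_and] at hi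
      simp [hi]
    · intro i _ j _ h
      exact Fin.ext h
    · intro j hj
      simp only [Finset.mem_filter, Finset.mem_range] at hj
      exact ⟨⟨j, hj.1⟩, by simp [hj.2], rfl⟩
  rw [h1]
  induction n with
  | zero => simp [cnt]
  | succ n ih =>
    have h2 : (Finset.univ.filter (fun i : Fin n => P i.val = true)).card =
      ((Finset.range n).filter (fun i => P i = true)).card := by
      refine Finset.card_bij (fun i _ => i.val) ?_ ?_ ?_
      · intro i hi
        simp only [Finset.mem_filter, Finset.mem_univ, true_and] at hi
        simp [hi]
      · intro i _ j _ h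
        exact Fin.ext h
      · intro j hj
        simp only [Finset.mem_filter, Finset.mem_range] at hj
        exact ⟨⟨j, hj.1⟩, by simp [hj.2], rfl⟩
    rw [Finset.range_add_one, Finset.filter_insert]
    by_cases hP : P n = true
    · rw [if_pos hP, Finset.card_insert_of_notMem (by simp), ih h2]
      simp [cnt, hP]
    · rw [if_neg hP, ih h2]
      simp [cnt, hP]

/-- every functional has at least 6 zeros -/
theorem d1 : allb (fun a => allb (fun b => allb (fun c =>
    Nat.ble 6 (cnt (fun i => Nat.beq (fn a b c i) 0) 31)) 5) 5) 5 = true := by decide +kernel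

/-- the word of a line agrees with every functional in at least 4 points -/
theorem d2 : allb (fun k => allb (fun a => allb (fun b => allb (fun c =>
    Nat.ble 4 (cnt (fun i => Nat.beq (wn k i) (fn a b c i)) 31)) 5) 5) 5) 31 = true := by
  decide +kernel

/-- the word of a line has at least 9 zeros -/
theorem d3 : allb (fun k => Nat.ble 9 (cnt (fun i => Nat.beq (wn k i) 0) 31)) 31 = true := by
  decide +kernel

/-- two words of lines agree in at least two points -/
theorem d4 : allb (fun k => allb (fun l =>
    Nat.ble 2 (cnt (fun i => Nat.beq (wn k i) (wn l i)) 31)) 31) 31 = true := by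
  decide +kernel

/-- every nonzero functional vanishes on one of the lines only -/
theorem d5 : allb (fun a => allb (fun b => allb (fun c =>
    (Nat.beq (a + b + c) 0) || anyb (fun k => allb (fun i =>
      !(Nat.beq (fn a b c i) 0) || Nat.beq (ln k i) 0) 31) 31) 5) 5) 5 = true := by decide +kernel

/-- two distinct points can be separated -/
theorem d7 : allb (fun i => allb (fun j => Nat.beq i j || anyb (fun a => anyb (fun b =>
    anyb (fun c => Nat.beq (fn a b c i) 1 && Nat.beq (fn a b c j) 0) 5) 5) 5) 31) 31 = true := by
  decide +kernel

end Pool.Agent.H46R3.Ryser
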