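import Mathlib
import Pool.Agent.H46R3.RyserCount

set_option autoImplicit false
set_option linter.constructorNameAsVariable false

/-!
A 2-intersecting 31-partite hypergraph with cover number at least 16.
-/

namespace Pool.Agent.H46R3.Ryser

open Finset

theorem nbeq (a b : ℕ) : Nat.beq a b = true ↔ a = b :=
  ⟨Nat.eq_of_beq_eq_true, fun h => by subst h; exact Nat.beq_refl a⟩

/-- functionals -/
abbrev V := ZMod 5 × ZMod 5 × ZMod 5

/-- value of a functional at the `i`-th point -/
def f (v : V) (i : Fin 31) : ZMod 5 := v.1 * (xn i : ZMod 5) + v.2.1 * (yn i : ZMod 5) +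
  v.2.2 * (zn i : ZMod 5)

theorem f_val (v : V) (i : Fin 31) : (f v i).val = fn v.1.val v.2.1.val v.2.2.val i := by
  have h : f v i = ((v.1.val * xn i + v.2.1.val * yn i + v.2.2.val * zn i : ℕ) : ZMod 5) := by
    unfold f
    push_cast
    simp only [ZMod.natCast_val, ZMod.cast_id', id_eq]
  rw [h, ZMod.val_natCast]
  rfl

theorem f_add (u v : V) (i : Fin 31) : f (u + v) i = f u i + f v i := by
  simp only [f, Prod.fst_add, Prod.snd_add]; ring

theorem f_sub (u v : V) (i : Fin 31) : f (u - v) i = f u i - f v i := by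
  simp only [f, Prod.fst_sub, Prod.snd_sub]; ring

theorem f_smul (c : ZMod 5) (v : V) (i : Fin 31) : f (c • v) i = c * f v i := by
  simp only [f, Prod.smul_fst, Prod.smul_snd, smul_eq_mul]; ring

/-- number of agreements of two words -/
def agr (e e' : Fin 31 → ℕ) : ℕ := (univ.filter (fun i => e i = e' i)).card

/-- codeword -/
def cw (v : V) : Fin 31 → ℕ := fun i => (f v i).val

theorem agr_comm (e e' : Fin 31 → ℕ) : agr e e' = agr e' e := by
  unfold agr; congr 1; ext i; simp [eq_comm]

theorem agr_near (e e' g : Fin 31 → ℕ) (h : (univ.filter (fun i => e i ≠ g i)).card ≤ 2) :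
    agr g e' ≤ agr e e' + 2 := by
  unfold agr
  have h1 : univ.filter (fun i => g i = e' i) ⊆
      univ.filter (fun i => e i = e' i) ∪ univ.filter (fun i => e i ≠ g i) := by
    intro i hi
    simp only [mem_filter, mem_univ, true_and, mem_union] at hi ⊢
    by_cases h2 : e i = g i
    · left; rw [h2, hi]
    · right; exact h2
  calc _ ≤ _ := card_le_card h1
    _ ≤ _ := card_union_le _ _
    _ ≤ _ := by omega

theorem cw_agr (u v : V) : 6 ≤ agr (cw u) (cw v) := by
  have h0 : ∀ i : Fin 31, cw u i = cw v i ↔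
      Nat.beq (fn (u - v).1.val (u - v).2.1.val (u - v).2.2.val i) 0 = true := by
    intro i
    rw [nbeq, ← f_val]
    rw [ZMod.val_eq_zero, f_sub, sub_eq_zero]
    constructor
    · intro h; exact ZMod.val_injective 5 h
    · intro h; exact congrArg ZMod.val h
  have h : agr (cw u) (cw v) =
      (univ.filter (fun i : Fin 31 =>
        Nat.beq (fn (u - v).1.val (u - v).2.1.val (u - v).2.2.val i) 0 = true)).card :=
    congrArg Finset.card (Finset.filter_congr (fun i _ => h0 i))
  rw [h, cnt_eq (fun i => Nat.beq (fn (u - v).1.val (u - v).2.1.val (u - v).2.2.val i) 0)]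
  have h1 := allb_spec _ _ d1 _ (ZMod.val_lt (u - v).1)
  have h2 := allb_spec _ _ h1 _ (ZMod.val_lt (u - v).2.1)
  have h3 := allb_spec _ _ h2 _ (ZMod.val_lt (u - v).2.2)
  exact Nat.le_of_ble_eq_true h3

/-- word of a line -/
def wk (k : Fin 31) : Fin 31 → ℕ := fun i => wn k i

theorem wk_agr_cw (k : Fin 31) (v : V) : 4 ≤ agr (cw v) (wk k) := by
  have h0 : ∀ i : Fin 31, cw v i = wk k i ↔
      Nat.beq (wn k i) (fn v.1.val v.2.1.val v.2.2.val i) = true := by
    intro i
    rw [nbeq, ← f_val]
    exact eq_comm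
  have h : agr (cw v) (wk k) =
      (univ.filter (fun i : Fin 31 =>
        Nat.beq (wn k i) (fn v.1.val v.2.1.val v.2.2.val i) = true)).card :=
    congrArg Finset.card (Finset.filter_congr (fun i _ => h0 i))
  rw [h, cnt_eq (fun i => Nat.beq (wn k i) (fn v.1.val v.2.1.val v.2.2.val i))]
  have h0 := allb_spec _ _ d2 _ k.2
  have h1 := allb_spec _ _ h0 _ (ZMod.val_lt v.1)
  have h2 := allb_spec _ _ h1 _ (ZMod.val_lt v.2.1)
  have h3 := allb_spec _ _ h2 _ (ZMod.val_lt v.2.2)
  exact Nat.le_of_ble_eq_true h3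

theorem wk_agr_wk (k l : Fin 31) : 2 ≤ agr (wk k) (wk l) := by
  have h0 : ∀ i : Fin 31, wk k i = wk l i ↔ Nat.beq (wn k i) (wn l i) = true := by
    intro i
    rw [nbeq]
    exact Iff.rfl
  have h : agr (wk k) (wk l) =
      (univ.filter (fun i : Fin 31 => Nat.beq (wn k i) (wn l i) = true)).card :=
    congrArg Finset.card (Finset.filter_congr (fun i _ => h0 i))
  rw [h, cnt_eq (fun i => Nat.beq (wn k i) (wn l i))]
  have h0 := allb_spec _ _ d4 _ k.2
  have h1 := allb_spec _ _ h0 _ l.2
  exact Nat.le_of_ble_eq_true h1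

theorem wk_zeros (k : Fin 31) : 9 ≤ (univ.filter (fun i => wk k i = 0)).card := by
  have h0 : ∀ i : Fin 31, wk k i = 0 ↔ Nat.beq (wn k i) 0 = true := by
    intro i
    rw [nbeq]
    exact Iff.rfl
  have h : (univ.filter (fun i => wk k i = 0)).card =
      (univ.filter (fun i : Fin 31 => Nat.beq (wn k i) 0 = true)).card :=
    congrArg Finset.card (Finset.filter_congr (fun i _ => h0 i))
  rw [h, cnt_eq (fun i => Nat.beq (wn k i) 0)]
  exact Nat.le_of_ble_eq_true (allb_spec _ _ d3 _ k.2)

/-- the `i`-th point is on the `k`-th line -/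
def onl (k i : Fin 31) : Prop := ln k i = 0

/-- the set of points `T` is on no line -/
def NC (T : Finset (Fin 31)) : Prop := ∀ k : Fin 31, ∃ i ∈ T, ¬ onl k i

/-- zero word erased on `T` -/
def wT (T : Finset (Fin 31)) : Fin 31 → ℕ := fun i => if i ∈ T then 5 else 0

theorem exists_line (v : V) (hv : v ≠ 0) : ∃ k : Fin 31, ∀ i : Fin 31, f v i = 0 → onl k i := by
  have h1 := allb_spec _ _ d5 _ (ZMod.val_lt v.1)
  have h2 := allb_spec _ _ h1 _ (ZMod.val_lt v.2.1)
  have h3 := allb_spec _ _ h2 _ (ZMod.val_lt v.2.2)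
  rw [Bool.or_eq_true] at h3
  rcases h3 with h3 | h3
  · exfalso
    apply hv
    have h4 := Nat.eq_of_beq_eq_true h3
    have h5 : v.1.val = 0 := by omega
    have h6 : v.2.1.val = 0 := by omega
    have h7 : v.2.2.val = 0 := by omega
    rw [ZMod.val_eq_zero] at h5 h6 h7
    ext <;> simp [h5, h6, h7]
  · obtain ⟨k, hk, hk'⟩ := anyb_spec _ _ h3
    refine ⟨⟨k, hk⟩, fun i hi => ?_⟩
    have h4 := allb_spec _ _ hk' _ i.2
    rw [Bool.or_eq_true, Bool.not_eq_true'] at h4
    have h5 : fn v.1.val v.2.1.val v.2.2.val i = 0 := by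
      rw [← f_val, hi, ZMod.val_zero]
    rw [h5] at h4
    rcases h4 with h4 | h4
    · simp at h4
    · exact Nat.eq_of_beq_eq_true h4

theorem wT_agr_cw (T : Finset (Fin 31)) (hT : T.card = 3) (hN : NC T) (v : V) :
    4 ≤ agr (cw v) (wT T) := by
  have h6 := cw_agr v 0
  have h0 : ∀ i, cw 0 i = 0 := by intro i; simp [cw, f]
  have hsub : univ.filter (fun i => cw v i = cw 0 i) ⊆
      univ.filter (fun i => cw v i = wT T i) ∪ T.filter (fun i => f v i = 0) := by
    intro i hi
    simp only [mem_filter, mem_univ, true_and, mem_union] at hi ⊢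
    rw [h0 i] at hi
    by_cases hi' : i ∈ T
    · right
      refine ⟨hi', ?_⟩
      unfold cw at hi
      rwa [ZMod.val_eq_zero] at hi
    · left; rw [hi]; simp [wT, hi']
  have hcard := (card_le_card hsub).trans (card_union_le _ _)
  by_cases hv : v = 0
  · subst hv
    have h1 : univ.filter (fun i => cw 0 i = cw 0 i) = (univ : Finset (Fin 31)) := by
      simp
    rw [h1] at hcard
    have h2 : (T.filter (fun i => f 0 i = 0)).card ≤ 3 := by
      rw [← hT]; exact card_filter_le _ _
    have h3 : (univ : Finset (Fin 31)).card = 31 := by simp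
    unfold agr
    omega
  · obtain ⟨k, hk⟩ := exists_line v hv
    obtain ⟨i, hiT, hi⟩ := hN k
    have h2 : (T.filter (fun i => f v i = 0)).card < 3 := by
      rw [← hT]
      apply card_lt_card
      refine ⟨filter_subset _ _, fun hcon => ?_⟩
      have h3 := hcon hiT
      rw [mem_filter] at h3
      exact hi (hk i h3.2)
    unfold agr at h6 ⊢
    omega

theorem agr_zeros (e e' : Fin 31 → ℕ) : (univ.filter (fun i => e i = 0)).card +
    (univ.filter (fun i => e' i = 0)).card ≤ agr e e' + 31 := by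
  unfold agr
  have h := card_union_add_card_inter (univ.filter (fun i => e i = 0))
    (univ.filter (fun i => e' i = 0))
  have h1 : univ.filter (fun i => e i = 0) ∩ univ.filter (fun i => e' i = 0) ⊆
      univ.filter (fun i => e i = e' i) := by
    intro i hi
    simp only [mem_inter, mem_filter, mem_univ, true_and] at hi ⊢
    rw [hi.1, hi.2]
  have h2 := card_le_card h1
  have h3 := card_le_univ (univ.filter (fun i => e i = 0) ∪ univ.filter (fun i => e' i = 0))
  rw [Fintype.card_fin] at h3
  omega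

theorem wT_zeros (T : Finset (Fin 31)) (hT : T.card = 3) :
    28 ≤ (univ.filter (fun i => wT T i = 0)).card := by
  have h1 : univ.filter (fun i => wT T i = 0) = Tᶜ := by
    ext i
    rw [mem_filter, mem_compl]
    by_cases h : i ∈ T <;> simp [wT, h]
  rw [h1, card_compl, hT]
  simp

/-- additional words -/
def isW (w : Fin 31 → ℕ) : Prop :=
  (∃ T : Finset (Fin 31), T.card = 3 ∧ NC T ∧ w = wT T) ∨ ∃ k, w = wk k

theorem isW_cw (w : Fin 31 → ℕ) (hw : isW w) (v : V) : 4 ≤ agr (cw v) w := by
  rcases hw with ⟨T, hT, hN, rfl⟩ | ⟨k, rfl⟩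
  · exact wT_agr_cw T hT hN v
  · exact wk_agr_cw k v

theorem isW_isW (w w' : Fin 31 → ℕ) (hw : isW w) (hw' : isW w') : 2 ≤ agr w w' := by
  have h := agr_zeros w w'
  rcases hw with ⟨T, hT, hN, rfl⟩ | ⟨k, rfl⟩
  · have h1 := wT_zeros T hT
    rcases hw' with ⟨T', hT', hN', rfl⟩ | ⟨k', rfl⟩
    · have h2 := wT_zeros T' hT'
      omega
    · have h2 := wk_zeros k'
      omega
  · have h1 := wk_zeros k
    rcases hw' with ⟨T', hT', hN', rfl⟩ | ⟨k', rfl⟩
    · have h2 := wT_zeros T' hT'
      omega
    · exact wk_agr_wk k k'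

/-- words at distance at most 2 from a codeword -/
def near (e : Fin 31 → ℕ) : Prop := ∃ v : V, (univ.filter (fun i => e i ≠ cw v i)).card ≤ 2

open Classical in
/-- the hypergraph -/
noncomputable def HH : Finset (Fin 31 → ℕ) :=
  (Fintype.piFinset (fun _ : Fin 31 => Finset.range 21)).filter (fun e => near e ∨ isW e)

theorem mem_HH (e : Fin 31 → ℕ) : e ∈ HH ↔ (∀ i, e i < 21) ∧ (near e ∨ isW e) := by
  classical
  have h : e ∈ Fintype.piFinset (fun _ : Fin 31 => Finset.range 21) ↔ ∀ i, e i < 21 := by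
    rw [Fintype.mem_piFinset]
    exact forall_congr' (fun i => mem_range)
  rw [← h]
  exact mem_filter

attribute [irreducible] HH

theorem HH_int (e : Fin 31 → ℕ) (he : e ∈ HH) (e' : Fin 31 → ℕ) (he' : e' ∈ HH) :
    2 ≤ agr e e' := by
  rw [mem_HH] at he he'
  rcases he.2 with ⟨u, hu⟩ | hw
  · rcases he'.2 with ⟨v, hv⟩ | hw'
    · have h1 := agr_near e e' (cw u) hu
      have h2 := agr_near e' (cw u) (cw v) hv
      have h3 := cw_agr v u
      rw [agr_comm e' (cw u)] at h2
      omega
    · have h1 := agr_near e e' (cw u) hu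
      have h2 := isW_cw e' hw' u
      omega
  · rcases he'.2 with ⟨v, hv⟩ | hw'
    · have h1 := agr_near e' e (cw v) hv
      have h2 := isW_cw e hw v
      rw [agr_comm e e']
      omega
    · exact isW_isW e e' hw hw'

theorem exists_sep (i j : Fin 31) (hij : i ≠ j) : ∃ u : V, f u i = 1 ∧ f u j = 0 := by
  have h1 := allb_spec _ _ d7 _ i.2
  have h2 := allb_spec _ _ h1 _ j.2
  rw [Bool.or_eq_true] at h2
  rcases h2 with h2 | h2
  · exact absurd (Fin.ext (Nat.eq_of_beq_eq_true h2)) hij
  · obtain ⟨a, ha, h3⟩ := anyb_spec _ _ h2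
    obtain ⟨b, hb, h4⟩ := anyb_spec _ _ h3
    obtain ⟨c, hc, h5⟩ := anyb_spec _ _ h4
    rw [Bool.and_eq_true] at h5
    have h6 := Nat.eq_of_beq_eq_true h5.1
    have h7 := Nat.eq_of_beq_eq_true h5.2
    have hv : ∀ i : Fin 31, (f ((a : ZMod 5), (b : ZMod 5), (c : ZMod 5)) i).val = fn a b c i := by
      intro i
      rw [f_val]
      simp only [ZMod.val_natCast]
      rw [Nat.mod_eq_of_lt ha, Nat.mod_eq_of_lt hb, Nat.mod_eq_of_lt hc]
    refine ⟨((a : ZMod 5), (b : ZMod 5), (c : ZMod 5)), ?_, ?_⟩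
    · apply ZMod.val_injective 5
      rw [hv, h6]
      rfl
    · apply ZMod.val_injective 5
      rw [hv, h7]
      rfl

/-- number of functionals with two prescribed values -/
theorem fib2 (i j : Fin 31) (hij : i ≠ j) (a b : ZMod 5) :
    (univ.filter (fun v : V => f v i = a ∧ f v j = b)).card = 5 := by
  obtain ⟨u, hu1, hu2⟩ := exists_sep i j hij
  obtain ⟨u', hu1', hu2'⟩ := exists_sep j i hij.symm
  have key : ∀ a b : ZMod 5, (univ.filter (fun v : V => f v i = a ∧ f v j = b)).card =
      (univ.filter (fun v : V => f v i = 0 ∧ f v j = 0)).card := by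
    intro a b
    refine Finset.card_nbij' (fun v => v - (a • u + b • u')) (fun v => v + (a • u + b • u'))
      ?_ ?_ ?_ ?_
    · intro v hv
      simp only [coe_filter, mem_univ, true_and, Set.mem_ofPred_eq] at hv ⊢
      rw [f_sub, f_sub, f_add, f_add, f_smul, f_smul, f_smul, f_smul, hu1, hu2, hu1', hu2',
        hv.1, hv.2]
      constructor <;> ring
    · intro v hv
      simp only [coe_filter, mem_univ, true_and, Set.mem_ofPred_eq] at hv ⊢
      rw [f_add, f_add, f_add, f_add, f_smul, f_smul, f_smul, f_smul, hu1, hu2, hu1', hu2',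
        hv.1, hv.2]
      constructor <;> ring
    · intro v _
      simp
    · intro v _
      simp
  have htot : (univ : Finset V).card = ∑ c : ZMod 5 × ZMod 5,
      (univ.filter (fun v : V => (f v i, f v j) = c)).card :=
    card_eq_sum_card_fiberwise (fun _ _ => mem_univ _)
  have h1 : ∀ c : ZMod 5 × ZMod 5, (univ.filter (fun v : V => (f v i, f v j) = c)).card =
      (univ.filter (fun v : V => f v i = 0 ∧ f v j = 0)).card := by
    intro c
    rw [← key c.1 c.2]
    congr 1
    ext v
    simp [Prod.ext_iff]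
  rw [sum_congr rfl (fun c _ => h1 c), sum_const] at htot
  have h2 : (univ : Finset V).card = 125 := by
    simp [ZMod.card]
  have h3 : (univ : Finset (ZMod 5 × ZMod 5)).card = 25 := by
    simp [ZMod.card]
  rw [h2, h3, smul_eq_mul] at htot
  rw [key a b]
  omega

/-- number of functionals with one prescribed value -/
theorem fib1 (i : Fin 31) (a : ZMod 5) :
    (univ.filter (fun v : V => f v i = a)).card = 25 := by
  obtain ⟨j, hj⟩ : ∃ j : Fin 31, i ≠ j := by
    by_cases h : i = 0
    · exact ⟨1, by rw [h]; decide⟩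
    · exact ⟨0, h⟩
  have h1 : (univ.filter (fun v : V => f v i = a)).card = ∑ b : ZMod 5,
      ((univ.filter (fun v : V => f v i = a)).filter (fun v => f v j = b)).card :=
    card_eq_sum_card_fiberwise (fun _ _ => mem_univ _)
  have h2 : ∀ b : ZMod 5, ((univ.filter (fun v : V => f v i = a)).filter
      (fun v => f v j = b)).card = 5 := by
    intro b
    rw [filter_filter]
    exact fib2 i j hj a b
  rw [h1, sum_congr rfl (fun b _ => h2 b)]
  simp [ZMod.card]

end Pool.Agent.H46R3.Ryser
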