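import Mathlib
import Pool.Agent.H46R3.RyserMain

set_option autoImplicit false
set_option linter.constructorNameAsVariable false

/-!
No 15 vertices cover the hypergraph `HH`.
-/

namespace Pool.Agent.H46R3.Ryser

open Finset

/-- the vertices of `C` on the codeword of `v` -/
def hit (C : Finset (Fin 31 × ℕ)) (v : V) : Finset (Fin 31 × ℕ) :=
  C.filter (fun c => cw v c.1 = c.2)

theorem exists_fresh (C : Finset (Fin 31 × ℕ)) (hC : C.card ≤ 15) (i : Fin 31) :
    ∃ x : ℕ, x < 21 ∧ (i, x) ∉ C := by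
  by_contra hcon
  push Not at hcon
  have h1 : (range 21).image (fun x => (i, x)) ⊆ C := by
    intro c hc
    rw [mem_image] at hc
    obtain ⟨x, hx, rfl⟩ := hc
    exact hcon x (mem_range.1 hx)
  have h2 := card_le_card h1
  rw [card_image_of_injective _ (fun x y h => (Prod.mk.inj h).2), card_range] at h2
  omega

theorem hit_ge (C : Finset (Fin 31 × ℕ)) (hC : C.card ≤ 15)
    (hcov : ∀ e ∈ HH, ∃ i : Fin 31, (i, e i) ∈ C) (v : V) : 3 ≤ (hit C v).card := by
  classical
  by_contra hcon
  choose x hx hx' using exists_fresh C hC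
  set e : Fin 31 → ℕ := fun i => if (i, cw v i) ∈ C then x i else cw v i with he
  have hlt : ∀ i, cw v i < 5 := fun i => ZMod.val_lt _
  have hmem : e ∈ HH := by
    rw [mem_HH]
    refine ⟨?_, Or.inl ⟨v, ?_⟩⟩
    · intro i
      by_cases h : (i, cw v i) ∈ C
      · simp only [he, if_pos h]; exact hx i
      · simp only [he, if_neg h]
        exact (hlt i).trans (by norm_num)
    · have h1 : (univ.filter (fun i => e i ≠ cw v i)).card ≤ (hit C v).card := by
        refine card_le_card_of_injOn (fun i => (i, cw v i)) ?_ ?_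
        · intro i hi
          rw [mem_coe, mem_filter] at hi
          rw [mem_coe]
          unfold hit
          rw [mem_filter]
          refine ⟨?_, rfl⟩
          by_contra h
          exact hi.2 (by simp only [he, if_neg h])
        · intro i _ j _ h
          exact (Prod.mk.inj h).1
      omega
  have hcw := hcov e hmem
  obtain ⟨i, hi⟩ := hcw
  by_cases h : (i, cw v i) ∈ C
  · simp only [he, if_pos h] at hi
    exact hx' i hi
  · simp only [he, if_neg h] at hi
    exact h hi

/-- the number of functionals through a vertex -/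
def thr (c : Fin 31 × ℕ) : ℕ := (univ.filter (fun v : V => cw v c.1 = c.2)).card

theorem thr_lt (c : Fin 31 × ℕ) (hc : c.2 < 5) : thr c = 25 := by
  unfold thr
  rw [← fib1 c.1 (c.2 : ZMod 5)]
  refine congrArg Finset.card (Finset.filter_congr (fun v _ => ?_))
  unfold cw
  constructor
  · intro h
    apply ZMod.val_injective 5
    rw [h, ZMod.val_natCast, Nat.mod_eq_of_lt hc]
  · intro h
    rw [h, ZMod.val_natCast, Nat.mod_eq_of_lt hc]

theorem thr_ge (c : Fin 31 × ℕ) (hc : ¬ c.2 < 5) : thr c = 0 := by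
  unfold thr
  rw [card_eq_zero, filter_eq_empty_iff]
  intro v _ h
  apply hc
  rw [← h]
  exact ZMod.val_lt _

theorem sum_hit (C : Finset (Fin 31 × ℕ)) : ∑ v : V, (hit C v).card = ∑ c ∈ C, thr c := by
  unfold hit thr
  simp_rw [card_filter]
  rw [sum_comm]

theorem cover_struct (C : Finset (Fin 31 × ℕ)) (hC : C.card ≤ 15)
    (hcov : ∀ e ∈ HH, ∃ i : Fin 31, (i, e i) ∈ C) :
    C.card = 15 ∧ (∀ c ∈ C, c.2 < 5) ∧ ∀ v, (hit C v).card = 3 := by
  have h1 : ∑ v : V, 3 ≤ ∑ v : V, (hit C v).card :=
    sum_le_sum (fun v _ => hit_ge C hC hcov v)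
  have hV : (univ : Finset V).card = 125 := by simp [ZMod.card]
  rw [sum_const, hV, smul_eq_mul, sum_hit] at h1
  have h2 : ∀ c ∈ C, thr c ≤ 25 := by
    intro c _
    by_cases hc : c.2 < 5
    · rw [thr_lt c hc]
    · rw [thr_ge c hc]; norm_num
  have h3 : ∑ c ∈ C, thr c ≤ ∑ c ∈ C, 25 := sum_le_sum h2
  rw [sum_const, smul_eq_mul] at h3
  have hcard : C.card = 15 := by omega
  have h4 : ∑ c ∈ C, thr c = ∑ c ∈ C, 25 := by
    rw [sum_const, smul_eq_mul]; omega
  have h5 : ∀ c ∈ C, thr c = 25 := (sum_eq_sum_iff_of_le h2).1 h4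
  have h6 : ∀ c ∈ C, c.2 < 5 := by
    intro c hc
    by_contra h
    have := h5 c hc
    rw [thr_ge c h] at this
    omega
  refine ⟨hcard, h6, ?_⟩
  have h7 : ∑ v : V, 3 = ∑ v : V, (hit C v).card := by
    rw [sum_const, hV, smul_eq_mul, sum_hit, h4, sum_const, smul_eq_mul, hcard]
  have h8 := (sum_eq_sum_iff_of_le (fun v _ => hit_ge C hC hcov v)).1 h7
  intro v
  exact (h8 v (mem_univ v)).symm

/-- every used column is full -/
theorem column (C : Finset (Fin 31 × ℕ)) (hcard : C.card = 15) (hlt : ∀ c ∈ C, c.2 < 5)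
    (hhit : ∀ v, (hit C v).card = 3) (c₀ : Fin 31 × ℕ) (hc₀ : c₀ ∈ C) :
    (C.filter (fun c => c.1 = c₀.1)).card = 5 := by
  classical
  obtain ⟨i, a⟩ := c₀
  have ha : a < 5 := hlt _ hc₀
  set S : Finset V := univ.filter (fun v : V => cw v i = a) with hS
  have hScard : S.card = 25 := thr_lt (i, a) ha
  have h1 : ∑ v ∈ S, (hit C v).card = 75 := by
    rw [sum_congr rfl (fun v _ => hhit v), sum_const, hScard, smul_eq_mul]
  have h2 : ∑ v ∈ S, (hit C v).card = ∑ c ∈ C, (S.filter (fun v => cw v c.1 = c.2)).card := by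
    unfold hit
    simp_rw [card_filter]
    rw [sum_comm]
  have h3 : ∀ c ∈ C.filter (fun c => c.1 = i), (S.filter (fun v => cw v c.1 = c.2)).card =
      if c = (i, a) then 25 else 0 := by
    intro c hc
    rw [mem_filter] at hc
    by_cases h : c = (i, a)
    · rw [if_pos h, h]
      have : S.filter (fun v => cw v i = a) = S := by
        rw [filter_eq_self]
        intro v hv
        rw [hS, mem_filter] at hv
        exact hv.2
      rw [this, hScard]
    · rw [if_neg h, card_eq_zero, filter_eq_empty_iff]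
      intro v hv hcon
      rw [hS, mem_filter] at hv
      apply h
      rw [hc.2, hv.2] at hcon
      exact Prod.ext hc.2 hcon.symm
  have h4 : ∀ c ∈ C.filter (fun c => ¬ c.1 = i), (S.filter (fun v => cw v c.1 = c.2)).card = 5 := by
    intro c hc
    rw [mem_filter] at hc
    have hc2 := hlt c hc.1
    rw [← fib2 i c.1 (Ne.symm hc.2) (a : ZMod 5) (c.2 : ZMod 5), hS, filter_filter]
    refine congrArg Finset.card (Finset.filter_congr (fun v _ => ?_))
    unfold cw
    constructor
    · rintro ⟨h5, h6⟩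
      constructor
      · apply ZMod.val_injective 5
        rw [h5, ZMod.val_natCast, Nat.mod_eq_of_lt ha]
      · apply ZMod.val_injective 5
        rw [h6, ZMod.val_natCast, Nat.mod_eq_of_lt hc2]
    · rintro ⟨h5, h6⟩
      rw [h5, h6, ZMod.val_natCast, Nat.mod_eq_of_lt ha, ZMod.val_natCast,
        Nat.mod_eq_of_lt hc2]
      exact ⟨rfl, rfl⟩
  have h5 := card_filter_add_card_filter_not (s := C) (fun c => c.1 = i)
  have h6 : (i, a) ∈ C.filter (fun c => c.1 = i) := mem_filter.2 ⟨hc₀, rfl⟩
  rw [h2, ← sum_filter_add_sum_filter_not C (fun c => c.1 = i), sum_congr rfl h3,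
    sum_congr rfl h4, sum_ite_eq', if_pos h6, sum_const, smul_eq_mul] at h1
  show (C.filter (fun c => c.1 = i)).card = 5
  omega

theorem no_cover (C : Finset (Fin 31 × ℕ)) (hC : C.card ≤ 15)
    (hcov : ∀ e ∈ HH, ∃ i : Fin 31, (i, e i) ∈ C) : False := by
  classical
  obtain ⟨hcard, hlt, hhit⟩ := cover_struct C hC hcov
  set T : Finset (Fin 31) := C.image Prod.fst with hT
  have h1 : C.card = ∑ i ∈ T, (C.filter (fun c => c.1 = i)).card :=
    card_eq_sum_card_fiberwise (fun c hc => mem_image_of_mem _ hc)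
  have h2 : ∀ i ∈ T, (C.filter (fun c => c.1 = i)).card = 5 := by
    intro i hi
    rw [hT, mem_image] at hi
    obtain ⟨c, hc, rfl⟩ := hi
    exact column C hcard hlt hhit c hc
  rw [sum_congr rfl h2, sum_const, smul_eq_mul, hcard] at h1
  have hT3 : T.card = 3 := by omega
  have key : ∀ w : Fin 31 → ℕ, isW w → (∀ i, w i < 21) → (∀ i ∈ T, w i = 5) → False := by
    intro w hw hw21 hw5
    have hmem : w ∈ HH := by
      rw [mem_HH]
      exact ⟨hw21, Or.inr hw⟩
    have hcw := hcov w hmem
    obtain ⟨i, hi⟩ := hcw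
    have hiT : i ∈ T := mem_image_of_mem Prod.fst hi
    have h3 := hlt _ hi
    rw [hw5 i hiT] at h3
    simp at h3
  by_cases hN : NC T
  · refine key (wT T) (Or.inl ⟨T, hT3, hN, rfl⟩) ?_ ?_
    · intro i
      unfold wT
      by_cases h : i ∈ T
      · rw [if_pos h]; norm_num
      · rw [if_neg h]; norm_num
    · intro i hi
      unfold wT
      rw [if_pos hi]
  · unfold NC at hN
    push Not at hN
    obtain ⟨k, hk⟩ := hN
    refine key (wk k) (Or.inr ⟨k, rfl⟩) ?_ ?_
    · intro i
      unfold wk wn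
      by_cases h : ln k i = 0
      · rw [if_pos h]; norm_num
      · rw [if_neg h]
        exact (Nat.mod_lt _ (by norm_num)).trans (by norm_num)
    · intro i hi
      have h3 : ln k i = 0 := hk i hi
      unfold wk wn
      rw [if_pos h3]

end Pool.Agent.H46R3.Ryser
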