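import Mathlib

set_option autoImplicit false

/-!
Algebra of plane curves meeting the germ of `y = x ^ s` at `x = 1` to high order.
-/

namespace Pool.Agent.H46R3.Sq

open Polynomial

variable {K : Type*} [Field K]

/-- The total degree is at most `D`. -/
def TD (D : ℕ) (P : K[X][X]) : Prop := ∀ l i, D < i + l → (P.coeff l).coeff i = 0

theorem ev_coeff {D s e : ℕ} {P : K[X][X]} (hP : TD D P)
    (he : ∀ l i, i + s * l = e → D < i + l) : (P.eval (X ^ s)).coeff e = 0 := by
  rw [eval_eq_sum, Polynomial.sum_def, finsetSum_coeff]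
  refine Finset.sum_eq_zero (fun l _ => ?_)
  rw [← pow_mul, coeff_mul_X_pow']
  split_ifs with h
  · exact hP _ _ (he l (e - s * l) (by omega))
  · rfl

theorem div_const {N : ℕ} {p : K[X]} (hd : (X - C 1) ^ N ∣ p) (hb : ∀ e, N < e → p.coeff e = 0) :
    ∃ c, p = C c * (X - C 1) ^ N := by
  obtain ⟨q, rfl⟩ := hd
  have hm : ((X - C 1 : K[X]) ^ N).Monic := (monic_X_sub_C 1).pow N
  by_cases hq : q = 0
  · exact ⟨0, by simp [hq]⟩
  · have h1 : natDegree ((X - C 1) ^ N * q) ≤ N := natDegree_le_iff_coeff_eq_zero.2 hb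
    rw [hm.natDegree_mul' hq, natDegree_pow, natDegree_X_sub_C, mul_one] at h1
    have h2 : q.natDegree = 0 := by omega
    obtain ⟨c, rfl⟩ := natDegree_eq_zero.1 h2
    exact ⟨c, mul_comm _ _⟩

theorem coeff_v (N k : ℕ) : ((X - C 1 : K[X]) ^ N).coeff k = (-1) ^ (N - k) * N.choose k := by
  have : (X - C 1 : K[X]) = X + C (-1) := by simp [sub_eq_add_neg]
  rw [this, coeff_X_add_C_pow]

theorem gap {s N e i l : ℕ} (hs : 1 ≤ s) (h : i + s * l = e) (h1 : s * N + 1 < e + s) 
    (h2 : e < s * N) : N < i + l := by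
  by_contra hc
  rw [not_lt] at hc
  have hl : l < N := by
    by_contra hl
    rw [not_lt] at hl
    have : l = N := by omega
    subst this
    omega
  obtain ⟨u, rfl⟩ := Nat.exists_eq_add_of_lt hl
  obtain ⟨w, rfl⟩ := Nat.exists_eq_add_of_le hs
  nlinarith

theorem quotient_TD {s D : ℕ} (hs : 1 ≤ s) {P Q : K[X][X]} (hP : TD (D + s) P)
    (hPQ : P = (X - C (X ^ s)) * Q) : TD D Q := by
  intro l
  induction l with
  | zero =>
    intro i hi
    have h1 := hP 0 (i + s) (by omega)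
    rw [hPQ, sub_mul, coeff_sub, coeff_X_mul_zero, coeff_C_mul, zero_sub, coeff_neg,
      mul_comm (X ^ s), coeff_mul_X_pow] at h1
    exact neg_eq_zero.1 h1
  | succ l ih =>
    intro i hi
    have h1 := hP (l + 1) (i + s) (by omega)
    rw [hPQ, sub_mul, coeff_sub, coeff_X_mul, coeff_C_mul, coeff_sub,
      mul_comm (X ^ s), coeff_mul_X_pow, ih (i + s) (by omega), zero_sub] at h1
    exact neg_eq_zero.1 h1

theorem eval_zero_of_dvd {s n : ℕ} (hs : 3 ≤ s) (hn : 1 ≤ n) (hK : ((n * s ^ 2 : ℕ) : K) ≠ 0)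
    {P : K[X][X]} (hP : TD (n * s) P) (hd : (X - C 1 : K[X]) ^ (n * s ^ 2) ∣ P.eval (X ^ s)) :
    P.eval (X ^ s) = 0 := by
  have hN : s * (n * s) = n * s ^ 2 := by ring
  have hpos : 0 < n * s ^ 2 := by positivity
  obtain ⟨c, hc⟩ := div_const hd (fun e he => ev_coeff hP (fun l i hli => by
    by_contra hcon
    rw [not_lt] at hcon
    have h1 : i + s * l ≤ s * (i + l) := by nlinarith
    have h2 : s * (i + l) ≤ s * (n * s) := Nat.mul_le_mul_left _ hcon
    omega))
  have h1 : (P.eval (X ^ s)).coeff (n * s ^ 2 - 1) = 0 :=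
    ev_coeff hP (fun l i hli => gap (by omega) hli (by omega) (by omega))
  rw [hc, coeff_C_mul, coeff_v] at h1
  have h2 : (n * s ^ 2).choose (n * s ^ 2 - 1) = n * s ^ 2 := by
    rw [Nat.choose_symm_of_eq_add (show n * s ^ 2 = (n * s ^ 2 - 1) + 1 by omega), Nat.choose_one_right]
  rw [h2] at h1
  have h3 : c = 0 := by
    rcases mul_eq_zero.1 h1 with h | h
    · exact h
    · rcases mul_eq_zero.1 h with h' | h'
      · exact absurd h' (pow_ne_zero _ (neg_ne_zero.2 one_ne_zero))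
      · exact absurd h' hK
  rw [hc, h3, C_0, zero_mul]

theorem divide {s n : ℕ} (hs : 3 ≤ s) (hK : (((n + 1) * s ^ 2 : ℕ) : K) ≠ 0)
    {P : K[X][X]} (hP : TD ((n + 1) * s) P)
    (hd : (X - C 1 : K[X]) ^ ((n + 1) * s ^ 2) ∣ P.eval (X ^ s)) :
    ∃ Q, TD (n * s) Q ∧ P = (X - C (X ^ s)) * Q := by
  have h1 := eval_zero_of_dvd hs (by omega) hK hP hd
  obtain ⟨Q, hQ⟩ := dvd_iff_isRoot.2 (show P.IsRoot (X ^ s) from h1)
  refine ⟨Q, quotient_TD (by omega) ?_ hQ, hQ⟩
  have : n * s + s = (n + 1) * s := by ring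
  rw [this]
  exact hP

theorem taylor_f (s : ℕ) (Q : K[X][X]) :
    taylor (X ^ s : K[X]) ((X - C (X ^ s)) * Q) = X * taylor (X ^ s : K[X]) Q := by
  rw [taylor_mul, map_sub, taylor_X, taylor_C, add_sub_cancel_right]

/-- Forms of degree `m s` vanishing on the special scheme. -/
theorem kernel {s : ℕ} (hs : 3 ≤ s) (m : ℕ) :
    (∀ n, 1 ≤ n → n ≤ m → ((n * s ^ 2 : ℕ) : K) ≠ 0) → ∀ P : K[X][X], TD (m * s) P →
      (∀ l < m, (X - C 1 : K[X]) ^ ((m - l) * s ^ 2) ∣ (taylor (X ^ s) P).coeff l) →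
      ∃ c : K, P = C (C c) * (X - C (X ^ s)) ^ m := by
  induction m with
  | zero =>
    intro _ P hP _
    refine ⟨(P.coeff 0).coeff 0, ?_⟩
    rw [pow_zero, mul_one]
    ext l i
    rw [coeff_C]
    split_ifs with hl
    · rw [hl, coeff_C]
      split_ifs with hi
      · rw [hi]
      · exact hP 0 i (by omega)
    · rw [coeff_zero]
      exact hP l i (by omega)
  | succ m ih =>
    intro hK P hP h
    have h0 := h 0 (by omega)
    rw [taylor_coeff_zero, Nat.sub_zero] at h0
    obtain ⟨Q, hQ, hPQ⟩ := divide hs (hK (m + 1) (by omega) le_rfl) hP h0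
    obtain ⟨c, hc⟩ := ih (fun n hn hn' => hK n hn (by omega)) Q hQ (by
      intro l hl
      have h1 := h (l + 1) (by omega)
      rw [hPQ, taylor_f, coeff_X_mul, show m + 1 - (l + 1) = m - l by omega] at h1
      exact h1)
    refine ⟨c, ?_⟩
    rw [hPQ, hc]
    ring

/-- The first order obstruction. -/
theorem obstruct {s : ℕ} (hs : 4 ≤ s) (μ : K) (hμ : μ ≠ 0) (h2 : ((s ^ 2).choose 2 : K) ≠ 0)
    (m : ℕ) : (∀ n, 1 ≤ n → n ≤ m + 1 → ((n * s ^ 2 : ℕ) : K) ≠ 0) →
      ∀ G : K[X][X], TD ((m + 1) * s) G →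
      ¬ (∀ l < m + 1, (X - C 1 : K[X]) ^ ((m + 1 - l) * s ^ 2) ∣
        (taylor (X ^ s) G + C (C μ * X ^ (s ^ 2 - 1)) * X ^ m).coeff l) := by
  have hs2 : 16 ≤ s ^ 2 := by nlinarith
  have hs3 : s * s = s ^ 2 := by ring
  induction m with
  | zero =>
    intro _ G hG h
    have h0 := h 0 (by omega)
    rw [pow_zero, mul_one, coeff_add, taylor_coeff_zero, coeff_C_zero] at h0
    simp only [Nat.sub_zero, zero_add, one_mul] at h0 hG
    have hc1 : ∀ e, (C μ * X ^ (s ^ 2 - 1) : K[X]).coeff e = if e = s ^ 2 - 1 then μ else 0 := by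
      intro e
      rw [coeff_C_mul, coeff_X_pow]
      split_ifs <;> simp
    obtain ⟨c, hc⟩ := div_const h0 (fun e he => by
      rw [coeff_add, hc1, if_neg (by omega), add_zero]
      refine ev_coeff hG (fun l i hli => ?_)
      by_contra hcon
      rw [not_lt] at hcon
      have h1 : i + s * l ≤ s * (i + l) := by nlinarith
      have h2 : s * (i + l) ≤ s * s := Nat.mul_le_mul_left _ hcon
      omega)
    have e1 := congrArg (fun p => p.coeff (s ^ 2 - 1)) hc
    have e2 := congrArg (fun p => p.coeff (s ^ 2 - 2)) hc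
    rw [coeff_add, hc1, if_pos rfl, coeff_C_mul, coeff_v,
      ev_coeff hG (fun l i hli => gap (by omega) hli (by omega) (by omega)), zero_add] at e1
    rw [coeff_add, hc1, if_neg (by omega), coeff_C_mul, coeff_v,
      ev_coeff hG (fun l i hli => gap (by omega) hli (by omega) (by omega)), add_zero,
      Nat.choose_symm_of_eq_add (show s ^ 2 = (s ^ 2 - 2) + 2 by omega)] at e2
    have h3 : c = 0 := by
      rcases mul_eq_zero.1 e2.symm with h | h
      · exact h
      · rcases mul_eq_zero.1 h with h' | h'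
        · exact absurd h' (pow_ne_zero _ (neg_ne_zero.2 one_ne_zero))
        · exact absurd h' h2
    rw [h3, zero_mul] at e1
    exact hμ e1
  | succ m ih =>
    intro hK G hG h
    have h0 := h 0 (by omega)
    rw [coeff_add, taylor_coeff_zero, Nat.sub_zero, coeff_C_mul, coeff_X_pow,
      if_neg (by omega), mul_zero, add_zero] at h0
    obtain ⟨Q, hQ, hGQ⟩ := divide (by omega) (hK (m + 1 + 1) (by omega) le_rfl) hG h0
    refine ih (fun n hn hn' => hK n hn (by omega)) Q hQ ?_
    intro l hl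
    have h1 := h (l + 1) (by omega)
    have h3 : taylor (X ^ s) G + C (C μ * X ^ (s ^ 2 - 1)) * X ^ (m + 1) =
        X * (taylor (X ^ s) Q + C (C μ * X ^ (s ^ 2 - 1)) * X ^ m) := by
      rw [hGQ, taylor_f]
      ring
    rw [h3, coeff_X_mul, show m + 1 + 1 - (l + 1) = m + 1 - l by omega] at h1
    exact h1

theorem pow_TD (s m : ℕ) (hs : 1 ≤ s) : TD (m * s) ((X - C (X ^ s) : K[X][X]) ^ m) := by
  induction m with
  | zero =>
    intro l i h
    rw [pow_zero, coeff_one]
    split_ifs with hl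
    · rw [coeff_one, if_neg (by omega)]
    · rw [coeff_zero]
  | succ m ih =>
    intro l i h
    rw [pow_succ', sub_mul, coeff_sub, coeff_C_mul, coeff_sub, mul_comm (X ^ s : K[X]),
      coeff_mul_X_pow']
    have hms : (m + 1) * s = m * s + s := by ring
    have h1 : (if s ≤ i then (((X - C (X ^ s) : K[X][X]) ^ m).coeff l).coeff (i - s) else 0) = 0 := by
      split_ifs with hsi
      · exact ih l (i - s) (by omega)
      · rfl
    rw [h1, sub_zero]
    rcases l with _ | l
    · rw [coeff_X_mul_zero, coeff_zero]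
    · rw [coeff_X_mul]
      exact ih l i (by omega)

/-- Taylor expansion with respect to the shift. -/
theorem taylor_expand (u : K[X]) (F : K[X][X]) (D : ℕ) (hD : F.natDegree ≤ D) :
    taylor u F = ∑ k ∈ Finset.range (D + 1), C (u ^ k) * hasseDeriv k F := by
  ext1 n
  rw [taylor_coeff, finsetSum_coeff, eval_eq_sum_range' (n := D + 1)
    (lt_of_le_of_lt ((natDegree_hasseDeriv_le F n).trans (Nat.sub_le _ _)) (by omega))]
  refine Finset.sum_congr rfl (fun k _ => ?_)
  rw [coeff_C_mul, hasseDeriv_coeff, hasseDeriv_coeff, add_comm k n,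
    Nat.choose_symm_add (a := n) (b := k)]
  ring

end Pool.Agent.H46R3.Sq
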