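import Mathlib
import Pool.Agent.H932R3.Empty
import Pool.Agent.H932R3.Collide
import Pool.Agent.H46R3.SqAlg

set_option autoImplicit false

/-!
Perturbation of the kernel and the vanishing for a perfect square number of points.
-/

namespace Pool.Agent.H46R3.Sq

open Polynomial Pool.Agent.H932R2 Pool.Agent.H932R3

variable {K : Type*} [Field K]

/-- A one-dimensional kernel with a first order obstruction disappears under deformation. -/
theorem perturb [Infinite K] {N D : ℕ} {W : Type*} [AddCommGroup W] [Module K W]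
    (L : ℕ → (Fin N → K) →ₗ[K] W) (v0 : Fin N → K) (h0 : L 0 v0 = 0)
    (hker : ∀ v, L 0 v = 0 → ∃ c : K, v = c • v0) (h1 : ∀ u, L 0 u + L 1 v0 ≠ 0)
    (hD : L (D + 1) v0 = 0) :
    ∃ t : K, t ≠ 0 ∧ ∀ v, ∑ k ∈ Finset.range (D + 1), t ^ k • L k v = 0 → v = 0 := by
  classical
  obtain ⟨U, hU⟩ := Submodule.exists_isCompl (Submodule.span K {v0})
  let b := Module.finBasis K U
  let w : Fin (Module.finrank K U + 1) → ℕ → W :=
    Fin.cons (fun k => L (k + 1) v0) (fun i k => L k (b i : Fin N → K))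
  have hw0 : ∀ k, w 0 k = L (k + 1) v0 := fun k => rfl
  have hws : ∀ i k, w (Fin.succ i) k = L k (b i : Fin N → K) := fun i k => rfl
  have hli : LinearIndependent K (fun j => w j 0) := by
    have hcons : (fun j => w j 0) = Fin.cons (L 1 v0) (fun i => L 0 (b i : Fin N → K)) := by
      funext j
      refine Fin.cases ?_ (fun i => ?_) j
      · rfl
      · rfl
    rw [hcons, linearIndependent_finCons]
    constructor
    · have hb : LinearIndependent K (fun i => b i) := b.linearIndependent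
      have := hb.map' ((L 0).comp U.subtype) (by
        rw [LinearMap.ker_eq_bot']
        intro u hu
        obtain ⟨c, hc⟩ := hker (u : Fin N → K) hu
        have hmem : (u : Fin N → K) ∈ Submodule.span K {v0} ⊓ U := by
          refine ⟨?_, u.2⟩
          rw [hc]
          exact Submodule.smul_mem _ _ (Submodule.mem_span_singleton_self v0)
        rw [hU.inf_eq_bot, Submodule.mem_bot] at hmem
        exact Subtype.ext hmem)
      exact this
    · intro hmem
      have hle : Submodule.span K (Set.range fun i => L 0 (b i : Fin N → K)) ≤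
          LinearMap.range (L 0) := by
        rw [Submodule.span_le]
        rintro _ ⟨i, rfl⟩
        exact ⟨_, rfl⟩
      obtain ⟨u, hu⟩ := hle hmem
      refine h1 (-u) ?_
      rw [map_neg, hu, neg_add_cancel]
  obtain ⟨t, ht, hlt⟩ := exists_ne_zero_li D w hli
  refine ⟨t, ht, fun v hv => ?_⟩
  -- decompose
  have hv' : v ∈ Submodule.span K {v0} ⊔ U := by rw [hU.sup_eq_top]; trivial
  obtain ⟨x, hx, u, hu, hxu⟩ := Submodule.mem_sup.1 hv'
  obtain ⟨a, rfl⟩ := Submodule.mem_span_singleton.1 hx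
  have hbu : ∑ i, b.repr ⟨u, hu⟩ i • (b i : Fin N → K) = u := by
    have := b.sum_repr ⟨u, hu⟩
    have h2 := congrArg (U.subtype) this
    rw [map_sum] at h2
    exact h2
  rw [Fintype.linearIndependent_iff] at hlt
  have hsum0 : ∑ k ∈ Finset.range (D + 1), t ^ k • L k v0 =
      t • ∑ k ∈ Finset.range (D + 1), t ^ k • L (k + 1) v0 := by
    rw [Finset.sum_range_succ', h0, smul_zero, add_zero, Finset.sum_range_succ (fun k =>
      t ^ k • L (k + 1) v0), hD, smul_zero, add_zero, Finset.smul_sum]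
    refine Finset.sum_congr rfl (fun k _ => ?_)
    rw [smul_smul, pow_succ, mul_comm]
  have key := hlt (Fin.cons (a * t) (fun i => b.repr ⟨u, hu⟩ i)) (by
    rw [Fin.sum_univ_succ]
    simp only [Fin.cons_zero, Fin.cons_succ, hw0, hws]
    have e1 : ∑ i, b.repr ⟨u, hu⟩ i • ∑ k ∈ Finset.range (D + 1), t ^ k • L k (b i : Fin N → K) =
        ∑ k ∈ Finset.range (D + 1), t ^ k • L k u := by
      conv_rhs => rw [← hbu]
      simp only [map_sum, map_smul, Finset.smul_sum]
      rw [Finset.sum_comm]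
      refine Finset.sum_congr rfl (fun k _ => Finset.sum_congr rfl (fun i _ => ?_))
      rw [smul_comm]
    rw [e1, mul_smul, ← hsum0, Finset.smul_sum, ← Finset.sum_add_distrib, ← hv]
    refine Finset.sum_congr rfl (fun k _ => ?_)
    rw [← hxu, map_add, map_smul, smul_add, smul_comm])
  have ha : a * t = 0 := key 0
  have ha0 : a = 0 := (mul_eq_zero.1 ha).resolve_right ht
  have hb0 : u = 0 := by
    rw [← hbu]
    refine Finset.sum_eq_zero (fun i _ => ?_)
    have := key (Fin.succ i)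
    rw [Fin.cons_succ] at this
    rw [this, zero_smul]
  rw [← hxu, ha0, hb0, zero_smul, add_zero]

theorem TD_of_mspan {D : ℕ} {f : K[X][X]} (hf : f ∈ mspan K (Tset D)) : TD D f := by
  refine Submodule.span_induction ?_ ?_ ?_ ?_ hf
  · rintro _ ⟨⟨a, b⟩, hp, rfl⟩ l i h
    rw [coeff_mon, if_neg]
    intro h'
    rw [h', mem_Tset] at hp
    omega
  · intro l i _
    rw [coeff_zero, coeff_zero]
  · intro p q _ _ hp hq l i h
    rw [coeff_add, coeff_add, hp l i h, hq l i h, add_zero]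
  · intro c p _ hp l i h
    rw [coeff_smul, coeff_smul, hp l i h, smul_zero]

theorem mspan_of_TD {D : ℕ} {f : K[X][X]} (hf : TD D f) : f ∈ mspan K (Tset D) := by
  rw [f.as_sum_support_C_mul_X_pow]
  refine Submodule.sum_mem _ (fun l _ => ?_)
  have h1 : (C (f.coeff l) * X ^ l : K[X][X]) =
      ∑ i ∈ (f.coeff l).support, ((f.coeff l).coeff i) • mon K (i, l) := by
    conv_lhs => rw [(f.coeff l).as_sum_support_C_mul_X_pow]
    rw [map_sum, Finset.sum_mul]
    refine Finset.sum_congr rfl (fun i _ => ?_)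
    rw [mon, Algebra.smul_def, C_mul, mul_assoc]
    rfl
  rw [h1]
  refine Submodule.sum_mem _ (fun i hi => ?_)
  refine Submodule.smul_mem _ _ (Submodule.subset_span ⟨(i, l), ?_, rfl⟩)
  rw [mem_Tset]
  by_contra hc
  rw [not_le] at hc
  exact (mem_support_iff.1 hi) (hf l i hc)

theorem TD_natDegree {D : ℕ} {f : K[X][X]} (hf : TD D f) : f.natDegree ≤ D := by
  rw [natDegree_le_iff_coeff_eq_zero]
  intro l hl
  ext i
  rw [coeff_zero]
  exact hf l i (by omega)

/-- Membership in the ideal after a shift. -/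
theorem mem_shift {γ g : K[X]} {m : ℕ} {f : K[X][X]} :
    f ∈ (Ideal.span {X - C γ, C g} : Ideal K[X][X]) ^ m ↔
      taylor γ f ∈ (Ideal.span {X, C g} : Ideal K[X][X]) ^ m := by
  have key : ∀ (ψ : K[X][X] →+* K[X][X]) (a b a' b' : K[X][X]), ψ a = a' → ψ b = b' →
      ∀ h : K[X][X], h ∈ (Ideal.span {a, b} : Ideal K[X][X]) ^ m →
        ψ h ∈ (Ideal.span {a', b'} : Ideal K[X][X]) ^ m := by
    intro ψ a b a' b' ha hb h hh
    have h2 := Ideal.mem_map_of_mem ψ hh
    rwa [Ideal.map_pow, Ideal.map_span, Set.image_pair, ha, hb] at h2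
  constructor
  · intro h
    refine key ((taylorAlgHom γ : K[X][X] →ₐ[K[X]] K[X][X]) : K[X][X] →+* K[X][X]) _ _ _ _ ?_ ?_ f h
    · show taylor γ (X - C γ) = X
      rw [map_sub, taylor_X, taylor_C, add_sub_cancel_right]
    · show taylor γ (C g) = C g
      rw [taylor_C]
  · intro h
    have h2 := key ((taylorAlgHom (-γ) : K[X][X] →ₐ[K[X]] K[X][X]) : K[X][X] →+* K[X][X])
      X (C g) (X - C γ) (C g) (by
        show taylor (-γ) X = X - C γ
        rw [taylor_X, C_neg, sub_eq_add_neg]) (by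
        show taylor (-γ) (C g) = C g
        rw [taylor_C]) _ h
    have h3 : taylor (-γ) (taylor γ f) ∈ (Ideal.span {X - C γ, C g} : Ideal K[X][X]) ^ m := h2
    rwa [taylor_taylor, neg_add_cancel, taylor_zero] at h3

/-- the germ -/
noncomputable def germ (K : Type*) [Field K] (s : ℕ) (t : K) : K[X] :=
  X ^ s + C t * X ^ (s ^ 2 - 1)

/-- For some member of the pencil of germs there is no form. -/
theorem exists_germ [Infinite K] {s m : ℕ} (hs : 4 ≤ s) (hm : 0 < m)
    (hK : ∀ q : ℕ, 0 < q → q ≤ max m (s + 1) → (q : K) ≠ 0) :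
    ∃ t : K, ∀ f : K[X][X], f ∈ mspan K (Tset (m * s)) →
      f ∈ (Ideal.span {X - C (germ K s t), C ((X - C 1) ^ s ^ 2)} : Ideal K[X][X]) ^ m → f = 0 := by
  classical
  obtain ⟨m, rfl⟩ : ∃ n, m = n + 1 := ⟨m - 1, by omega⟩
  have hsK : (s : K) ≠ 0 := hK s (by omega) ((Nat.le_succ s).trans (le_max_right _ _))
  have hnK : ∀ n, 1 ≤ n → n ≤ m + 1 → ((n * s ^ 2 : ℕ) : K) ≠ 0 := by
    intro n hn hn'
    rw [Nat.cast_mul, Nat.cast_pow]
    exact mul_ne_zero (hK n (by omega) (hn'.trans (le_max_left _ _))) (pow_ne_zero _ hsK)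
  have h2K : ((s ^ 2).choose 2 : K) ≠ 0 := by
    have e1 : (s ^ 2).choose 2 * 2 = s ^ 2 * ((s - 1) * (s + 1)) := by
      rw [Nat.choose_two_right, Nat.div_mul_cancel (Nat.even_mul_pred_self _).two_dvd]
      congr 1
      obtain ⟨u, rfl⟩ := Nat.exists_eq_add_of_le hs
      have : 4 + u - 1 = u + 3 := by omega
      rw [this]
      have : (4 + u) ^ 2 = (u + 3) * (4 + u + 1) + 1 := by ring
      omega
    intro h0
    have e2 := congrArg (Nat.cast : ℕ → K) e1
    rw [Nat.cast_mul, Nat.cast_mul, Nat.cast_mul, Nat.cast_pow, h0, zero_mul] at e2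
    have e3 : (s : K) ^ 2 * (((s - 1 : ℕ) : K) * ((s + 1 : ℕ) : K)) ≠ 0 :=
      mul_ne_zero (pow_ne_zero _ hsK) (mul_ne_zero
        (hK (s - 1) (by omega) (le_trans (by omega) (le_max_right _ _)))
        (hK (s + 1) (by omega) (le_max_right _ _)))
    exact e3 e2.symm
  set M := Tfin ((m + 1) * s) with hM
  set J : Submodule K K[X][X] := Submodule.restrictScalars K
    ((Ideal.span {X, C ((X - C 1) ^ s ^ 2)} : Ideal K[X][X]) ^ (m + 1)) with hJ
  set g0 : K[X] := X ^ s with hg0
  set h : K[X] := X ^ (s ^ 2 - 1) with hh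
  let T : K[X][X] →ₗ[K] K[X][X] := (taylor g0).restrictScalars K
  let A : ℕ → K[X][X] →ₗ[K] K[X][X] := fun k =>
    (LinearMap.mulLeft K (C (h ^ k))).comp ((hasseDeriv k).restrictScalars K)
  let L : ℕ → (Fin M.card → K) →ₗ[K] (K[X][X] ⧸ J) := fun k =>
    J.mkQ.comp ((A k).comp (T.comp (coordMap K M)))
  have hL : ∀ k a, L k a = J.mkQ (C (h ^ k) * hasseDeriv k (taylor g0 (coordMap K M a))) :=
    fun k a => rfl
  have hmem : ∀ x : K[X][X], J.mkQ x = 0 ↔ ∀ l < m + 1,
      (X - C 1 : K[X]) ^ ((m + 1 - l) * s ^ 2) ∣ x.coeff l := by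
    intro x
    rw [Submodule.mkQ_apply, Submodule.Quotient.mk_eq_zero, hJ, Submodule.restrictScalars_mem,
      mem_span_pow_iff]
    refine forall_congr' (fun l => forall_congr' (fun _ => ?_))
    rw [← pow_mul, mul_comm (s ^ 2)]
  have hTD : ∀ a, TD ((m + 1) * s) (coordMap K M a) := by
    intro a
    refine TD_of_mspan ?_
    rw [← coe_Tfin, mem_mspan_iff]
    exact ⟨a, rfl⟩
  obtain ⟨v0, hv0⟩ : ∃ a, coordMap K M a = (X - C (X ^ s)) ^ (m + 1) := by
    rw [← mem_mspan_iff, hM, coe_Tfin]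
    exact mspan_of_TD (pow_TD s (m + 1) (by omega))
  have htv0 : taylor g0 (coordMap K M v0) = X ^ (m + 1) := by
    rw [hv0, taylor_pow, map_sub, taylor_X, taylor_C, add_sub_cancel_right]
  have hl0 : ∀ a, L 0 a = J.mkQ (taylor g0 (coordMap K M a)) := by
    intro a
    rw [hL, pow_zero, C_1, one_mul, hasseDeriv_zero']
  have p1 : L 0 v0 = 0 := by
    rw [hl0, htv0, hmem]
    intro l hl
    rw [coeff_X_pow, if_neg (by omega)]
    exact dvd_zero _
  have p2 : ∀ v, L 0 v = 0 → ∃ c : K, v = c • v0 := by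
    intro v hv
    rw [hl0, hmem] at hv
    obtain ⟨c, hc⟩ := kernel (by omega) (m + 1) hnK _ (hTD v) hv
    refine ⟨c, coordMap_inj M ?_⟩
    rw [map_smul, hv0, hc, Algebra.smul_def]
    rfl
  have p3 : ∀ u, L 0 u + L 1 v0 ≠ 0 := by
    intro u hu
    rw [hl0, hL, htv0, ← map_add, hmem] at hu
    refine obstruct hs ((m + 1 : ℕ) : K) (hK (m + 1) (by omega) (le_max_left _ _)) h2K m hnK _
      (hTD u) ?_
    intro l hl
    have h5 := hu l hl
    rw [pow_one, hasseDeriv_one', derivative_X_pow, Nat.add_sub_cancel] at h5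
    have h6 : (C h * (C ((m + 1 : ℕ) : K[X]) * X ^ m) : K[X][X]) =
        C (C ((m + 1 : ℕ) : K) * X ^ (s ^ 2 - 1)) * X ^ m := by
      rw [← mul_assoc, ← C_mul, mul_comm h]
      congr 3
    rw [h6] at h5
    exact h5
  have p4 : L ((m + 1) * s + (m + 1) + 1) v0 = 0 := by
    rw [hL, htv0, hasseDeriv_eq_zero_of_lt_natDegree _ _ (by
      rw [natDegree_X_pow]
      have : 0 ≤ (m + 1) * s := Nat.zero_le _
      omega), mul_zero, map_zero]
  obtain ⟨t, ht, hinj⟩ := perturb (D := (m + 1) * s + (m + 1)) L v0 p1 p2 p3 p4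
  refine ⟨t, fun f hf hfI => ?_⟩
  rw [← coe_Tfin, mem_mspan_iff] at hf
  obtain ⟨a, rfl⟩ := hf
  rw [mem_shift] at hfI
  have h1 : J.mkQ (taylor (germ K s t) (coordMap K M a)) = 0 := by
    rw [Submodule.mkQ_apply, Submodule.Quotient.mk_eq_zero]
    exact hfI
  have h2 : taylor (germ K s t) (coordMap K M a) =
      ∑ k ∈ Finset.range ((m + 1) * s + (m + 1) + 1),
        t ^ k • (C (h ^ k) * hasseDeriv k (taylor g0 (coordMap K M a))) := by
    have h3 : germ K s t = C t * h + g0 := by rw [germ, add_comm]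
    rw [h3, ← taylor_taylor, taylor_expand (C t * h) _ ((m + 1) * s + (m + 1)) (by
      rw [natDegree_taylor]
      exact (TD_natDegree (hTD a)).trans (Nat.le_add_right _ _))]
    refine Finset.sum_congr rfl (fun k _ => ?_)
    rw [mul_pow, ← C_pow, C_mul, mul_assoc, Algebra.smul_def]
    rfl
  rw [h2, map_sum] at h1
  have h4 : a = 0 := hinj a (by
    rw [← h1]
    refine Finset.sum_congr rfl (fun k _ => ?_)
    rw [hL, map_smul])
  rw [h4, map_zero]

/-- No forms on a general collision when the number of points is a square. -/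
theorem sq_collision [Infinite K] {s m : ℕ} (hs : 4 ≤ s) (hm : 0 < m)
    (hK : ∀ q : ℕ, 0 < q → q ≤ max m (s + 1) → (q : K) ≠ 0) :
    ∃ F : MvPolynomial (Fin (s ^ 2 + 1)) K, F ≠ 0 ∧
      ∀ (c : K) (a : Fin (s ^ 2) → K),
        MvPolynomial.eval (Fin.cons c a : Fin (s ^ 2 + 1) → K) F ≠ 0 →
          NoForm (jetIdeal m c a) (m * s) := by
  classical
  obtain ⟨t, ht⟩ := exists_germ hs hm hK
  let c : Unit → MvPolynomial (Fin (s ^ 2 + 1)) K := fun _ => MvPolynomial.X 0
  let γ : Unit → (MvPolynomial (Fin (s ^ 2 + 1)) K)[X] := fun _ =>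
    ∑ j : Fin (s ^ 2), C (MvPolynomial.X j.succ) * X ^ (j : ℕ)
  have hev : ∀ (c0 : K) (a : Fin (s ^ 2) → K),
      uIdeal (s ^ 2) m (fun i => MvPolynomial.eval (Fin.cons c0 a : Fin (s ^ 2 + 1) → K) (c i))
        (fun i => (γ i).map (MvPolynomial.eval (Fin.cons c0 a : Fin (s ^ 2 + 1) → K))) =
      jetIdeal m c0 a := by
    intro c0 a
    simp only [c, γ, MvPolynomial.eval_X, Fin.cons_zero, uIdeal, iInf_const, cIdeal, jetIdeal,
      rootPoly_const, Polynomial.map_sum, Polynomial.map_mul, Polynomial.map_C,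
      Polynomial.map_pow, Polynomial.map_X, Fin.cons_succ]
  have hs2 : 16 ≤ s ^ 2 := by nlinarith
  have hss : s < s ^ 2 := by nlinarith
  have hdeg : (germ K s t).natDegree < s ^ 2 := by
    refine lt_of_le_of_lt (natDegree_add_le _ _) (max_lt ?_ ?_)
    · rw [natDegree_X_pow]; exact hss
    · refine lt_of_le_of_lt (natDegree_C_mul_X_pow_le _ _) (by omega)
  have hsum : ∑ j : Fin (s ^ 2), C ((germ K s t).coeff j) * X ^ (j : ℕ) = germ K s t := by
    conv_rhs => rw [as_sum_range_C_mul_X_pow' (germ K s t) hdeg]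
    exact (Finset.sum_range fun j => C ((germ K s t).coeff j) * X ^ j).symm
  have hno : NoForm (jetIdeal m (1 : K) (fun j : Fin (s ^ 2) => (germ K s t).coeff j)) (m * s) := by
    intro F hF hFI
    have h1 := ht (deh K F) (deh_mem_mspan hF) (by
      rw [jetIdeal, hsum] at hFI
      exact hFI)
    by_contra hne
    obtain ⟨α, hα⟩ := MvPolynomial.exists_coeff_ne_zero hne
    have h2 := coeff_deh hF hα
    rw [h1, coeff_zero, coeff_zero] at h2
    exact hα h2.symm
  obtain ⟨F, hF, hF'⟩ := exists_open (s ^ 2) m c γ (Tset (m * s)) (Tfin (m * s)).card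
    (Fin.cons 1 (fun j : Fin (s ^ 2) => (germ K s t).coeff j) : Fin (s ^ 2 + 1) → K) (by
    rw [hev]
    exact hno.rk)
  exact ⟨F, hF, fun c0 a hP => by
    rw [← hev]
    exact NoForm.of_rk (hF' _ hP)⟩

end Pool.Agent.H46R3.Sq
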